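import Pool.Agent.R323.NF.A

/-!
# Places with integral values and the growth of orbits of Hénon maps
-/

set_option autoImplicit false

namespace Pool.Agent.R323.HN

open Pool.Agent.R323 Pool.Agent.TH450.FG Real Finset Polynomial

universe u v w

/-- Function fields of characteristic zero have places with integral logarithms. -/
theorem exists_PFi (k : Type v) (K : Type u) [Field k] [CharZero k] [Field K] [Algebra k K]
    (hFG : (⊤ : IntermediateField k K).FG)
    (hx : ∃ x : K, Transcendental k x ∧ Algebra.IsAlgebraic (IntermediateField.adjoin k {x}) K) :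
    ∃ Q : PF.{u, v, u} k K, (∀ v (x : K), x ≠ 0 → ∃ n : ℤ, Q.V v x = Real.exp n) ∧
      ∀ v, 1 ≤ Q.wt v := by
  obtain ⟨Q⟩ := Pool.Agent.W277.UB.exists_placeData_ff k K hFG hx
  have hone : ∀ v (x : K), x ≠ 0 →
      (absO (Q.ord v) (Q.ord_mul v) (Q.ord_add v) x = 1 ↔ Q.ord v x = 0) := by
    intro v x hx
    rw [absO_apply _ _ _ x hx, Real.exp_eq_one_iff, neg_eq_zero]
    exact_mod_cast Iff.rfl
  have hlog : ∀ v (x : K), x ≠ 0 →
      log (absO (Q.ord v) (Q.ord_mul v) (Q.ord_add v) x) = -(Q.ord v x : ℝ) := by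
    intro v x hx
    rw [absO_apply _ _ _ x hx, Real.log_exp]
  have hinv : ∀ v (x : K), x ≠ 0 → Q.ord v x⁻¹ = -Q.ord v x := by
    intro v x hx
    have h1 := Q.ord_mul v x x⁻¹ hx (inv_ne_zero hx)
    rw [mul_inv_cancel₀ hx] at h1
    have h2 := Q.ord_mul v 1 1 one_ne_zero one_ne_zero
    rw [mul_one] at h2
    omega
  have hprod : ∀ x : K, x ≠ 0 → ∀ S : Finset Q.Pl, (∀ v, v ∉ S → Q.ord v x = 0) →
      ∑ v ∈ S, Q.wt v * Q.ord v x = 0 := by
    intro x hx S hS
    have h1 := Q.prod_formula x hx S fun v hv => (hS v hv).ge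
    have h2 := Q.prod_formula x⁻¹ (inv_ne_zero hx) S fun v hv => by
      rw [hinv v x hx, hS v hv]
      simp
    have h3 : ∑ v ∈ S, Q.wt v * Q.ord v x⁻¹ = -∑ v ∈ S, Q.wt v * Q.ord v x := by
      rw [← Finset.sum_neg_distrib]
      apply Finset.sum_congr rfl
      intro v _
      rw [hinv v x hx]
      ring
    linarith
  have halg : ∀ c : k, algebraMap k K c = algebraMap (algebraicClosure k K) K
      (algebraMap k (algebraicClosure k K) c) := fun c => rfl
  refine ⟨{ Pl := Q.Pl, V := fun v => absO (Q.ord v) (Q.ord_mul v) (Q.ord_add v),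
            na := fun v => absO_na _ _ _, triv := ?_, wt := fun v => Q.wt v, wt_pos := ?_,
            fin := ?_, prod := ?_, const := ?_ }, ?_, ?_⟩
  · intro v c hc
    refine (hone v _ ((_root_.map_ne_zero _).2 hc)).2 ?_
    rw [halg]
    exact Q.ord_alg v _ (by simpa using hc)
  · intro v
    have := Q.wt_one v
    exact_mod_cast (by omega : 0 < Q.wt v)
  · intro x hx
    refine (Q.fin x hx).subset fun v hv => ?_
    exact fun h => hv ((hone v x hx).2 h)
  · intro x hx S hS
    have h1 := hprod x hx S fun v hv => (hone v x hx).1 (hS v hv)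
    have h2 : ∑ v ∈ S, (Q.wt v : ℝ) * log (absO (Q.ord v) (Q.ord_mul v) (Q.ord_add v) x) =
        -((∑ v ∈ S, Q.wt v * Q.ord v x : ℤ) : ℝ) := by
      push_cast
      rw [← Finset.sum_neg_distrib]
      refine Finset.sum_congr rfl fun v _ => ?_
      rw [hlog v x hx]
      ring
    rw [h2, h1]
    simp
  · intro x hx h
    obtain ⟨c, hc⟩ := Q.const x hx fun v => ((hone v x hx).1 (h v)).ge
    rw [← hc]
    exact mem_algebraicClosure_iff.1 c.2
  · intro v x hx
    refine ⟨-Q.ord v x, ?_⟩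
    show absO (Q.ord v) (Q.ord_mul v) (Q.ord_add v) x = _
    rw [absO_apply _ _ _ x hx]
    push_cast
    rfl
  · intro v
    show (1 : ℝ) ≤ (Q.wt v : ℝ)
    exact_mod_cast Q.wt_one v

section ht

variable {k : Type v} {K : Type u} [Field k] [Field K] [Algebra k K]

/-- local bound for the roots of polynomials with coefficients of bounded height -/
theorem loc_le (Q : PF.{u, v, w} k K) (y : K) (b : ℕ) : ∃ B : ℝ, 0 ≤ B ∧ ∀ (a : ℕ) (z : K)
    (A : Fin (a + 1) → K), (∃ i, A i ≠ 0) → ∑ i, A i * z ^ (i : ℕ) = 0 →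
    (∀ v i, Q.V v (A i) ≤ (max 1 (Q.V v y)) ^ b) →
    ∀ v, Q.wt v * log (max 1 (Q.V v z)) ≤ B := by
  classical
  obtain ⟨Sy, hSy⟩ : ∃ Sy : Finset Q.Pl, ∀ v, v ∉ Sy → log (max 1 (Q.V v y)) = 0 := by
    by_cases hy : y = 0
    · exact ⟨∅, fun v _ => by simp [hy]⟩
    · refine ⟨(Q.fin y hy).toFinset, fun v hv => ?_⟩
      have : Q.V v y = 1 := by
        by_contra hne
        exact hv (by simpa using hne)
      simp [this]
  have hl0 : ∀ v (z : K), 0 ≤ log (max 1 (Q.V v z)) := fun v z => log_nonneg (le_max_left _ _)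
  refine ⟨b * ∑ v ∈ Sy, Q.wt v * log (max 1 (Q.V v y)),
    mul_nonneg (Nat.cast_nonneg _) (Finset.sum_nonneg fun v _ => mul_nonneg (Q.wt_pos v).le
      (hl0 v y)), ?_⟩
  intro a z A hA hsum hbd v₁
  obtain ⟨i₀, hi₀, hmax⟩ : ∃ i₀, A i₀ ≠ 0 ∧ ∀ i, i₀ < i → A i = 0 := by
    obtain ⟨i, hi⟩ := hA
    obtain ⟨i₀, h1, h2⟩ := Finset.exists_max_image (Finset.univ.filter fun i => A i ≠ 0) id
      ⟨i, by simpa using hi⟩
    refine ⟨i₀, (Finset.mem_filter.1 h1).2, fun j hj => ?_⟩
    by_contra hne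
    exact absurd (h2 j (by simpa using hne)) (not_le.2 hj)
  have hloc : ∀ v, log (max 1 (Q.V v z)) ≤ b * log (max 1 (Q.V v y)) - log (Q.V v (A i₀)) := by
    intro v
    set M := max 1 (Q.V v y) with hM
    have hM1 : 1 ≤ M := le_max_left _ _
    have hM0 : 0 < M := by linarith
    have hpos : 0 < Q.V v (A i₀) := (Q.V v).pos hi₀
    have hMD : log (M ^ b) = b * log M := log_pow _ _
    by_cases hz : Q.V v z ≤ 1
    · rw [max_eq_left hz, log_one]
      have := log_le_log hpos (hbd v i₀)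
      linarith
    · push Not at hz
      rw [max_eq_right hz.le]
      have hz0 : 0 < Q.V v z := by linarith
      have h0 : (i₀ : ℕ) ≠ 0 := by
        intro h0
        apply hi₀
        have h1 : ∑ i, A i * z ^ (i : ℕ) = A i₀ := by
          rw [Finset.sum_eq_single i₀]
          · rw [h0, pow_zero, mul_one]
          · intro j _ hj
            have : i₀ < j := by
              rw [Fin.lt_def, h0]
              have : (j : ℕ) ≠ (i₀ : ℕ) := fun h => hj (Fin.ext h)
              omega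
            rw [hmax j this, zero_mul]
          · intro h
            exact absurd (Finset.mem_univ _) h
        rw [← h1, hsum]
      have h1 : A i₀ * z ^ (i₀ : ℕ) = -∑ i ∈ Finset.univ.erase i₀, A i * z ^ (i : ℕ) := by
        rw [← Finset.add_sum_erase _ _ (Finset.mem_univ i₀)] at hsum
        linear_combination hsum
      have h2 : Q.V v (∑ i ∈ Finset.univ.erase i₀, A i * z ^ (i : ℕ)) ≤
          M ^ b * (Q.V v z) ^ ((i₀ : ℕ) - 1) := by
        refine na_sum_le (Q.na v) _ _ (by positivity) fun i hi => ?_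
        rw [map_mul, map_pow]
        rcases lt_trichotomy i i₀ with h3 | h3 | h3
        · have h4 : (i : ℕ) ≤ (i₀ : ℕ) - 1 := by
            rw [Fin.lt_def] at h3
            omega
          exact mul_le_mul (hbd v i) (pow_le_pow_right₀ hz.le h4) (by positivity) (by positivity)
        · exact absurd h3 (Finset.ne_of_mem_erase hi)
        · rw [hmax i h3, map_zero, zero_mul]
          positivity
      have h3 : Q.V v (A i₀) * (Q.V v z) ^ (i₀ : ℕ) ≤ M ^ b * (Q.V v z) ^ ((i₀ : ℕ) - 1) := by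
        rw [← map_pow, ← map_mul, h1, map_neg_eq_map]
        exact h2
      have h4 : (Q.V v z) ^ (i₀ : ℕ) = (Q.V v z) ^ ((i₀ : ℕ) - 1) * Q.V v z := by
        rw [← pow_succ]
        congr 1
        omega
      rw [h4] at h3
      have h5 : 0 < (Q.V v z) ^ ((i₀ : ℕ) - 1) := by positivity
      have h6 : Q.V v (A i₀) * Q.V v z ≤ M ^ b := by
        have h7 : (Q.V v (A i₀) * Q.V v z) * (Q.V v z) ^ ((i₀ : ℕ) - 1) ≤
            M ^ b * (Q.V v z) ^ ((i₀ : ℕ) - 1) := by
          linarith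
        exact le_of_mul_le_mul_right h7 h5
      have h7 := log_le_log (by positivity) h6
      rw [log_mul hpos.ne' hz0.ne', hMD] at h7
      linarith
  obtain ⟨S, hS⟩ : ∃ S, S = insert v₁ ((Q.fin (A i₀) hi₀).toFinset) := ⟨_, rfl⟩
  have h1 : ∑ v ∈ S, Q.wt v * log (Q.V v (A i₀)) = 0 := Q.prod _ hi₀ S fun v hv => by
    by_contra hne
    exact hv (by rw [hS]; exact Finset.mem_insert_of_mem (by simpa using hne))
  calc Q.wt v₁ * log (max 1 (Q.V v₁ z)) ≤ ∑ v ∈ S, Q.wt v * log (max 1 (Q.V v z)) :=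
        Finset.single_le_sum (f := fun v => Q.wt v * log (max 1 (Q.V v z)))
          (fun v _ => mul_nonneg (Q.wt_pos v).le (hl0 v z))
          (by rw [hS]; exact Finset.mem_insert_self _ _)
    _ ≤ ∑ v ∈ S, Q.wt v * (b * log (max 1 (Q.V v y)) - log (Q.V v (A i₀))) :=
        Finset.sum_le_sum fun v _ => mul_le_mul_of_nonneg_left (hloc v) (Q.wt_pos v).le
    _ = b * ∑ v ∈ S, Q.wt v * log (max 1 (Q.V v y)) -
        ∑ v ∈ S, Q.wt v * log (Q.V v (A i₀)) := by
        rw [Finset.mul_sum, ← Finset.sum_sub_distrib]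
        refine Finset.sum_congr rfl fun v _ => ?_
        ring
    _ = b * ∑ v ∈ S, Q.wt v * log (max 1 (Q.V v y)) := by rw [h1, sub_zero]
    _ ≤ b * ∑ v ∈ Sy, Q.wt v * log (max 1 (Q.V v y)) := by
        refine mul_le_mul_of_nonneg_left ?_ (Nat.cast_nonneg _)
        have h2 : ∑ v ∈ S, Q.wt v * log (max 1 (Q.V v y)) =
            ∑ v ∈ S ∩ Sy, Q.wt v * log (max 1 (Q.V v y)) := by
          symm
          refine Finset.sum_subset Finset.inter_subset_left fun v hv hv' => ?_
          rw [hSy v fun h => hv' (Finset.mem_inter.2 ⟨hv, h⟩), mul_zero]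
        rw [h2]
        exact Finset.sum_le_sum_of_subset_of_nonneg Finset.inter_subset_right fun v _ _ =>
          mul_nonneg (Q.wt_pos v).le (hl0 v y)

/-- elements without poles are algebraic -/
theorem alg_of_le (Q : PF.{u, v, w} k K) (z : K) (h : ∀ v, Q.V v z ≤ 1) : IsAlgebraic k z := by
  classical
  by_cases hz : z = 0
  · rw [hz]; exact isAlgebraic_zero
  refine Q.const z hz fun v₁ => ?_
  obtain ⟨S, hS⟩ : ∃ S, S = insert v₁ ((Q.fin z hz).toFinset) := ⟨_, rfl⟩
  have h1 : ∑ v ∈ S, Q.wt v * log (Q.V v z) = 0 := Q.prod _ hz S fun v hv => by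
    by_contra hne
    exact hv (by rw [hS]; exact Finset.mem_insert_of_mem (by simpa using hne))
  have h2 : ∀ v ∈ S, Q.wt v * log (Q.V v z) ≤ 0 := fun v _ =>
    mul_nonpos_of_nonneg_of_nonpos (Q.wt_pos v).le
      (log_nonpos ((Q.V v).nonneg _) (h v))
  have h3 := (Finset.sum_eq_zero_iff_of_nonpos h2).1 h1 v₁ (by rw [hS]; simp)
  have h4 : log (Q.V v₁ z) = 0 := (mul_eq_zero.1 h3).resolve_left (Q.wt_pos v₁).ne'
  have h5 := Real.exp_log ((Q.V v₁).pos hz)
  rw [h4, Real.exp_zero] at h5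
  exact h5.symm

end ht

section growth

variable {E : Type*} [Field E] (V : AbsoluteValue E ℝ)

/-- the value of a polynomial with coefficients of value at most one and leading coefficient of
value one at a large point -/
theorem eval_large (hna : IsNonarchimedean V) (G : E[X]) (hc : ∀ i, V (G.coeff i) ≤ 1)
    (hl : V G.leadingCoeff = 1) (y : E) (hy : 1 < V y) (hG : 1 ≤ G.natDegree) :
    V (G.eval y) = V y ^ G.natDegree := by
  have h1 : G.eval y = G.leadingCoeff * y ^ G.natDegree +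
      ∑ i ∈ Finset.range G.natDegree, G.coeff i * y ^ i := by
    rw [Polynomial.eval_eq_sum_range, Finset.sum_range_succ]
    rw [add_comm]
    rfl
  have h2 : V (∑ i ∈ Finset.range G.natDegree, G.coeff i * y ^ i) ≤
      V y ^ (G.natDegree - 1) := by
    refine na_sum_le hna _ _ (by positivity) fun i hi => ?_
    rw [map_mul, map_pow]
    have h3 : V y ^ i ≤ V y ^ (G.natDegree - 1) :=
      pow_le_pow_right₀ hy.le (by have := Finset.mem_range.1 hi; omega)
    calc _ ≤ 1 * V y ^ (G.natDegree - 1) :=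
          mul_le_mul (hc i) h3 (by positivity) zero_le_one
      _ = _ := one_mul _
  have h3 : V (G.leadingCoeff * y ^ G.natDegree) = V y ^ G.natDegree := by
    rw [map_mul, map_pow, hl, one_mul]
  have h4 : V y ^ (G.natDegree - 1) < V y ^ G.natDegree :=
    pow_lt_pow_right₀ hy (by omega)
  rw [h1, ← h3]
  refine hna.add_eq_left_of_lt ?_
  rw [h3]
  exact lt_of_le_of_lt h2 h4

/-- growth of the orbits of a Hénon map -/
theorem growth (hna : IsNonarchimedean V) (G : E[X]) (hc : ∀ i, V (G.coeff i) ≤ 1)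
    (hl : V G.leadingCoeff = 1) (hG : 2 ≤ G.natDegree) (c : E) (hcc : V c ≤ 1)
    (y : ℕ → E) (hy : ∀ n, y (n + 2) = G.eval (y (n + 1)) - c * y n) (h1 : 1 < V (y 1))
    (h0 : V (y 0) ≤ V (y 1)) (R : ℝ) : ∃ n, R < V (y n) := by
  have key : ∀ n : ℕ, V (y 1) ^ (n + 1) ≤ V (y (n + 1)) ∧ V (y n) ≤ V (y (n + 1)) := by
    intro n
    induction n with
    | zero => exact ⟨by rw [zero_add, pow_one], h0⟩
    | succ n ih =>
      obtain ⟨i1, i2⟩ := ih
      have hgt : 1 < V (y (n + 1)) := lt_of_lt_of_le (one_lt_pow₀ h1 (by omega)) i1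
      have e1 : V (G.eval (y (n + 1))) = V (y (n + 1)) ^ G.natDegree :=
        eval_large V hna G hc hl _ hgt (by omega)
      have e2 : V (y (n + 1)) ^ 2 ≤ V (G.eval (y (n + 1))) := by
        rw [e1]
        exact pow_le_pow_right₀ hgt.le hG
      have e3 : V (c * y n) ≤ V (y (n + 1)) := by
        rw [map_mul]
        calc _ ≤ 1 * V (y (n + 1)) := mul_le_mul hcc i2 (V.nonneg _) zero_le_one
          _ = _ := one_mul _
      have e4 : V (y (n + 1)) < V (y (n + 1)) ^ 2 := by nlinarith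
      have e5 : V (y (n + 2)) = V (G.eval (y (n + 1))) := by
        rw [hy, sub_eq_add_neg]
        refine hna.add_eq_left_of_lt ?_
        rw [map_neg_eq_map]
        linarith
      have e6 : V (y (n + 1)) ^ 2 ≤ V (y (n + 1 + 1)) := by
        show V (y (n + 1)) ^ 2 ≤ V (y (n + 2))
        rw [e5]
        exact e2
      refine ⟨?_, by linarith⟩
      refine le_trans ?_ e6
      rw [pow_succ, sq]
      have h2 : V (y 1) ≤ V (y (n + 1)) := by
        refine le_trans ?_ i1
        calc V (y 1) = V (y 1) ^ 1 := (pow_one _).symm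
          _ ≤ _ := pow_le_pow_right₀ h1.le (by omega)
      exact mul_le_mul i1 h2 (V.nonneg _) (V.nonneg _)
  obtain ⟨n, hn⟩ := pow_unbounded_of_one_lt R h1
  refine ⟨n + 1, lt_of_lt_of_le hn ?_⟩
  refine le_trans ?_ (key n).1
  exact pow_le_pow_right₀ h1.le (by omega)

end growth

end Pool.Agent.R323.HN
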