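import Pool.Agent.R323.HN.A

/-!
# Hénon maps have no invariant curves
-/

set_option autoImplicit false

namespace Pool.Agent.R323.HN

open Pool.Agent.R323 Pool.Agent.TH450.FG Real Finset Polynomial

universe u v w

section rel

variable {k : Type v} {E : Type u} [Field k] [Field E] [Algebra k E]

/-- a relation of bounded degree with polynomial coefficients -/
theorem exists_rel (w : E) (S : Set E) (hS : S.Finite)
    (hSalg : ∀ s ∈ S, IsAlgebraic (IntermediateField.adjoin k {w}) s) :
    ∃ b : ℕ, ∀ z ∈ IntermediateField.adjoin k (insert w S), ∃ C : Fin (b + 1) → k[X],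
      (∃ e, aeval w (C e) ≠ 0) ∧ ∑ e, aeval w (C e) * z ^ (e : ℕ) = 0 := by
  classical
  set L := IntermediateField.adjoin k {w} with hL
  set M := IntermediateField.adjoin L S with hM
  have hfin : FiniteDimensional L M := by
    have : Finite S := hS.to_subtype
    exact IntermediateField.finiteDimensional_adjoin fun s hs => (hSalg s hs).isIntegral
  refine ⟨Module.finrank L M, fun z hz => ?_⟩
  have hzM : z ∈ M := by
    have h1 : IntermediateField.adjoin k (insert w S) = M.restrictScalars k := by
      rw [hM, hL, IntermediateField.adjoin_adjoin_left, Set.singleton_union]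
    rw [h1] at hz
    exact hz
  -- the minimal polynomial
  obtain ⟨g, hg0, hgd, hgz⟩ : ∃ g : L[X], g ≠ 0 ∧ g.natDegree ≤ Module.finrank L M ∧
      aeval z g = 0 := by
    refine ⟨minpoly L (⟨z, hzM⟩ : M), minpoly.ne_zero (IsIntegral.of_finite L _),
      minpoly.natDegree_le _, ?_⟩
    have h1 := minpoly.aeval L (⟨z, hzM⟩ : M)
    have h2 := congrArg (algebraMap M E) h1
    rw [map_zero, ← Polynomial.aeval_algebraMap_apply] at h2
    exact h2
  -- fractions
  have hfrac : ∀ c : L, ∃ p q : k[X], aeval w q ≠ 0 ∧ (c : E) * aeval w q = aeval w p := by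
    intro c
    obtain ⟨p, q, hpq⟩ := (IntermediateField.mem_adjoin_simple_iff k (c : E)).1 c.2
    by_cases hq : aeval w q = 0
    · refine ⟨0, 1, by simp, ?_⟩
      rw [hpq, hq]
      simp
    · refine ⟨p, q, hq, ?_⟩
      rw [hpq, div_mul_cancel₀ _ hq]
  choose p q hq hpq using hfrac
  let Q : k[X] := ∏ i ∈ Finset.range (g.natDegree + 1), q (g.coeff i)
  have hQ : aeval w Q ≠ 0 := by
    simp only [Q, map_prod]
    exact Finset.prod_ne_zero_iff.2 fun i _ => hq _
  have hC : ∀ e : ℕ, ∃ C : k[X], aeval w C = (g.coeff e : E) * aeval w Q := by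
    intro e
    by_cases he : e ∈ Finset.range (g.natDegree + 1)
    · refine ⟨p (g.coeff e) * ∏ i ∈ (Finset.range (g.natDegree + 1)).erase e, q (g.coeff i), ?_⟩
      simp only [Q]
      rw [map_mul, ← hpq, ← Finset.mul_prod_erase _ _ he, map_mul]
      ring
    · refine ⟨0, ?_⟩
      rw [Polynomial.coeff_eq_zero_of_natDegree_lt (by
        rw [Finset.mem_range] at he; omega)]
      simp
  choose C hC using hC
  refine ⟨fun e => C e, ⟨⟨g.natDegree, by omega⟩, ?_⟩, ?_⟩
  · show aeval w (C g.natDegree) ≠ 0
    rw [hC]
    refine mul_ne_zero ?_ hQ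
    have h1 : g.coeff g.natDegree ≠ 0 := Polynomial.leadingCoeff_ne_zero.2 hg0
    intro h2
    exact h1 (by exact_mod_cast h2)
  · have h1 : aeval w Q * aeval z g = 0 := by rw [hgz, mul_zero]
    have h2 : aeval z g = ∑ i ∈ Finset.range (Module.finrank L M + 1), g.coeff i • z ^ i :=
      Polynomial.aeval_eq_sum_range' (Nat.lt_succ_of_le hgd) z
    rw [← h1, h2, Finset.sum_range, Finset.mul_sum]
    refine Finset.sum_congr rfl fun e _ => ?_
    rw [hC, Algebra.smul_def]
    show (g.coeff e : E) * aeval w Q * z ^ (e : ℕ) = aeval w Q * ((g.coeff e : E) * z ^ (e : ℕ))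
    ring

end rel

section matroid

variable {k : Type v} {E : Type u} [Field k] [Field E] [Algebra k E]

/-- exchange -/
theorem exch {y u : E} (h : IsAlgebraic (IntermediateField.adjoin k {y}) u)
    (hu : Transcendental k u) : IsAlgebraic (IntermediateField.adjoin k {u}) y := by
  have h1 : u ∉ (Pool.Agent.Z864.UB.MM k E).closure ∅ := fun h2 =>
    hu (Pool.Agent.Z864.UB.mem_cl_empty.1 h2)
  have h2 : u ∈ (Pool.Agent.Z864.UB.MM k E).closure (insert y ∅) := by
    rw [insert_empty_eq]
    exact Pool.Agent.Z864.UB.mem_cl.2 h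
  have h3 := Matroid.mem_closure_insert h1 h2
  rw [insert_empty_eq] at h3
  exact Pool.Agent.Z864.UB.mem_cl.1 h3

/-- two dependent elements are algebraic over each transcendental element of their field -/
theorem dep_alg {x y u : E} (hdep : ¬ AlgebraicIndependent k ![x, y])
    (hu : Transcendental k u) (hmem : u ∈ IntermediateField.adjoin k {x, y}) :
    IsAlgebraic (IntermediateField.adjoin k {u}) x ∧
      IsAlgebraic (IntermediateField.adjoin k {u}) y := by
  set N := Pool.Agent.Z864.UB.MM k E with hN
  have hucl : u ∈ N.closure {x, y} := Pool.Agent.Z864.UB.mem_cl_of_adjoin hmem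
  -- a basis with at most one element
  have hone : ∃ t : E, x ∈ N.closure {t} ∧ y ∈ N.closure {t} := by
    by_cases hx : Transcendental k x
    · refine ⟨x, Pool.Agent.Z864.UB.sub_cl _ (Set.mem_singleton x), ?_⟩
      by_contra hy
      apply hdep
      have h1 : Transcendental (IntermediateField.adjoin k {x}) y := fun h =>
        hy (Pool.Agent.Z864.UB.mem_cl.2 h)
      have hI : N.Indep ({x} : Set E) := by
        rw [hN, AlgebraicIndependent.matroid_indep_iff]
        exact (algebraicIndependent_singleton_iff (⟨x, rfl⟩ : ({x} : Set E))).2 hx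
      have hI2 : N.Indep (insert y {x}) := by
        rw [hI.insert_indep_iff]
        exact Or.inl ⟨Set.mem_univ _, hy⟩
      rw [hN, AlgebraicIndependent.matroid_indep_iff] at hI2
      have hxy : x ≠ y := by
        intro h
        apply hy
        rw [← h]
        exact Pool.Agent.Z864.UB.sub_cl _ (Set.mem_singleton x)
      have hinj : Function.Injective ![x, y] := by
        intro a b hab
        fin_cases a <;> fin_cases b
        · rfl
        · exact absurd hab hxy
        · exact absurd hab.symm hxy
        · rfl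
      have hr : Set.range ![x, y] = insert y {x} := by
        ext t
        simp only [Set.mem_range, Set.mem_insert_iff, Set.mem_singleton_iff]
        constructor
        · rintro ⟨i, rfl⟩
          fin_cases i
          · right; rfl
          · left; rfl
        · rintro (rfl | rfl)
          · exact ⟨1, rfl⟩
          · exact ⟨0, rfl⟩
      have h2 : AlgebraicIndependent k ((↑) : Set.range ![x, y] → E) := by
        rw [hr]
        exact hI2
      have h3 := h2.comp (Set.rangeFactorization ![x, y]) (by
        intro a b hab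
        exact hinj (congrArg Subtype.val hab))
      exact h3
    · refine ⟨y, ?_, Pool.Agent.Z864.UB.sub_cl _ (Set.mem_singleton y)⟩
      have h1 : IsAlgebraic k x := by
        unfold Transcendental at hx
        exact not_not.1 hx
      have h2 : x ∈ N.closure ∅ := Pool.Agent.Z864.UB.mem_cl_empty.2 h1
      exact N.closure_subset_closure (Set.empty_subset _) h2
  obtain ⟨t, hxt, hyt⟩ := hone
  have hut : u ∈ N.closure {t} := by
    refine Pool.Agent.Z864.UB.cl_cl ?_ hucl
    rintro s (rfl | rfl)
    · exact hxt
    · exact hyt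
  have htu : t ∈ N.closure {u} :=
    Pool.Agent.Z864.UB.mem_cl.2 (exch (Pool.Agent.Z864.UB.mem_cl.1 hut) hu)
  have hle : N.closure {t} ⊆ N.closure {u} := by
    refine Pool.Agent.Z864.UB.cl_cl ?_
    rintro s rfl
    exact htu
  exact ⟨Pool.Agent.Z864.UB.mem_cl.1 (hle hxt), Pool.Agent.Z864.UB.mem_cl.1 (hle hyt)⟩

end matroid

end Pool.Agent.R323.HN
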