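import Pool.Agent.R323.HN.B

/-!
# Hénon maps have no invariant curves
-/

set_option autoImplicit false

namespace Pool.Agent.R323.HN

open Pool.Agent.R323 Pool.Agent.TH450.FG Real Finset Polynomial

universe u v w

section pfm

variable {k : Type v} {E : Type u} [Field k] [Field E] [Algebra k E]

theorem isAlg_of_rel (u y : E) {b : ℕ} (C : Fin (b + 1) → k[X]) (h1 : ∃ e, aeval u (C e) ≠ 0)
    (h2 : ∑ e, aeval u (C e) * y ^ (e : ℕ) = 0) :
    IsAlgebraic (IntermediateField.adjoin k {u}) y := by
  classical
  have hmem : ∀ p : k[X], aeval u p ∈ IntermediateField.adjoin k {u} := by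
    intro p
    exact IntermediateField.algebra_adjoin_le_adjoin k {u}
      (Polynomial.aeval_mem_adjoin_singleton (R := k) (p := p) u)
  let g : (IntermediateField.adjoin k {u})[X] :=
    ∑ e : Fin (b + 1), Polynomial.C ⟨aeval u (C e), hmem _⟩ * X ^ (e : ℕ)
  refine ⟨g, ?_, ?_⟩
  · obtain ⟨e, he⟩ := h1
    intro h0
    have h3 : g.coeff e = ⟨aeval u (C e), hmem _⟩ := by
      simp only [g]
      rw [Polynomial.finsetSum_coeff, Finset.sum_eq_single e]
      · rw [Polynomial.coeff_C_mul, Polynomial.coeff_X_pow, if_pos rfl, mul_one]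
      · intro e' _ hne
        rw [Polynomial.coeff_C_mul, Polynomial.coeff_X_pow, if_neg, mul_zero]
        intro h
        exact hne (Fin.ext h.symm)
      · intro h
        exact absurd (Finset.mem_univ _) h
    rw [h0, Polynomial.coeff_zero] at h3
    exact he (congrArg Subtype.val h3).symm
  · simp only [g]
    rw [map_sum, ← h2]
    refine Finset.sum_congr rfl fun e _ => ?_
    rw [map_mul, map_pow, Polynomial.aeval_X, Polynomial.aeval_C]
    rfl

/-- places of the field generated by finitely many elements -/
theorem exists_PFM (S : Set E) (hS : S.Finite) (u : E) (hu : Transcendental k u)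
    (huS : u ∈ IntermediateField.adjoin k S)
    (hSalg : ∀ s ∈ S, IsAlgebraic (IntermediateField.adjoin k {u}) s) :
    Nonempty (PF.{u, v, u} k (IntermediateField.adjoin k S)) := by
  classical
  set M := IntermediateField.adjoin k S with hM
  have hSM : ∀ s ∈ S, s ∈ M := fun s hs => IntermediateField.subset_adjoin _ _ hs
  let S' : Set M := {s | (s : E) ∈ S}
  have hS' : S'.Finite := hS.preimage (Subtype.val_injective.injOn)
  have htop : IntermediateField.adjoin k S' = ⊤ := by
    apply IntermediateField.lift_injective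
    rw [IntermediateField.lift_adjoin, IntermediateField.lift_top]
    conv_rhs => rw [hM]
    congr 1
    ext y
    constructor
    · rintro ⟨x, hx, rfl⟩
      exact hx
    · intro hy
      exact ⟨⟨y, hSM y hy⟩, hy, rfl⟩
  have hFG : (⊤ : IntermediateField k M).FG := by
    rw [← htop]
    exact IntermediateField.fg_adjoin_of_finite hS'
  refine exists_PF k M hFG ⟨⟨u, huS⟩, ?_, ?_⟩
  · intro h
    apply hu
    have h1 : IsAlgebraic k (algebraMap M E ⟨u, huS⟩) := h.algebraMap
    exact h1
  · obtain ⟨b, hb⟩ := exists_rel (k := k) u S hS hSalg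
    refine ⟨fun y => ?_⟩
    obtain ⟨C, h1, h2⟩ := hb (y : E)
      (IntermediateField.adjoin.mono _ _ _ (Set.subset_insert _ _) y.2)
    have hval : ∀ p : k[X], ((aeval (⟨u, huS⟩ : M) p : M) : E) = aeval u p := by
      intro p
      exact (Polynomial.aeval_algebraMap_apply E (⟨u, huS⟩ : M) p).symm
    refine isAlg_of_rel (⟨u, huS⟩ : M) y C ?_ ?_
    · obtain ⟨e, he⟩ := h1
      refine ⟨e, fun h0 => he ?_⟩
      rw [← hval, h0]
      rfl
    · have h3 : ((∑ e, aeval (⟨u, huS⟩ : M) (C e) * y ^ (e : ℕ) : M) : E) = 0 := by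
        rw [← h2]
        push_cast
        refine Finset.sum_congr rfl fun e _ => ?_
        rw [hval]
      exact_mod_cast h3

end pfm

section nc

variable {k : Type v} {E : Type u} [Field k] [CharZero k] [Field E] [Algebra k E]

/-- **Hénon maps have no invariant curves.** -/
theorem no_curve (σ : E ≃ₐ[k] E) (F : k[X]) (hd : 2 ≤ F.natDegree) (c : k) (hc : c ≠ 0)
    (x : ℤ → E) (hx : ∀ j, x (j + 2) = aeval (x (j + 1)) F - algebraMap k E c * x j)
    (m : ℕ) (hm : 0 < m) (hσ : ∀ j, σ (x j) = x (j + m))
    (hdep : ¬ AlgebraicIndependent k ![x 0, x 1]) (j : ℤ) : IsAlgebraic k (x j) := by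
  classical
  by_contra hj
  have hj' : Transcendental k (x j) := hj
  have hc' : algebraMap k E c ≠ 0 := by simpa using hc
  set M := IntermediateField.adjoin k {x 0, x 1} with hM
  -- backward recursion
  have hback : ∀ n, x n = algebraMap k E c⁻¹ * (aeval (x (n + 1)) F - x (n + 2)) := by
    intro n
    have h1 := hx n
    rw [h1, map_inv₀]
    field_simp
    ring
  have haev : ∀ y ∈ M, aeval y F ∈ M := by
    intro y hy
    have h1 := (aeval (⟨y, hy⟩ : M) F : M).2
    show aeval (algebraMap M E ⟨y, hy⟩) F ∈ M
    rw [Polynomial.aeval_algebraMap_apply E (⟨y, hy⟩ : M) F]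
    exact h1
  have hmem2 : ∀ n : ℤ, x n ∈ M ∧ x (n + 1) ∈ M := by
    intro n
    induction n using Int.induction_on with
    | zero => exact ⟨IntermediateField.subset_adjoin _ _ (Or.inl rfl),
        IntermediateField.subset_adjoin _ _ (Or.inr rfl)⟩
    | succ n ih =>
      refine ⟨ih.2, ?_⟩
      rw [show (n : ℤ) + 1 + 1 = (n : ℤ) + 2 by ring, hx]
      exact sub_mem (haev _ ih.2) (mul_mem (M.algebraMap_mem _) ih.1)
    | pred n ih =>
      refine ⟨?_, by rw [show -(n : ℤ) - 1 + 1 = -(n : ℤ) by ring]; exact ih.1⟩
      rw [hback]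
      rw [show -(n : ℤ) - 1 + 1 = -(n : ℤ) by ring, show -(n : ℤ) - 1 + 2 = -(n : ℤ) + 1 by ring]
      exact mul_mem (M.algebraMap_mem _) (sub_mem (haev _ ih.1) ih.2)
  have hmem : ∀ n, x n ∈ M := fun n => (hmem2 n).1
  have hS : ({x 0, x 1} : Set E).Finite := by simp
  have halg : ∀ n, Transcendental k (x n) → ∀ s ∈ ({x 0, x 1} : Set E),
      IsAlgebraic (IntermediateField.adjoin k {x n}) s := by
    intro n hn s hs
    have h1 := dep_alg hdep hn (hmem n)
    rcases hs with rfl | rfl
    · exact h1.1
    · exact h1.2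
  obtain ⟨Q⟩ := exists_PFM {x 0, x 1} hS (x j) hj' (hmem j) (halg j hj')
  let x' : ℤ → M := fun n => ⟨x n, hmem n⟩
  have hval : ∀ (y : M) (p : k[X]), ((aeval y p : M) : E) = aeval (y : E) p := by
    intro y p
    exact (Polynomial.aeval_algebraMap_apply E y p).symm
  have hx' : ∀ n, x' (n + 2) = aeval (x' (n + 1)) F - algebraMap k M c * x' n := by
    intro n
    apply Subtype.ext
    show x (n + 2) = ((aeval (x' (n + 1)) F : M) : E) - _
    rw [hval, hx]
    rfl
  have hback' : ∀ n, x' n = algebraMap k M c⁻¹ * (aeval (x' (n + 1)) F - x' (n + 2)) := by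
    intro n
    apply Subtype.ext
    show x n = _ * (((aeval (x' (n + 1)) F : M) : E) - _)
    rw [hval, hback]
    rfl
  -- iterates of the automorphism
  have hσl : ∀ l : ℕ, ∀ n, (σ ^ l) (x n) = x (n + m * l) := by
    intro l
    induction l with
    | zero => intro n; simp
    | succ l ih =>
      intro n
      rw [pow_succ, AlgEquiv.mul_apply, hσ, ih]
      congr 1
      push_cast
      ring
  have hσz : ∀ l : ℤ, ∀ n, (σ ^ l) (x n) = x (n + m * l) := by
    intro l n
    cases l with
    | ofNat l => exact hσl l n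
    | negSucc l =>
      rw [zpow_negSucc]
      have h1 := hσl (l + 1) (n + m * Int.negSucc l)
      have h2 : n + (m : ℤ) * Int.negSucc l + m * ((l + 1 : ℕ) : ℤ) = n := by
        rw [Int.negSucc_eq]
        push_cast
        ring
      rw [h2] at h1
      rw [← h1]
      exact AlgEquiv.symm_apply_apply (σ ^ (l + 1)) _
  -- bounds
  have hrel : ∀ i : ℕ, ∃ b : ℕ, Transcendental k (x i) → ∀ z ∈ M, ∃ C : Fin (b + 1) → k[X],
      (∃ e, aeval (x i) (C e) ≠ 0) ∧ ∑ e, aeval (x i) (C e) * z ^ (e : ℕ) = 0 := by
    intro i
    by_cases hi : Transcendental k (x i)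
    · obtain ⟨b, hb⟩ := exists_rel (k := k) (x i) {x 0, x 1} hS (halg i hi)
      refine ⟨b, fun _ z hz => hb z ?_⟩
      exact IntermediateField.adjoin.mono _ _ _ (Set.subset_insert _ _) hz
    · exact ⟨0, fun h => absurd h hi⟩
  choose b hb using hrel
  have hB := fun i : ℕ => loc_le Q (x' j) (b i)
  choose B hB0 hB using hB
  have hbd : ∀ (n : ℤ) v, Q.wt v * log (max 1 (Q.V v (x' n))) ≤ ∑ i ∈ Finset.range m, B i := by
    intro n v
    obtain ⟨i, hi, l, hl⟩ : ∃ i : ℕ, i < m ∧ ∃ l : ℤ, n = i + m * l := by
      refine ⟨(n % m).toNat, ?_, n / m, ?_⟩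
      · have := Int.emod_lt_of_pos n (by exact_mod_cast hm : (0 : ℤ) < m)
        have h0 := Int.emod_nonneg n (by exact_mod_cast hm.ne' : (m : ℤ) ≠ 0)
        omega
      · have h0 := Int.emod_nonneg n (by exact_mod_cast hm.ne' : (m : ℤ) ≠ 0)
        rw [Int.toNat_of_nonneg h0]
        exact (Int.emod_add_mul_ediv n m).symm
    have hle : B i ≤ ∑ i ∈ Finset.range m, B i :=
      Finset.single_le_sum (f := B) (fun i _ => hB0 i) (Finset.mem_range.2 hi)
    have hn : (σ ^ l) (x i) = x n := by rw [hσz, hl]
    by_cases hti : Transcendental k (x i)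
    · refine le_trans ?_ hle
      obtain ⟨C, h1, h2⟩ := hb i hti (x (j - m * l)) (hmem _)
      have hz : (σ ^ l) (x (j - m * l)) = x j := by
        rw [hσz]
        congr 1
        ring
      have hae : ∀ p : k[X], (σ ^ l) (aeval (x i) p) = aeval (x n) p := by
        intro p
        rw [← hn]
        exact (Polynomial.aeval_algHom_apply ((σ ^ l : E ≃ₐ[k] E) : E →ₐ[k] E) (x i) p).symm
      have h3 : ∑ e, aeval (x n) (C e) * x j ^ (e : ℕ) = 0 := by
        have h4 := congrArg (σ ^ l) h2
        rw [map_sum, map_zero] at h4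
        rw [← h4]
        refine Finset.sum_congr rfl fun e _ => ?_
        rw [map_mul, map_pow, hae, hz]
      obtain ⟨e₀, he₀⟩ := h1
      have hC0 : C e₀ ≠ 0 := by
        rintro h0
        rw [h0, map_zero] at he₀
        exact he₀ rfl
      -- rearrangement
      set a := ∑ e, (C e).natDegree with ha
      have hdeg : ∀ e, (C e).natDegree < a + 1 := by
        intro e
        have := Finset.single_le_sum (f := fun e => (C e).natDegree)
          (fun _ _ => Nat.zero_le _) (Finset.mem_univ e)
        omega
      refine hB i a (x' n) (fun i' => ∑ e, algebraMap k M ((C e).coeff i') * x' j ^ (e : ℕ))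
        ?_ ?_ ?_ v
      · have hl0 : (C e₀).coeff (C e₀).natDegree ≠ 0 := Polynomial.leadingCoeff_ne_zero.2 hC0
        refine ⟨⟨(C e₀).natDegree, hdeg e₀⟩, fun h0 => ?_⟩
        apply hj
        let g : k[X] := ∑ e : Fin (b i + 1), Polynomial.C ((C e).coeff (C e₀).natDegree) *
          X ^ (e : ℕ)
        refine ⟨g, ?_, ?_⟩
        · intro hg
          apply hl0
          have h5 : g.coeff e₀ = (C e₀).coeff (C e₀).natDegree := by
            simp only [g]
            rw [Polynomial.finsetSum_coeff, Finset.sum_eq_single e₀]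
            · rw [Polynomial.coeff_C_mul, Polynomial.coeff_X_pow, if_pos rfl, mul_one]
            · intro e' _ hne
              rw [Polynomial.coeff_C_mul, Polynomial.coeff_X_pow, if_neg, mul_zero]
              intro h
              exact hne (Fin.ext h.symm)
            · intro h
              exact absurd (Finset.mem_univ _) h
          rw [← h5, hg, Polynomial.coeff_zero]
        · have h6 := congrArg Subtype.val h0
          simp only [g]
          rw [map_sum]
          push_cast at h6
          refine Eq.trans ?_ h6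
          refine Finset.sum_congr rfl fun e _ => ?_
          rw [map_mul, map_pow, Polynomial.aeval_X, Polynomial.aeval_C]
          try rfl
      · apply Subtype.ext
        push_cast
        refine Eq.trans ?_ h3
        simp_rw [Finset.sum_mul]
        rw [Finset.sum_comm]
        refine Finset.sum_congr rfl fun e _ => ?_
        rw [Polynomial.aeval_eq_sum_range' (hdeg e), Finset.sum_range, Finset.sum_mul]
        refine Finset.sum_congr rfl fun i' _ => ?_
        rw [Algebra.smul_def]
        show algebraMap k E _ * x j ^ (e : ℕ) * x n ^ (i' : ℕ) = _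
        ring
      · intro v i'
        have hM1 : (1 : ℝ) ≤ max 1 (Q.V v (x' j)) := le_max_left _ _
        refine na_sum_le (Q.na v) _ _ (by positivity) fun e _ => ?_
        have ht : ∀ z : k, Q.V v (algebraMap k M z) ≤ 1 := by
          intro z
          by_cases hz : z = 0
          · rw [hz]; simp
          · exact (Q.triv v z hz).le
        rw [map_mul, map_pow]
        calc _ ≤ 1 * (max 1 (Q.V v (x' j))) ^ (e : ℕ) :=
              mul_le_mul (ht _) (pow_le_pow_left₀ ((Q.V v).nonneg _) (le_max_right _ _) _)
                (pow_nonneg ((Q.V v).nonneg _) _) zero_le_one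
          _ = (max 1 (Q.V v (x' j))) ^ (e : ℕ) := one_mul _
          _ ≤ _ := pow_le_pow_right₀ hM1 (by have := e.2; omega)
    · have h1 : IsAlgebraic k (x i) := not_not.1 hti
      have h2 : IsAlgebraic k (x n) := by
        rw [← hn]
        exact h1.algHom ((σ ^ l : E ≃ₐ[k] E) : E →ₐ[k] E)
      have h3 : Q.V v (x' n) ≤ 1 := by
        have h4 : IsAlgebraic k (x' n) :=
          (isAlgebraic_algebraMap_iff (algebraMap M E).injective).1 h2
        obtain ⟨p, hp0, hp⟩ := h4
        by_contra hgt
        push Not at hgt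
        have hn0 : p.natDegree ≠ 0 := by
          intro h0
          rw [Polynomial.eq_C_of_natDegree_eq_zero h0, Polynomial.aeval_C] at hp
          apply hp0
          rw [Polynomial.eq_C_of_natDegree_eq_zero h0]
          have : p.coeff 0 = 0 := by simpa using hp
          rw [this, Polynomial.C_0]
        have h5 := eval_large (Q.V v) (Q.na v) (p.map (algebraMap k M)) (fun i => by
            rw [Polynomial.coeff_map]
            by_cases hz : p.coeff i = 0
            · rw [hz]; simp
            · exact (Q.triv v _ hz).le) (by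
            rw [Polynomial.leadingCoeff_map]
            exact Q.triv v _ (Polynomial.leadingCoeff_ne_zero.2 hp0)) (x' n) hgt (by
            rw [Polynomial.natDegree_map]; omega)
        rw [Polynomial.eval_map_algebraMap, hp, map_zero] at h5
        have : (0 : ℝ) < Q.V v (x' n) ^ (p.map (algebraMap k M)).natDegree := by positivity
        linarith
      rw [max_eq_left h3, log_one, mul_zero]
      exact Finset.sum_nonneg fun i _ => hB0 i
  -- no poles
  have hle : ∀ v n, Q.V v (x' n) ≤ 1 := by
    intro v n
    by_contra hgt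
    push Not at hgt
    obtain ⟨R, hR⟩ : ∃ R : ℝ, ∀ n, Q.V v (x' n) ≤ R := by
      refine ⟨Real.exp ((∑ i ∈ Finset.range m, B i) / Q.wt v), fun n => ?_⟩
      have h1 := hbd n v
      have h2 : log (max 1 (Q.V v (x' n))) ≤ (∑ i ∈ Finset.range m, B i) / Q.wt v := by
        rw [le_div_iff₀ (Q.wt_pos v)]
        linarith
      have h3 : (0 : ℝ) < max 1 (Q.V v (x' n)) := lt_of_lt_of_le one_pos (le_max_left _ _)
      calc Q.V v (x' n) ≤ max 1 (Q.V v (x' n)) := le_max_right _ _
        _ = Real.exp (log (max 1 (Q.V v (x' n)))) := (Real.exp_log h3).symm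
        _ ≤ _ := Real.exp_le_exp.2 h2
    have htr : ∀ z : k, Q.V v (algebraMap k M z) ≤ 1 := by
      intro z
      by_cases hz : z = 0
      · rw [hz]; simp
      · exact (Q.triv v z hz).le
    have hF0 : F ≠ 0 := by
      rintro rfl
      simp at hd
    by_cases hcase : Q.V v (x' n) ≤ Q.V v (x' (n + 1))
    · obtain ⟨i, hi⟩ := growth (Q.V v) (Q.na v) (F.map (algebraMap k M))
        (fun i => by rw [Polynomial.coeff_map]; exact htr _)
        (by rw [Polynomial.leadingCoeff_map]
            exact Q.triv v _ (Polynomial.leadingCoeff_ne_zero.2 hF0))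
        (by rw [Polynomial.natDegree_map]; exact hd) (algebraMap k M c) (htr c)
        (fun i => x' (n + i)) (fun i => by
          have h1 := hx' (n + i)
          rw [Polynomial.eval_map_algebraMap]
          push_cast
          rw [← add_assoc, ← add_assoc]
          exact h1) (by
          show 1 < Q.V v (x' (n + ((1 : ℕ) : ℤ)))
          push_cast
          linarith) (by
          show Q.V v (x' (n + ((0 : ℕ) : ℤ))) ≤ Q.V v (x' (n + ((1 : ℕ) : ℤ)))
          push_cast
          rw [add_zero]
          exact hcase) R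
      exact absurd (hR _) (not_le.2 hi)
    · push Not at hcase
      have hcinv : c⁻¹ ≠ 0 := inv_ne_zero hc
      obtain ⟨i, hi⟩ := growth (Q.V v) (Q.na v)
        ((Polynomial.C c⁻¹ * F).map (algebraMap k M))
        (fun i => by rw [Polynomial.coeff_map]; exact htr _)
        (by rw [Polynomial.leadingCoeff_map]
            exact Q.triv v _ (Polynomial.leadingCoeff_ne_zero.2
              (mul_ne_zero (Polynomial.C_ne_zero.2 hcinv) hF0)))
        (by rw [Polynomial.natDegree_map, Polynomial.natDegree_C_mul hcinv]; exact hd)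
        (algebraMap k M c⁻¹) (htr _)
        (fun i => x' (n + 1 - i)) (fun i => by
          have h1 := hback' (n + 1 - ((i + 2 : ℕ) : ℤ))
          rw [Polynomial.eval_map_algebraMap, map_mul, Polynomial.aeval_C]
          have e1 : n + 1 - ((i + 2 : ℕ) : ℤ) + 1 = n + 1 - ((i + 1 : ℕ) : ℤ) := by
            push_cast
            ring
          have e2 : n + 1 - ((i + 2 : ℕ) : ℤ) + 2 = n + 1 - (i : ℤ) := by
            push_cast
            ring
          rw [e1, e2] at h1
          show x' (n + 1 - ((i + 2 : ℕ) : ℤ)) = _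
          rw [h1]
          ring) (by
          show 1 < Q.V v (x' (n + 1 - ((1 : ℕ) : ℤ)))
          push_cast
          rw [add_sub_cancel_right]
          exact hgt) (by
          show Q.V v (x' (n + 1 - ((0 : ℕ) : ℤ))) ≤ Q.V v (x' (n + 1 - ((1 : ℕ) : ℤ)))
          push_cast
          rw [add_sub_cancel_right, sub_zero]
          exact hcase.le) R
      exact absurd (hR _) (not_le.2 hi)
  apply hj
  have h1 := alg_of_le Q (x' j) fun v => hle v j
  exact h1.algebraMap

end nc

end Pool.Agent.R323.HN
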