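import Pool.Agent.R323.HN.X2
import Pool.Agent.R323.NF.C

/-!
# The core theorem for Hénon maps
-/

set_option autoImplicit false

namespace Pool.Agent.R323.HN

open Filter MvPolynomial Pool.Agent.Y902.GN Pool.Agent.R323

/-- a Hénon map and two consecutive values in fractions -/
structure HD (R : Type*) (d : ℕ) where
  A : Fin (d + 1) → R
  D : R
  Q : R
  p : Fin 2 → R
  q : Fin 2 → R

namespace HD

variable {R S : Type*} [CommRing R] [CommRing S] {d : ℕ}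

/-- the orbit -/
def W (g : HD R d) (n : ℤ) : Fin 2 → R := Wz g.A g.D g.Q g.p g.q n

/-- change of the ring -/
def mp (g : HD R d) (φ : R →+* S) : HD S d :=
  ⟨fun i => φ (g.A i), φ g.D, φ g.Q, fun i => φ (g.p i), fun i => φ (g.q i)⟩

theorem W_mp (g : HD R d) (φ : R →+* S) (n : ℤ) : (g.mp φ).W n = fun i => φ (g.W n i) :=
  (Wz_map φ g.A g.D g.Q g.p g.q n).symm

/-- nondegeneracy -/
structure Ok (g : HD R d) : Prop where
  A : g.A (Fin.last d) ≠ 0
  D : g.D ≠ 0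
  Q : g.Q ≠ 0
  p : g.p 1 ≠ 0
  q : g.q 1 ≠ 0

/-- the values -/
def z {L : Type*} [Field L] (g : HD L d) (n : ℤ) : L := g.W n 0 / g.W n 1

theorem Ok.W {L : Type*} [Field L] {g : HD L d} (h : g.Ok) (n : ℤ) : g.W n 1 ≠ 0 :=
  Wz_ne h.D h.Q h.p h.q n

end HD

section

variable {Y : ℕ → ℕ} {N e : ℕ} {Om : ℕ → Finset (Fin N → ℤ)} {th : ℕ → (Fin N → ℤ) → Qb}

/-- the evaluation -/
noncomputable def evq (t : Fin N → ℤ) (θ : Qb) : MvPolynomial (Option (Fin N)) ℤ →+* Qb :=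
  (aeval (pq t θ) : MvPolynomial (Option (Fin N)) ℤ →ₐ[ℤ] Qb).toRingHom

/-- **The core theorem for Hénon maps.** -/
theorem coreH {d : ℕ} (hd : 2 ≤ d) (hY : ∀ m : ℕ, ∀ᶠ ν in (Uf : Filter ℕ), m ≤ Y ν)
    {Om₀ : ℕ → Finset (Fin N → ℤ)} (hbig : Big Y Om₀) (hb₀ : Bd Y Om₀) {μ : Fin (e + 1) → Fin N}
    (hTH₀ : TH Om₀ th μ) (g : HD (MvPolynomial (Option (Fin N)) ℤ) d)
    (hOk₀ : ∀ᶠ ν in (Uf : Filter ℕ), ∀ t ∈ Om₀ ν, (g.mp (evq t (th ν t))).Ok)
    (hlong₀ : ∀ L : ℕ, ∀ᶠ ν in (Uf : Filter ℕ), ∀ t ∈ Om₀ ν, ∀ i j : ℤ, |i| ≤ L → |j| ≤ L →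
      (g.mp (evq t (th ν t))).z i = (g.mp (evq t (th ν t))).z j →
      (g.mp (evq t (th ν t))).z (i + 1) = (g.mp (evq t (th ν t))).z (j + 1) → i = j)
    (horb₀ : ∀ k : ℤ, ∀ᶠ ν in (Uf : Filter ℕ), ∀ t ∈ Om₀ ν,
      Co (Y ν) (e := e) (th ν t) ((g.mp (evq t (th ν t))).W k)) (M : ℕ) :
    ∃ i j : ℤ, ∀ᶠ ν in (Uf : Filter ℕ), ∃ t ∈ Om₀ ν, ∃ t' ∈ Om₀ ν, t ≠ t' ∧
      (g.mp (evq t (th ν t))).z j ≠ (g.mp (evq t (th ν t))).z i ∧
      (g.mp (evq t' (th ν t'))).z j ≠ (g.mp (evq t' (th ν t'))).z i ∧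
      ∀ n : ℕ, n < M → ((g.mp (evq t (th ν t))).z n - (g.mp (evq t (th ν t))).z i) /
          ((g.mp (evq t (th ν t))).z j - (g.mp (evq t (th ν t))).z i) =
        ((g.mp (evq t' (th ν t'))).z n - (g.mp (evq t' (th ν t'))).z i) /
          ((g.mp (evq t' (th ν t'))).z j - (g.mp (evq t' (th ν t'))).z i) := by
  classical
  obtain ⟨Om, hsub, hG⟩ := Gen.ex hbig
  obtain ⟨F⟩ := FF.ex Pool.Agent.Y394.GN.t hY hG
  have hT := hTH₀.mono hsub
  have hprime := hT.isPrime hY hG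
  have hb : Bd Y Om := by
    filter_upwards [hb₀, hsub] with ν h1 h2 t ht
    exact h1 t (h2 ht)
  have hOk : ∀ᶠ ν in (Uf : Filter ℕ), ∀ t ∈ Om ν, (g.mp (evq t (th ν t))).Ok := by
    filter_upwards [hOk₀, hsub] with ν h1 h2 t ht
    exact h1 t (h2 ht)
  have hlong : ∀ L : ℕ, ∀ᶠ ν in (Uf : Filter ℕ), ∀ t ∈ Om ν, ∀ i j : ℤ, |i| ≤ L → |j| ≤ L →
      (g.mp (evq t (th ν t))).z i = (g.mp (evq t (th ν t))).z j →
      (g.mp (evq t (th ν t))).z (i + 1) = (g.mp (evq t (th ν t))).z (j + 1) → i = j := by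
    intro L
    filter_upwards [hlong₀ L, hsub] with ν h1 h2 t ht
    exact h1 t (h2 ht)
  have horb : ∀ k : ℤ, ∀ᶠ ν in (Uf : Filter ℕ), ∀ t ∈ Om ν,
      Co (Y ν) (e := e) (th ν t) ((g.mp (evq t (th ν t))).W k) := by
    intro k
    filter_upwards [horb₀ k, hsub] with ν h1 h2 t ht
    exact h1 t (h2 ht)
  obtain ⟨D, hD⟩ := relation hY hG F hb
  -- the generic objects
  let φ : MvPolynomial (Option (Fin N)) ℤ →+* MvPolynomial (Option (Fin N)) (OO Y) :=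
    MvPolynomial.map (Int.castRingHom (OO Y))
  have hW : ∀ (t : Fin N → ℤ) (θ : Qb) n i, (g.mp (evq t θ)).W n i = aeval (pq t θ) (g.W n i) := fun t θ n i =>
    congrFun (HD.W_mp g (evq t θ) n) i
  have hφW : ∀ n, (g.mp φ).W n = fun i => φ (g.W n i) := fun n => HD.W_mp g φ n
  have hwgφ : ∀ m n, wg ((g.mp φ).W m) ((g.mp φ).W n) = φ (wg (g.W m) (g.W n)) := by
    intro m n
    rw [hφW, hφW, wg_map]
  have hwge : ∀ (t : Fin N → ℤ) (θ : Qb) m n, aeval (pq t θ) (wg (g.W m) (g.W n)) =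
      wg ((g.mp (evq t θ)).W m) ((g.mp (evq t θ)).W n) := by
    intro t θ m n
    rw [HD.W_mp, HD.W_mp]
    exact wg_map (evq t θ) _ _
  have hzz : ∀ (t : Fin N → ℤ) (θ : Qb), (g.mp (evq t θ)).Ok → ∀ m n, ((g.mp (evq t θ)).z m = (g.mp (evq t θ)).z n ↔
      aeval (pq t θ) (wg (g.W m) (g.W n)) = 0) := by
    intro t θ h m n
    rw [hwge]
    exact eq_iff_wg (h.W m) (h.W n)
  have hnot : ∀ P : MvPolynomial (Option (Fin N)) ℤ, (∀ (t : Fin N → ℤ) (θ : Qb), (g.mp (evq t θ)).Ok →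
      aeval (pq t θ) P ≠ 0) → φ P ∉ JT Y Om th := by
    intro P hP
    refine notMem_int' hG.1 _ ?_
    filter_upwards [hOk] with ν h1 t ht
    exact hP _ _ (h1 t ht)
  have hwne : ∀ m n : ℤ, m ≠ n → ¬ (φ (wg (g.W m) (g.W n)) ∈ JT Y Om th ∧
      φ (wg (g.W (m + 1)) (g.W (n + 1))) ∈ JT Y Om th) := by
    rintro m n hmn ⟨h1, h2⟩
    rw [mem_JT (Re_int _)] at h1 h2
    obtain ⟨ν, h3, h4, h5, h6, t, ht⟩ := (h1.and (h2.and ((hlong (m.natAbs + n.natAbs)).and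
      (hOk.and hG.1.nonempty)))).exists
    refine hmn (h5 t ht m n ?_ ?_ ?_ ?_)
    · push_cast
      have := abs_nonneg n
      linarith
    · push_cast
      have := abs_nonneg m
      linarith
    · rw [hzz _ _ (h6 t ht)]
      exact h3 t ht
    · rw [hzz _ _ (h6 t ht)]
      exact h4 t ht
  obtain ⟨i, j, hij⟩ : ∃ i j : ℤ, φ (wg (g.W j) (g.W i)) ∉ JT Y Om th := by
    by_contra hcon
    push Not at hcon
    exact hwne 0 1 (by norm_num) ⟨hcon _ _, hcon _ _⟩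
  refine ⟨i, j, ?_⟩
  have hFpos := FF_pos hY hG F hb
  have hgen : ∀ n : Fin M, ∃ p : Polynomial (OO Y), p ≠ 0 ∧
      he (p.map C) p.natDegree
        ![φ (wg (g.W (n : ℕ)) (g.W i) * (g.W j 1 * g.W i 1)),
          φ (wg (g.W j) (g.W i) * (g.W (n : ℕ) 1 * g.W i 1))] ∈ JT Y Om th := by
    intro n
    have h := gen_algH (JT Y Om th) hprime (fun c hc h => by
        have h1 : rename some (C c : MvPolynomial (Fin N) (OO Y)) ∈ JT Y Om th := by
          rw [rename_C]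
          exact h
        rw [ren_JT] at h1
        exact C_notMem hG.1 hc h1) hFpos F.ι F.A F.H F.B₀ F.B
      (fun P hP => F.ind P (ren_JT.1 hP)) (ren_JT.2 F.H0) (fun h => F.HT (ren_JT.1 h)) F.B00
      (fun i => ren_JT.2 (F.BX i)) μ hT.mpl_mem hd (g.mp φ).A (g.mp φ).D (g.mp φ).Q
      (g.mp φ).p (g.mp φ).q
      (hnot _ fun t θ h => h.A) (hnot _ fun t θ h => h.D) (hnot _ fun t θ h => h.Q)
      (hnot _ fun t θ h => h.p) (hnot _ fun t θ h => h.q)
      (by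
        intro m n hmn h
        have h1 := hwgφ m n
        have h2 := hwgφ (m + 1) (n + 1)
        apply hwne m n hmn
        rw [← h1, ← h2]
        exact h) D
      (by
        intro n
        have e0 : Wz (g.mp φ).A (g.mp φ).D (g.mp φ).Q (g.mp φ).p (g.mp φ).q n 0 = φ (g.W n 0) :=
          congrFun (hφW n) 0
        have e1 : Wz (g.mp φ).A (g.mp φ).D (g.mp φ).Q (g.mp φ).p (g.mp φ).q n 1 = φ (g.W n 1) :=
          congrFun (hφW n) 1
        rw [e0, e1]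
        have hn1 : φ (g.W n 1) ∉ JT Y Om th := hnot _ fun t θ h => by
          rw [← hW]
          exact h.W n
        obtain ⟨V, U, hV, hVU⟩ := exists_coord μ (JT Y Om th) hprime hT.mpl_mem
          (φ (g.W n 0)) (φ (g.W n 1)) hn1
        refine ⟨V, U, hV, hVU, fun l => ?_⟩
        have hV' : V ∉ JI Y Om := fun h => hV (ren_JT.2 h)
        obtain ⟨c, hc0, hc⟩ := hD (U l) V hV' (lt_of_co hY hT (g.W n) (by
          filter_upwards [horb n, hOk] with ν h1 h2 t ht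
          have h3 : (fun i => aeval (pq t (th ν t)) (g.W n i)) = (g.mp (evq t (th ν t))).W n :=
            (HD.W_mp g (evq t (th ν t)) n).symm
          rw [h3]
          refine ⟨?_, h1 t ht⟩
          intro h0
          exact (h2 t ht).W n (congrFun h0 1)) hVU l)
        exact ⟨c, hc0, ren_JT.2 hc⟩)
      (n : ℕ) i j i (by
        have h1 := hwgφ j i
        intro h
        apply hij
        rw [← h1]
        exact h)
    obtain ⟨p, hp0, hp⟩ := h
    refine ⟨p, hp0, ?_⟩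
    have e1 := hwgφ (n : ℕ) i
    have e2 := hwgφ j i
    have e3 : ∀ n, (g.mp φ).W n 1 = φ (g.W n 1) := fun n => congrFun (hφW n) 1
    rw [map_mul, map_mul, map_mul, map_mul, ← e1, ← e2, ← e3, ← e3, ← e3]
    exact hp
  choose p hp0 hp using hgen
  obtain ⟨m, hm⟩ : ∃ m, m = ∑ i, (p i).natDegree := ⟨_, rfl⟩
  -- the large subset
  let Om1 : ℕ → Finset (Fin N → ℤ) := fun ν => (Om ν).filter fun t =>
    aeval (pq t (th ν t)) (wg (g.W j) (g.W i)) ≠ 0
  have hOm1 : Big Y Om1 := by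
    rcases hG.1.or hY (B := Om1) (C := fun ν => (Om ν).filter fun t =>
      aeval (pq t (th ν t)) (wg (g.W j) (g.W i)) = 0) (Filter.Eventually.of_forall fun ν t ht => by
        rw [Finset.mem_union, Finset.mem_filter, Finset.mem_filter]
        by_cases h : aeval (pq t (th ν t)) (wg (g.W j) (g.W i)) = 0
        · exact Or.inr ⟨ht, h⟩
        · exact Or.inl ⟨ht, h⟩) with h | h
    · exact h
    · exfalso
      exact hT.notBig hG (Re_int _) hij (Filter.Eventually.of_forall fun ν =>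
        Finset.filter_subset _ _) (Filter.Eventually.of_forall fun ν t ht =>
          (Finset.mem_filter.1 ht).2) h
  have hR : ∀ n : Fin M, ∀ᶠ ν in (Uf : Filter ℕ), ∃ R : Finset Qb, R.card ≤ m ∧
      ∀ t ∈ Om1 ν, ((g.mp (evq t (th ν t))).z (n : ℕ) - (g.mp (evq t (th ν t))).z i) /
          ((g.mp (evq t (th ν t))).z j - (g.mp (evq t (th ν t))).z i) ∈ R := by
    intro n
    have h1 := few_vals' (hp0 n) le_rfl (hp n)
    filter_upwards [h1, hOk] with ν h2 h3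
    obtain ⟨R, hR1, hR2⟩ := h2
    refine ⟨R, hR1.trans ?_, fun t ht => ?_⟩
    · rw [hm]
      exact Finset.single_le_sum (f := fun i => (p i).natDegree) (fun _ _ => Nat.zero_le _)
        (Finset.mem_univ n)
    · have ht' := Finset.mem_filter.1 ht
      have hok := h3 t ht'.1
      have h4 := hR2 t ht'.1 (by
        rw [map_mul, map_mul, ← hW, ← hW]
        exact mul_ne_zero ht'.2 (mul_ne_zero (hok.W _) (hok.W _)))
      rw [map_mul, map_mul, map_mul, map_mul, hwge, hwge, ← hW, ← hW, ← hW] at h4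
      have h5 := ratio_eq (hok.W (n : ℕ)) (hok.W i) (hok.W j) (hok.W i)
      rw [← h5] at h4
      exact h4
  filter_upwards [two_points' hY hOm1 (fun (n : Fin M) ν t =>
    ((g.mp (evq t (th ν t))).z (n : ℕ) - (g.mp (evq t (th ν t))).z i) /
          ((g.mp (evq t (th ν t))).z j - (g.mp (evq t (th ν t))).z i)) m hR, hOk, hsub]
    with ν h1 h3 h5
  obtain ⟨t, ht, t', ht', hne, hall⟩ := h1
  have ht1 := Finset.mem_filter.1 ht
  have ht1' := Finset.mem_filter.1 ht'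
  refine ⟨t, h5 ht1.1, t', h5 ht1'.1, hne, ?_, ?_, fun n hn => hall ⟨n, hn⟩⟩
  · intro h
    exact ht1.2 ((hzz _ _ (h3 t ht1.1) _ _).1 h)
  · intro h
    exact ht1'.2 ((hzz _ _ (h3 t' ht1'.1) _ _).1 h)

end

end Pool.Agent.R323.HN
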