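import Pool.Agent.R323.HN.C
import Pool.Agent.W277.UB.Fin

/-!
# The area form of a Hénon map
-/

set_option autoImplicit false

namespace Pool.Agent.R323.HN

open Pool.Agent.R323 Pool.Agent.TH450.FG Real Finset Polynomial

universe u v w

section der

variable {k : Type v} {E : Type u} [Field k] [CharZero k] [Field E] [Algebra k E]

/-- a derivation which kills the second of two independent elements, but not the first -/
theorem exists_der (S : Set E) (hS : S.Finite) (htop : IntermediateField.adjoin k S = ⊤) (x y : E)
    (hind : AlgebraicIndependent k ![x, y]) : ∃ D : Derivation k E E, D x ≠ 0 ∧ D y = 0 := by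
  classical
  set N := Pool.Agent.Z864.UB.MM k E with hN
  have hxy : x ≠ y := by
    intro h
    have := hind.injective (a₁ := 0) (a₂ := 1) (by simpa using h)
    exact absurd this (by decide)
  have hI : N.Indep ({x, y} : Set E) := by
    rw [hN, AlgebraicIndependent.matroid_indep_iff]
    have h1 := hind.coe_range
    have hr : Set.range ![x, y] = {x, y} := by
      ext t
      simp only [Set.mem_range, Set.mem_insert_iff, Set.mem_singleton_iff]
      constructor
      · rintro ⟨i, rfl⟩
        fin_cases i
        · left; rfl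
        · right; rfl
      · rintro (rfl | rfl)
        · exact ⟨0, rfl⟩
        · exact ⟨1, rfl⟩
    rw [hr] at h1
    exact h1
  obtain ⟨B, hB, hsub⟩ := hI.exists_isBase_superset
  have hBI : AlgebraicIndependent k ((↑) : B → E) :=
    AlgebraicIndependent.matroid_indep_iff.1 hB.indep
  have hxB : x ∈ B := hsub (Or.inl rfl)
  have hyB : y ∈ B := hsub (Or.inr rfl)
  have hcl : N.closure B = Set.univ := hB.closure_eq
  obtain ⟨g1, g2, -⟩ := Pool.Agent.Z864.UB.sub_data (k := k) (K := E) (B := B) (S := S)
    (T := ∅) (b := x) hBI hxB hS (by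
      rw [eq_top_iff, ← htop]
      exact IntermediateField.adjoin.mono _ _ _ Set.subset_union_right) (by
      intro z _
      show z ∈ N.closure B
      rw [hcl]
      trivial) (Set.empty_subset _)
  set kb := IntermediateField.adjoin k ((B \ {x}) ∪ ∅) with hkb
  obtain ⟨Q⟩ := Pool.Agent.W277.UB.exists_placeData_ff kb E g1 g2
  have hker : ∀ z, IsAlgebraic kb z → Q.D z = 0 := by
    intro z hz
    have h1 := Q.D.map_algebraMap (⟨z, mem_algebraicClosure_iff.2 hz⟩ : algebraicClosure kb E)
    exact h1
  have hkerk : ∀ c : k, Q.D (algebraMap k E c) = 0 := fun c =>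
    hker _ (isAlgebraic_algebraMap (algebraMap k kb c))
  let D : Derivation k E E := Derivation.mk'
    { toFun := fun z => Q.D z
      map_add' := fun a b => map_add _ _ _
      map_smul' := fun c a => by
        rw [Algebra.smul_def, Derivation.leibniz, hkerk, smul_zero, add_zero, smul_eq_mul,
          ← Algebra.smul_def]
        rfl } (fun a b => Q.D.leibniz a b)
  refine ⟨D, ?_, ?_⟩
  · intro h0
    have h1 : Q.D x = 0 := h0
    obtain ⟨c, hc⟩ := Q.D_ker x h1
    have h2 : IsAlgebraic kb x := by
      rw [← hc]
      exact mem_algebraicClosure_iff.1 c.2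
    have h3 : x ∈ N.closure (B \ {x}) := by
      have := Pool.Agent.Z864.UB.mem_cl.2 h2
      rwa [Set.union_empty] at this
    exact hB.indep.notMem_closure_sdiff_of_mem hxB h3
  · show Q.D y = 0
    refine hker y ?_
    have hy : y ∈ kb := by
      apply IntermediateField.subset_adjoin
      left
      exact ⟨hyB, fun h => hxy h.symm⟩
    exact isAlgebraic_algebraMap (⟨y, hy⟩ : kb)

end der

section form

variable {k : Type v} {E : Type u} [Field k] [Field E] [Algebra k E]

/-- conjugation of a derivation -/
noncomputable def cjD (σ : E ≃ₐ[k] E) (D : Derivation k E E) : Derivation k E E :=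
  Derivation.mk'
    { toFun := fun z => σ.symm (D (σ z))
      map_add' := fun a b => by simp
      map_smul' := fun c a => by simp } (fun a b => by
        show σ.symm (D (σ (a * b))) = a * σ.symm (D (σ b)) + b * σ.symm (D (σ a))
        simp)

theorem cjD_apply (σ : E ≃ₐ[k] E) (D : Derivation k E E) (z : E) :
    cjD σ D z = σ.symm (D (σ z)) := rfl

/-- functions of two derivations -/
abbrev MF (k : Type v) (E : Type u) [Field k] [Field E] [Algebra k E] :=
  (Derivation k E E × Derivation k E E) → E

/-- the action of an automorphism -/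
noncomputable def Th (σ : E ≃ₐ[k] E) : Module.End k (MF k E) where
  toFun Φ := fun p => σ (Φ (cjD σ p.1, cjD σ p.2))
  map_add' _ _ := by
    funext p
    simp
  map_smul' _ _ := by
    funext p
    simp

/-- the two-form of a pair -/
noncomputable def bt (a b : E) : MF k E := fun p => p.1 a * p.2 b - p.2 a * p.1 b

/-- the bilinear map -/
noncomputable def bil (k : Type v) (E : Type u) [Field k] [Field E] [Algebra k E] :
    E →ₗ[k] E →ₗ[k] MF k E :=
  LinearMap.mk₂ k (fun a b => bt a b)
    (fun a a' b => by funext p; simp only [bt, Pi.add_apply, map_add]; ring)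
    (fun c a b => by
      funext p
      show p.1 (c • a) * p.2 b - p.2 (c • a) * p.1 b = c • (p.1 a * p.2 b - p.2 a * p.1 b)
      rw [Derivation.map_smul, Derivation.map_smul, Algebra.smul_def, Algebra.smul_def,
        Algebra.smul_def]
      ring)
    (fun a b b' => by funext p; simp only [bt, Pi.add_apply, map_add]; ring)
    (fun c a b => by
      funext p
      show p.1 a * p.2 (c • b) - p.2 a * p.1 (c • b) = c • (p.1 a * p.2 b - p.2 a * p.1 b)
      rw [Derivation.map_smul, Derivation.map_smul, Algebra.smul_def, Algebra.smul_def,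
        Algebra.smul_def]
      ring)

theorem bil_apply (a b : E) : bil k E a b = bt a b := rfl

theorem Th_bt (σ : E ≃ₐ[k] E) (a b : E) : Th σ (bt a b) = bt (σ a) (σ b) := by
  funext p
  show σ ((cjD σ p.1) a * (cjD σ p.2) b - (cjD σ p.2) a * (cjD σ p.1) b) = _
  simp only [cjD_apply, map_sub, map_mul, AlgEquiv.apply_symm_apply]
  rfl

/-- the area form is multiplied by the Jacobian -/
theorem bt_step (F : k[X]) (c : k) (x y : E) :
    bt y (aeval y F - algebraMap k E c * x) = c • bt (k := k) x y := by
  funext p
  have h1 : ∀ D : Derivation k E E, D (aeval y F - algebraMap k E c * x) =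
      aeval y (derivative F) * D y - algebraMap k E c * D x := by
    intro D
    rw [map_sub, Derivation.leibniz, Derivation.map_algebraMap, smul_zero, add_zero,
      Derivation.map_aeval, smul_eq_mul, smul_eq_mul]
  show p.1 y * p.2 (aeval y F - algebraMap k E c * x) -
    p.2 y * p.1 (aeval y F - algebraMap k E c * x) = c • (p.1 x * p.2 y - p.2 x * p.1 y)
  rw [h1, h1, Algebra.smul_def]
  ring

/-- the forms along the orbit -/
theorem bt_orbit (F : k[X]) (c : k) (x : ℤ → E)
    (hx : ∀ j, x (j + 2) = aeval (x (j + 1)) F - algebraMap k E c * x j) (m : ℕ) :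
    bt (x m) (x (m + 1)) = c ^ m • bt (k := k) (x 0) (x 1) := by
  induction m with
  | zero => simp
  | succ m ih =>
    rw [pow_succ', mul_smul, ← ih, ← bt_step F c]
    push_cast
    rw [← hx, add_assoc]
    rfl

end form

section contra

variable {k : Type v} {E : Type u} [Field k] [CharZero k] [Field E] [Algebra k E]

/-- there are only finitely many Jacobians in a finite-dimensional family -/
theorem form_contra (S : Set E) (hS : S.Finite) (htop : IntermediateField.adjoin k S = ⊤)
    (σ : E ≃ₐ[k] E) (m : ℕ) (hm : 0 < m) (W : Submodule k E) (hW : W.FG) {ι : Type w} [Infinite ι]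
    (c : ι → k) (hc : Function.Injective c) (F : ι → k[X]) (x : ι → ℤ → E)
    (hx : ∀ i j, x i (j + 2) = aeval (x i (j + 1)) (F i) - algebraMap k E (c i) * x i j)
    (hσ : ∀ i j, σ (x i j) = x i (j + m)) (hxW : ∀ i, x i 0 ∈ W ∧ x i 1 ∈ W)
    (hind : ∀ i, AlgebraicIndependent k ![x i 0, x i 1]) : False := by
  classical
  have hswap : ∀ i, AlgebraicIndependent k ![x i 1, x i 0] := by
    intro i
    have h1 := (hind i).comp (Equiv.swap (0 : Fin 2) 1) (Equiv.injective _)
    have h2 : (![x i 0, x i 1] ∘ (Equiv.swap (0 : Fin 2) 1)) = ![x i 1, x i 0] := by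
      funext j
      fin_cases j
      · simp
      · simp
    rw [h2] at h1
    exact h1
  let ω : ι → MF k E := fun i => bt (x i 0) (x i 1)
  have hω0 : ∀ i, ω i ≠ 0 := by
    intro i h0
    obtain ⟨D, h1, h2⟩ := exists_der S hS htop _ _ (hind i)
    obtain ⟨D', h3, h4⟩ := exists_der S hS htop _ _ (hswap i)
    have h5 : D (x i 0) * D' (x i 1) - D' (x i 0) * D (x i 1) = 0 := congrFun h0 (D, D')
    rw [h2, mul_zero, sub_zero] at h5
    exact (mul_ne_zero h1 h3) h5
  have hωe : ∀ i, (Th σ : Module.End k (MF k E)).HasEigenvector (c i ^ m) (ω i) := by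
    intro i
    refine ⟨?_, hω0 i⟩
    rw [Module.End.mem_eigenspace_iff]
    show Th σ (bt (x i 0) (x i 1)) = _
    rw [Th_bt, hσ, hσ, zero_add, add_comm 1 (m : ℤ)]
    exact bt_orbit (F i) (c i) (x i) (hx i) m
  have hωW : ∀ i, ω i ∈ Submodule.map₂ (bil k E) W W := fun i =>
    Submodule.apply_mem_map₂ _ (hxW i).1 (hxW i).2
  have hfg : (Submodule.map₂ (bil k E) W W).FG := hW.map₂ _ hW
  -- infinitely many eigenvalues
  have hT : (Set.range fun i => c i ^ m).Infinite := by
    intro hfin
    apply Set.infinite_range_of_injective hc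
    refine (hfin.biUnion (t := fun a => {y : k | y ^ m = a}) fun a _ => ?_).subset ?_
    · have h1 : ((X : k[X]) ^ m - Polynomial.C a) ≠ 0 := Polynomial.X_pow_sub_C_ne_zero hm a
      refine (Polynomial.rootSet_finite ((X : k[X]) ^ m - Polynomial.C a) k).subset fun y hy => ?_
      rw [Polynomial.mem_rootSet]
      refine ⟨h1, ?_⟩
      rw [map_sub, map_pow, Polynomial.aeval_X, Polynomial.aeval_C]
      exact sub_eq_zero.2 hy
    · rintro _ ⟨i, rfl⟩
      rw [Set.mem_iUnion₂]
      exact ⟨_, ⟨i, rfl⟩, rfl⟩
  choose g hg using fun a : (Set.range fun i => c i ^ m) => a.2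
  have hli : LinearIndependent k (fun a => ω (g a)) := by
    refine (Th σ).eigenvectors_linearIndependent'
      (fun a : (Set.range fun i => c i ^ m) => (a : k)) Subtype.val_injective _ fun a => ?_
    have := hωe (g a)
    have h1 : c (g a) ^ m = a := hg a
    rw [h1] at this
    exact this
  let v' : (Set.range fun i => c i ^ m) → Submodule.map₂ (bil k E) W W :=
    fun a => ⟨ω (g a), hωW _⟩
  have hli' : LinearIndependent k v' := by
    refine LinearIndependent.of_comp (Submodule.subtype _) ?_
    exact hli
  have : Module.Finite k (Submodule.map₂ (bil k E) W W) := Module.Finite.iff_fg.2 hfg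
  have hfin : Finite (Set.range fun i => c i ^ m) := hli'.finite_of_isNoetherian
  exact hT (Set.toFinite _)

end contra

end Pool.Agent.R323.HN
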