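import Pool.Agent.R323.HN.E

/-!
# Bounded orbits of Hénon maps with constant Jacobian lie on a line over the constants
-/

set_option autoImplicit false

namespace Pool.Agent.R323.HN

open Pool.Agent.R323 Pool.Agent.TH450.FG Real Finset Polynomial Filter

universe u v w

section basics

variable {K : Type u} [Field K]

/-- bounded orbits are integral at good places -/
theorem int_of_bd (V : AbsoluteValue K ℝ) (hna : IsNonarchimedean V) (F : K[X])
    (hd : 2 ≤ F.natDegree) (hc : ∀ i, V (F.coeff i) ≤ 1) (hl : V F.leadingCoeff = 1) (δ : K)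
    (hδ : V δ = 1) (z : ℤ → K) (hz : ∀ n, z (n + 2) = F.eval (z (n + 1)) - δ * z n)
    (hbd : ∃ R, ∀ n, V (z n) ≤ R) (n : ℤ) : V (z n) ≤ 1 := by
  obtain ⟨R, hR⟩ := hbd
  have hδ0 : δ ≠ 0 := by
    rintro rfl
    rw [map_zero] at hδ
    exact zero_ne_one hδ
  have hδi : V δ⁻¹ = 1 := by rw [map_inv₀, hδ, inv_one]
  by_contra hgt
  push Not at hgt
  by_cases hcase : V (z n) ≤ V (z (n + 1))
  · obtain ⟨i, hi⟩ := growth V hna F hc hl hd δ hδ.le (fun i => z (n + i)) (fun i => by
        have h1 := hz (n + i)
        push_cast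
        rw [← add_assoc, ← add_assoc]
        exact h1) (by
        show 1 < V (z (n + ((1 : ℕ) : ℤ)))
        push_cast
        linarith) (by
        show V (z (n + ((0 : ℕ) : ℤ))) ≤ V (z (n + ((1 : ℕ) : ℤ)))
        push_cast
        rw [add_zero]
        exact hcase) R
    exact absurd (hR _) (not_le.2 hi)
  · push Not at hcase
    obtain ⟨i, hi⟩ := growth V hna (Polynomial.C δ⁻¹ * F)
      (fun i => by rw [Polynomial.coeff_C_mul, map_mul, hδi, one_mul]; exact hc i)
      (by rw [Polynomial.leadingCoeff_mul, Polynomial.leadingCoeff_C, map_mul, hδi, one_mul, hl])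
      (by rw [Polynomial.natDegree_C_mul (inv_ne_zero hδ0)]; exact hd)
      δ⁻¹ hδi.le
      (fun i => z (n + 1 - i)) (fun i => by
        have h1 := hz (n + 1 - ((i + 2 : ℕ) : ℤ))
        have e1 : n + 1 - ((i + 2 : ℕ) : ℤ) + 1 = n + 1 - ((i + 1 : ℕ) : ℤ) := by
          push_cast
          ring
        have e2 : n + 1 - ((i + 2 : ℕ) : ℤ) + 2 = n + 1 - (i : ℤ) := by
          push_cast
          ring
        rw [e1, e2] at h1
        rw [Polynomial.eval_mul, Polynomial.eval_C, h1]
        field_simp
        ring) (by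
        show 1 < V (z (n + 1 - ((1 : ℕ) : ℤ)))
        push_cast
        rw [add_sub_cancel_right]
        exact hgt) (by
        show V (z (n + 1 - ((0 : ℕ) : ℤ))) ≤ V (z (n + 1 - ((1 : ℕ) : ℤ)))
        push_cast
        rw [add_sub_cancel_right, sub_zero]
        exact hcase.le) R
    exact absurd (hR _) (not_le.2 hi)

end basics

section algc

variable {k : Type v} {K : Type u} [Field k] [IsAlgClosed k] [Field K] [Algebra k K]

theorem mem_of_alg {x : K} (h : IsAlgebraic k x) : ∃ y : k, algebraMap k K y = x := by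
  have h1 := minpoly.irreducible h.isIntegral
  exact minpoly.mem_range_of_degree_eq_one k x (IsAlgClosed.degree_eq_one_of_irreducible k h1)

variable [CharZero k]

theorem shift_alg (g : k[X]) (hg : 2 ≤ g.natDegree) (t : K) (κ : k)
    (h : aeval (t + 1) g - aeval t g = algebraMap k K κ) : IsAlgebraic k t := by
  refine ⟨g.comp (X + 1) - g - Polynomial.C κ, ?_, ?_⟩
  · intro h0
    have h1 : ∀ n : ℕ, g.eval (n : k) = g.eval 0 + κ * n := by
      intro n
      induction n with
      | zero => simp
      | succ n ih =>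
        have h2 := congrArg (Polynomial.eval (n : k)) h0
        rw [Polynomial.eval_sub, Polynomial.eval_sub, Polynomial.eval_comp, Polynomial.eval_add,
          Polynomial.eval_X, Polynomial.eval_one, Polynomial.eval_C, Polynomial.eval_zero] at h2
        push_cast
        linear_combination h2 + ih
    have h2 : g = Polynomial.C (g.eval 0) + Polynomial.C κ * X := by
      refine Polynomial.eq_of_infinite_eval_eq _ _ ?_
      refine Set.Infinite.mono ?_ (Set.infinite_range_of_injective (Nat.cast_injective (R := k)))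
      rintro _ ⟨n, rfl⟩
      show g.eval (n : k) = _
      rw [h1]
      simp
    have h3 : g.natDegree ≤ 1 := by
      rw [h2]
      refine (Polynomial.natDegree_add_le _ _).trans (max_le ?_ ?_)
      · simp
      · exact (Polynomial.natDegree_C_mul_le _ _).trans Polynomial.natDegree_X_le
    omega
  · rw [map_sub, map_sub, Polynomial.aeval_comp, map_add, Polynomial.aeval_X, map_one,
      Polynomial.aeval_C, h, sub_self]

/-- polynomials with many values in the constants -/
theorem lift_of_inf (G : K[X]) (h : {y : k | ∃ w : k, G.eval (algebraMap k K y) =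
    algebraMap k K w}.Infinite) : ∃ g : k[X], G = g.map (algebraMap k K) := by
  classical
  obtain ⟨T, hT, hTc⟩ := h.exists_subset_card_eq (G.natDegree + 1)
  choose! w hw using hT
  let g := Lagrange.interpolate T (id : k → k) w
  refine ⟨g, ?_⟩
  have hgd : g.degree < T.card := Lagrange.degree_interpolate_lt _ Function.injective_id.injOn
  refine Polynomial.eq_of_degrees_lt_of_eval_finset_eq (T.image (algebraMap k K)) ?_ ?_ ?_
  · rw [Finset.card_image_of_injective _ (algebraMap k K).injective, hTc]
    refine lt_of_le_of_lt Polynomial.degree_le_natDegree ?_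
    exact_mod_cast Nat.lt_succ_self _
  · rw [Finset.card_image_of_injective _ (algebraMap k K).injective, Polynomial.degree_map]
    exact hgd
  · intro x hx
    obtain ⟨y, hy, rfl⟩ := Finset.mem_image.1 hx
    rw [hw hy, Polynomial.eval_map_algebraMap, Polynomial.aeval_algebraMap_apply_eq_algebraMap_eval]
    congr 1
    exact (Lagrange.eval_interpolate_at_node w Function.injective_id.injOn hy).symm

end algc

section ult

variable {K : Type u}

/-- an ultrafilter on which a function is injective -/
theorem inf_ultra (z : ℤ → K) (A : Set ℤ) (hA : (z '' A).Infinite) :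
    ∃ U : Ultrafilter ℤ, (U : Filter ℤ) ≤ cofinite ∧ (∀ᶠ n in (U : Filter ℤ), n ∈ A) ∧
      ∀ c, ¬ ∀ᶠ n in (U : Filter ℤ), z n = c := by
  have hinf : Infinite (z '' A) := hA.to_subtype
  let e := Infinite.natEmbedding (z '' A)
  choose g hgA hg using fun i => (e i).2
  have hgi : Function.Injective g := by
    intro i j hij
    have h1 := hg i
    rw [hij, hg j] at h1
    exact (e.injective (Subtype.ext h1)).symm
  refine ⟨(Filter.hyperfilter ℕ).map g, ?_, ?_, ?_⟩
  · rw [Ultrafilter.coe_map]
    exact (Filter.map_mono Filter.hyperfilter_le_cofinite).trans hgi.tendsto_cofinite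
  · rw [Ultrafilter.coe_map, Filter.eventually_map]
    exact Filter.Eventually.of_forall hgA
  · intro c hc
    rw [Ultrafilter.coe_map, Filter.eventually_map] at hc
    have h1 : {i : ℕ | z (g i) = c}.Finite := by
      refine Set.Subsingleton.finite ?_
      intro i hi j hj
      have h2 : (e i : K) = e j := by rw [← hg i, ← hg j]; exact hi.trans hj.symm
      exact e.injective (Subtype.ext h2)
    exact Filter.notMem_hyperfilter_of_finite h1 hc

/-- avoiding finite sets -/
theorem nc_avoid {U : Ultrafilter ℤ} {w : ℤ → K} (hw : ∀ c, ¬ ∀ᶠ n in (U : Filter ℤ), w n = c)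
    (T : Set K) (hT : T.Finite) : ∀ᶠ n in (U : Filter ℤ), w n ∉ T := by
  have h1 : ∀ᶠ n in (U : Filter ℤ), ∀ c ∈ T, w n ≠ c := by
    rw [Filter.eventually_all_finite hT]
    intro c _
    exact Ultrafilter.eventually_not.2 (hw c)
  filter_upwards [h1] with n hn hmem
  exact hn _ hmem rfl

theorem nc_root [Field K] {U : Ultrafilter ℤ} {w : ℤ → K}
    (hw : ∀ c, ¬ ∀ᶠ n in (U : Filter ℤ), w n = c) (p : K[X]) (hp : p ≠ 0) :
    ∀ᶠ n in (U : Filter ℤ), p.eval (w n) ≠ 0 := by
  classical
  filter_upwards [nc_avoid hw (p.roots.toFinset : Set K) (Finset.finite_toSet _)] with n hn h0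
  apply hn
  rw [Finset.mem_coe, Multiset.mem_toFinset, Polynomial.mem_roots hp]
  exact h0

/-- ultrafilters containing an infinite set -/
theorem ex_ultra (A : Set ℤ) (hA : A.Infinite) :
    ∃ U : Ultrafilter ℤ, (U : Filter ℤ) ≤ cofinite ∧ ∀ᶠ n in (U : Filter ℤ), n ∈ A := by
  obtain ⟨U, h1, h2, -⟩ := inf_ultra (fun n : ℤ => n) A (by simpa using hA)
  exact ⟨U, h1, h2⟩

end ult

end Pool.Agent.R323.HN
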