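import Pool.Agent.R323.HN.D
import Pool.Agent.R323.HN.E2

/-!
# Finite-dimensional families of orbits of Hénon maps
-/

set_option autoImplicit false

namespace Pool.Agent.R323.HN

open Pool.Agent.R323 Pool.Agent.TH450.FG Real Finset Polynomial

universe u v w

section ring

variable {k : Type v} [Field k] [CharZero k] [IsAlgClosed k] {R : Type u} [CommRing R] [Algebra k R]

/-- a minimal prime is periodic -/
theorem min_per [IsNoetherianRing R] (τ : R ≃ₐ[k] R) (p : Ideal R) (hp : p ∈ minimalPrimes R) :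
    ∃ m : ℕ, 0 < m ∧ ∀ r, (τ ^ m) r ∈ p ↔ r ∈ p := by
  classical
  have hmin : ∀ e : R ≃ₐ[k] R, p.comap (e : R →+* R) ∈ minimalPrimes R := by
    intro e
    have hpp : p.IsPrime := hp.1.1
    refine ⟨⟨Ideal.comap_isPrime _ _, bot_le⟩, ?_⟩
    rintro q ⟨hq, -⟩ hqp
    have hq' : (q.comap (e.symm : R →+* R)).IsPrime := Ideal.comap_isPrime _ _
    have h1 : q.comap (e.symm : R →+* R) ≤ p := by
      intro r hr
      have h2 := hqp (Ideal.mem_comap.1 hr)
      rw [Ideal.mem_comap] at h2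
      simpa using h2
    have h2 := hp.2 ⟨hq', bot_le⟩ h1
    intro r hr
    rw [Ideal.mem_comap] at hr
    have h3 := h2 hr
    rw [Ideal.mem_comap] at h3
    simpa using h3
  have hfin : (minimalPrimes R).Finite := minimalPrimes.finite_of_isNoetherianRing R
  have : Finite (minimalPrimes R) := hfin.to_subtype
  obtain ⟨i, j, hij, hne⟩ := Finite.exists_ne_map_eq_of_infinite
    (fun i : ℕ => (⟨_, hmin (τ ^ i)⟩ : minimalPrimes R))
  have key : ∀ i j : ℕ, i < j →
      p.comap ((τ ^ i : R ≃ₐ[k] R) : R →+* R) = p.comap ((τ ^ j : R ≃ₐ[k] R) : R →+* R) →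
      ∃ m : ℕ, 0 < m ∧ ∀ r, (τ ^ m) r ∈ p ↔ r ∈ p := by
    intro i j hij h
    refine ⟨j - i, by omega, fun r => ?_⟩
    have h1 : ((τ ^ i).symm r) ∈ p.comap ((τ ^ i : R ≃ₐ[k] R) : R →+* R) ↔
        ((τ ^ i).symm r) ∈ p.comap ((τ ^ j : R ≃ₐ[k] R) : R →+* R) := by rw [h]
    rw [Ideal.mem_comap, Ideal.mem_comap] at h1
    have e1 : ((τ ^ i : R ≃ₐ[k] R) : R →+* R) ((τ ^ i).symm r) = r :=
      AlgEquiv.apply_symm_apply (τ ^ i) r
    have e2 : ((τ ^ j : R ≃ₐ[k] R) : R →+* R) ((τ ^ i).symm r) = (τ ^ (j - i)) r := by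
      show (τ ^ j) ((τ ^ i).symm r) = _
      have h3 : τ ^ j = τ ^ (j - i) * τ ^ i := by
        rw [← pow_add]
        congr 1
        omega
      rw [h3, AlgEquiv.mul_apply, AlgEquiv.apply_symm_apply]
    rw [e1, e2] at h1
    exact h1.symm
  rcases Nat.lt_or_gt_of_ne hij with h | h
  · exact key i j h (congrArg Subtype.val hne)
  · exact key j i h (congrArg Subtype.val hne).symm

/-- **The ring form of the finiteness of the Jacobians.** -/
theorem ring_contra [Algebra.FiniteType k R] (τ : R ≃ₐ[k] R) (q : Ideal R) [hq : q.IsPrime]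
    {ι : Type w} [Infinite ι] (c : ι → k) (hc : Function.Injective c) (hc0 : ∀ i, c i ≠ 0)
    (F : ι → k[X]) (hF : ∀ i, 2 ≤ (F i).natDegree) (s : ι → R)
    (hs : ∀ i, τ (τ (s i)) = aeval (τ (s i)) (F i) - algebraMap k R (c i) * s i)
    (hfin : (Submodule.span k (Set.range s)).FG)
    (hnd : {i | (∃ a : k, s i - algebraMap k R a ∈ q) ∧
      ∃ b : k, τ (s i) - algebraMap k R b ∈ q}.Finite) : False := by
  classical
  have hN : IsNoetherianRing R := Algebra.FiniteType.isNoetherianRing k R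
  obtain ⟨p, hp, hpq⟩ := Ideal.exists_minimalPrimes_le (I := ⊥) (J := q) bot_le
  have hpp : p.IsPrime := hp.1.1
  obtain ⟨m, hm, hper⟩ := min_per τ p hp
  let θ : R ≃ₐ[k] R := τ ^ m
  have hmap : p = p.map (θ : R →+* R) := by
    apply le_antisymm
    · intro r hr
      have h1 : θ (θ.symm r) = r := AlgEquiv.apply_symm_apply θ r
      rw [← h1]
      refine Ideal.mem_map_of_mem (θ : R →+* R) ?_
      rw [← hper, h1]
      exact hr
    · rw [Ideal.map_le_iff_le_comap]
      intro r hr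
      rw [Ideal.mem_comap]
      exact (hper r).2 hr
  let A := R ⧸ p
  let E := FractionRing A
  let σA : A ≃ₐ[k] A := Ideal.quotientEquivAlg p p θ hmap
  let σ : E ≃ₐ[k] E := IsFractionRing.algEquivOfAlgEquiv σA
  let φ : R →ₐ[k] E := (IsScalarTower.toAlgHom k A E).comp (Ideal.Quotient.mkₐ k p)
  have hφ0 : ∀ r, φ r = 0 ↔ r ∈ p := by
    intro r
    show algebraMap A E (Ideal.Quotient.mk p r) = 0 ↔ _
    rw [IsFractionRing.to_map_eq_zero_iff, Ideal.Quotient.eq_zero_iff_mem]
  have hσφ : ∀ r, σ (φ r) = φ (θ r) := by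
    intro r
    show IsFractionRing.algEquivOfAlgEquiv σA (algebraMap A E (Ideal.Quotient.mk p r)) = _
    rw [IsFractionRing.algEquivOfAlgEquiv_algebraMap]
    rfl
  -- generators
  obtain ⟨S₀, hS₀⟩ := (inferInstance : Algebra.FiniteType k R).out
  have htop : IntermediateField.adjoin k (φ '' (S₀ : Set R)) = ⊤ := by
    have hP : ∀ r, φ r ∈ IntermediateField.adjoin k (φ '' (S₀ : Set R)) := by
      intro r
      have h1 : (⊤ : Subalgebra k R) ≤
          (IntermediateField.adjoin k (φ '' (S₀ : Set R))).toSubalgebra.comap φ := by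
        rw [← hS₀]
        refine Algebra.adjoin_le fun y hy => ?_
        exact IntermediateField.subset_adjoin _ _ ⟨y, hy, rfl⟩
      exact h1 (Algebra.mem_top (x := r))
    rw [eq_top_iff]
    intro z _
    obtain ⟨u, v, -, huv⟩ := IsFractionRing.div_surjective (A := A) z
    obtain ⟨P, rfl⟩ := Ideal.Quotient.mk_surjective u
    obtain ⟨P', rfl⟩ := Ideal.Quotient.mk_surjective v
    rw [← huv]
    exact div_mem (hP P) (hP P')
  -- orbits
  let x : ι → ℤ → E := fun i j => φ ((τ ^ j) (s i))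
  have hrec : ∀ i j, x i (j + 2) = aeval (x i (j + 1)) (F i) - algebraMap k E (c i) * x i j := by
    intro i j
    have h1 : (τ ^ (j + 2)) (s i) = (τ ^ j) (τ (τ (s i))) := by
      rw [zpow_add, AlgEquiv.mul_apply]
      rfl
    have h2 : (τ ^ (j + 1)) (s i) = (τ ^ j) (τ (s i)) := by
      rw [zpow_add, AlgEquiv.mul_apply]
      rfl
    show φ ((τ ^ (j + 2)) (s i)) = aeval (φ ((τ ^ (j + 1)) (s i))) (F i) - _ * φ _
    rw [h1, h2, hs, map_sub, map_mul, map_sub, map_mul, AlgEquiv.commutes, AlgHom.commutes]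
    congr 1
    have h3 : (τ ^ j) (aeval (τ (s i)) (F i)) = aeval ((τ ^ j) (τ (s i))) (F i) :=
      (Polynomial.aeval_algHom_apply ((τ ^ j : R ≃ₐ[k] R) : R →ₐ[k] R) _ _).symm
    rw [h3]
    exact (Polynomial.aeval_algHom_apply φ _ _).symm
  have hσx : ∀ i j, σ (x i j) = x i (j + m) := by
    intro i j
    show σ (φ _) = φ _
    rw [hσφ]
    congr 1
    rw [add_comm, zpow_add, AlgEquiv.mul_apply, zpow_natCast]
  -- independence
  have hset : {i | ¬ AlgebraicIndependent k ![x i 0, x i 1]}.Finite := by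
    refine hnd.subset fun i hi => ?_
    have h1 := no_curve σ (F i) (hF i) (c i) (hc0 i) (x i) (hrec i) m hm (hσx i) hi
    have h2 : ∀ j : ℤ, ∃ a : k, (τ ^ j) (s i) - algebraMap k R a ∈ q := by
      intro j
      obtain ⟨a, ha⟩ := mem_of_alg (h1 j)
      refine ⟨a, hpq ?_⟩
      rw [← hφ0, map_sub, AlgHom.commutes, ha]
      exact sub_self _
    constructor
    · simpa using h2 0
    · simpa using h2 1
  let ι' := {i : ι // AlgebraicIndependent k ![x i 0, x i 1]}
  have hinf : Infinite ι' := by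
    have h1 : ({i | ¬ AlgebraicIndependent k ![x i 0, x i 1]}ᶜ).Infinite := hset.infinite_compl
    have h2 := h1.to_subtype
    refine Infinite.of_injective (fun i : ↑({i | ¬ AlgebraicIndependent k ![x i 0, x i 1]}ᶜ) =>
      (⟨i.1, not_not.1 i.2⟩ : ι')) ?_
    intro a b hab
    exact Subtype.ext (congrArg (fun z : ι' => z.1) hab)
  -- the space
  let W₀ := Submodule.span k (Set.range s)
  let W : Submodule k E := W₀.map φ.toLinearMap ⊔
    W₀.map (φ.toLinearMap ∘ₗ (τ : R →ₐ[k] R).toLinearMap)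
  have hW : W.FG := (hfin.map _).sup (hfin.map _)
  refine form_contra (φ '' (S₀ : Set R)) (S₀.finite_toSet.image _) htop σ m hm W hW
    (fun i : ι' => c i) (fun a b hab => Subtype.ext (hc hab)) (fun i => F i) (fun i => x i)
    (fun i => hrec i) (fun i => hσx i) (fun i => ⟨?_, ?_⟩) (fun i => i.2)
  · apply Submodule.mem_sup_left
    refine ⟨s i, Submodule.subset_span ⟨i.1, rfl⟩, ?_⟩
    show φ (s i) = φ ((τ ^ (0 : ℤ)) (s i))
    rw [zpow_zero]
    rfl
  · apply Submodule.mem_sup_right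
    refine ⟨s i, Submodule.subset_span ⟨i.1, rfl⟩, ?_⟩
    show φ (τ (s i)) = φ ((τ ^ (1 : ℤ)) (s i))
    rw [zpow_one]

end ring

section seq

variable {k : Type v} [Field k] [CharZero k] [IsAlgClosed k]

/-- the shift -/
def shf (k : Type v) [Field k] : (ℤ → k) ≃ₐ[k] (ℤ → k) where
  toFun s := fun n => s (n + 1)
  invFun s := fun n => s (n - 1)
  left_inv s := by
    funext n
    show s (n - 1 + 1) = s n
    rw [sub_add_cancel]
  right_inv s := by
    funext n
    show s (n + 1 - 1) = s n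
    rw [add_sub_cancel_right]
  map_mul' _ _ := rfl
  map_add' _ _ := rfl
  commutes' _ := rfl

theorem shf_apply (s : ℤ → k) (n : ℤ) : shf k s n = s (n + 1) := rfl

theorem aeval_seq (p : k[X]) (s : ℤ → k) (n : ℤ) : (aeval s p : ℤ → k) n = p.eval (s n) := by
  have h1 := Polynomial.aeval_algHom_apply (Pi.evalAlgHom k (fun _ : ℤ => k) n) s p
  have h2 : (Pi.evalAlgHom k (fun _ : ℤ => k) n) (aeval s p) = (aeval s p : ℤ → k) n := rfl
  have h3 : (Pi.evalAlgHom k (fun _ : ℤ => k) n) s = s n := rfl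
  rw [h2, h3] at h1
  rw [← h1, Polynomial.coe_aeval_eq_eval]

/-- **Lemma K.** -/
theorem lemmaK {ι : Type w} [Infinite ι] (c : ι → k) (hc : Function.Injective c)
    (hc0 : ∀ i, c i ≠ 0) (F : ι → k[X]) (hF : ∀ i, 2 ≤ (F i).natDegree) (s : ι → ℤ → k)
    (hs : ∀ i n, s i (n + 2) = (F i).eval (s i (n + 1)) - c i * s i n)
    (hfin : (Submodule.span k (Set.range s)).FG) (U : Ultrafilter ℤ)
    (hnd : {i | (∃ a : k, ∀ᶠ n in (U : Filter ℤ), s i n = a) ∧
      ∃ b : k, ∀ᶠ n in (U : Filter ℤ), s i (n + 1) = b}.Finite) : False := by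
  classical
  let G : Set (ℤ → k) := Set.range s ∪ Set.range (fun i => shf k (s i))
  let R : Subalgebra k (ℤ → k) := Algebra.adjoin k G
  have hG1 : ∀ i, s i ∈ R := fun i => Algebra.subset_adjoin (Or.inl ⟨i, rfl⟩)
  have hG2 : ∀ i, shf k (s i) ∈ R := fun i => Algebra.subset_adjoin (Or.inr ⟨i, rfl⟩)
  have haev : ∀ (p : k[X]) (y : ℤ → k), y ∈ R → aeval y p ∈ R := by
    intro p y hy
    have h1 := (aeval (⟨y, hy⟩ : R) p : R).2
    have h2 := Polynomial.aeval_algHom_apply R.val (⟨y, hy⟩ : R) p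
    have h3 : R.val (⟨y, hy⟩ : R) = y := rfl
    rw [h3] at h2
    rw [h2]
    exact h1
  have hrec : ∀ i, shf k (shf k (s i)) = aeval (shf k (s i)) (F i) -
      algebraMap k (ℤ → k) (c i) * s i := by
    intro i
    funext n
    rw [shf_apply, shf_apply, add_assoc]
    show s i (n + 2) = (aeval (shf k (s i)) (F i) : ℤ → k) n - c i * s i n
    rw [aeval_seq, hs]
    rfl
  have hback : ∀ i, (shf k).symm (s i) = algebraMap k (ℤ → k) (c i)⁻¹ *
      (aeval (s i) (F i) - shf k (s i)) := by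
    intro i
    funext n
    show s i (n - 1) = (c i)⁻¹ * ((aeval (s i) (F i) : ℤ → k) n - s i (n + 1))
    rw [aeval_seq]
    have h1 := hs i (n - 1)
    rw [show n - 1 + 2 = n + 1 by ring, sub_add_cancel] at h1
    rw [h1]
    have := hc0 i
    field_simp
    ring
  have hle : R.map (shf k : (ℤ → k) →ₐ[k] (ℤ → k)) ≤ R := by
    rw [Subalgebra.map_le]
    refine Algebra.adjoin_le ?_
    rintro _ (⟨i, rfl⟩ | ⟨i, rfl⟩)
    · exact hG2 i
    · show shf k (shf k (s i)) ∈ R
      rw [hrec]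
      exact sub_mem (haev _ _ (hG2 i)) (mul_mem (R.algebraMap_mem _) (hG1 i))
  have hge : R.map ((shf k).symm : (ℤ → k) →ₐ[k] (ℤ → k)) ≤ R := by
    rw [Subalgebra.map_le]
    refine Algebra.adjoin_le ?_
    rintro _ (⟨i, rfl⟩ | ⟨i, rfl⟩)
    · show (shf k).symm (s i) ∈ R
      rw [hback]
      exact mul_mem (R.algebraMap_mem _) (sub_mem (haev _ _ (hG1 i)) (hG2 i))
    · show (shf k).symm (shf k (s i)) ∈ R
      rw [AlgEquiv.symm_apply_apply]
      exact hG1 i
  have heq : R.map (shf k : (ℤ → k) →ₐ[k] (ℤ → k)) = R := by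
    refine le_antisymm hle fun y hy => ?_
    refine ⟨(shf k).symm y, hge ⟨y, hy, rfl⟩, ?_⟩
    exact AlgEquiv.apply_symm_apply (shf k) y
  let τ : R ≃ₐ[k] R := ((shf k).subalgebraMap R).trans (Subalgebra.equivOfEq _ _ heq)
  have hτ : ∀ r : R, ((τ r : R) : ℤ → k) = shf k (r : ℤ → k) := fun r => rfl
  -- finiteness
  have hft : Algebra.FiniteType k R := by
    rw [← Subalgebra.fg_iff_finiteType]
    have h1 : (Submodule.span k G).FG := by
      rw [Submodule.span_union]
      refine hfin.sup ?_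
      have h2 : Submodule.span k (Set.range fun i => shf k (s i)) =
          (Submodule.span k (Set.range s)).map (shf k).toLinearMap := by
        rw [Submodule.map_span, ← Set.range_comp]
        rfl
      rw [h2]
      exact hfin.map _
    obtain ⟨T, hT⟩ := h1
    have h3 : R = Algebra.adjoin k (T : Set (ℤ → k)) := by
      show Algebra.adjoin k G = _
      rw [← Algebra.adjoin_span, ← hT, Algebra.adjoin_span]
    rw [h3]
    exact Subalgebra.fg_adjoin_finset T
  -- the prime ideal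
  let q : Ideal R :=
    { carrier := {r | ∀ᶠ n in (U : Filter ℤ), (r : ℤ → k) n = 0}
      add_mem' := by
        intro a b ha hb
        filter_upwards [ha, hb] with n h1 h2
        show (a : ℤ → k) n + (b : ℤ → k) n = 0
        rw [h1, h2, add_zero]
      zero_mem' := Filter.Eventually.of_forall fun n => rfl
      smul_mem' := by
        intro a b hb
        filter_upwards [hb] with n h2
        show (a : ℤ → k) n * (b : ℤ → k) n = 0
        rw [h2, mul_zero] }
  have hqm : ∀ r : R, r ∈ q ↔ ∀ᶠ n in (U : Filter ℤ), (r : ℤ → k) n = 0 := fun r => Iff.rfl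
  have hq : q.IsPrime := by
    rw [Ideal.isPrime_iff]
    constructor
    · intro htop
      have h1 : (1 : R) ∈ q := by rw [htop]; trivial
      rw [hqm] at h1
      obtain ⟨n, hn⟩ := h1.exists
      exact one_ne_zero hn
    · intro a b hab
      rw [hqm] at hab
      rw [hqm, hqm, ← Ultrafilter.eventually_or]
      filter_upwards [hab] with n hn
      exact mul_eq_zero.1 hn
  have hspan : (Submodule.span k (Set.range fun i => (⟨s i, hG1 i⟩ : R))).FG := by
    have h1 : (Submodule.span k (Set.range fun i => (⟨s i, hG1 i⟩ : R))).map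
        R.val.toLinearMap = Submodule.span k (Set.range s) := by
      rw [Submodule.map_span, ← Set.range_comp]
      rfl
    refine Submodule.fg_of_fg_map_injective R.val.toLinearMap Subtype.val_injective ?_
    rw [h1]
    exact hfin
  refine ring_contra τ q c hc hc0 F hF (fun i => (⟨s i, hG1 i⟩ : R)) ?_ hspan ?_
  · intro i
    apply Subtype.ext
    have h2 := Polynomial.aeval_algHom_apply R.val (τ ⟨s i, hG1 i⟩ : R) (F i)
    show shf k (shf k (s i)) = ((aeval (τ ⟨s i, hG1 i⟩ : R) (F i) : R) : ℤ → k) -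
      algebraMap k (ℤ → k) (c i) * s i
    rw [hrec]
    congr 1
  · refine hnd.subset ?_
    rintro i ⟨⟨a, ha⟩, b, hb⟩
    constructor
    · refine ⟨a, ?_⟩
      rw [hqm] at ha
      filter_upwards [ha] with n hn
      exact sub_eq_zero.1 hn
    · refine ⟨b, ?_⟩
      rw [hqm] at hb
      filter_upwards [hb] with n hn
      exact sub_eq_zero.1 hn

end seq

end Pool.Agent.R323.HN
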