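import Pool.Agent.R323.HN.A

/-!
# The differences of a bounded orbit of a Hénon map with constant Jacobian
-/

set_option autoImplicit false

namespace Pool.Agent.R323.HN

open Pool.Agent.R323 Pool.Agent.TH450.FG Real Finset Polynomial Filter

universe u v w

section lag

variable {K : Type u} [Field K] (V : AbsoluteValue K ℝ)

/-- the leading coefficient of a polynomial with values at equidistant points -/
theorem lag (hna : IsNonarchimedean V) (F : K[X]) (hd : 1 ≤ F.natDegree) (y : ℕ → K) (r : ℝ)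
    (hr : 0 < r) (hy : ∀ i j, i < j → V (y j - y i) = r)
    (hw : ∀ i, V (F.eval (y i) - F.eval (y 0)) ≤ r) :
    V F.leadingCoeff * r ^ F.natDegree ≤ r := by
  classical
  have hy' : ∀ i j, i ≠ j → V (y i - y j) = r := by
    intro i j hij
    rcases Nat.lt_or_gt_of_ne hij with h | h
    · rw [← neg_sub, map_neg_eq_map]
      exact hy i j h
    · exact hy j i h
  have hinj : Function.Injective y := by
    intro i j hij
    by_contra hne
    have := hy' i j hne
    rw [hij, sub_self, map_zero] at this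
    exact hr.ne this
  set G : K[X] := F - Polynomial.C (F.eval (y 0)) with hG
  have hGd : G.natDegree = F.natDegree := Polynomial.natDegree_sub_C
  have hGl : G.leadingCoeff = F.leadingCoeff := by
    rw [Polynomial.leadingCoeff, Polynomial.leadingCoeff, hGd, hG, Polynomial.coeff_sub,
      Polynomial.coeff_C_ne_zero (by omega), sub_zero]
  have hG0 : G ≠ 0 := by
    intro h
    rw [h, Polynomial.natDegree_zero] at hGd
    omega
  have h1 := Lagrange.leadingCoeff_eq_sum (s := Finset.range (F.natDegree + 1)) (v := y)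
    hinj.injOn (P := G) (by
      rw [Finset.card_range, Polynomial.degree_eq_natDegree hG0, hGd]
      norm_cast)
  rw [hGl] at h1
  have h2 : V F.leadingCoeff ≤ r / r ^ F.natDegree := by
    rw [h1]
    refine na_sum_le hna _ _ (by positivity) fun i hi => ?_
    rw [map_div₀, map_prod]
    have h3 : ∏ j ∈ (Finset.range (F.natDegree + 1)).erase i, V (y i - y j) =
        r ^ F.natDegree := by
      rw [Finset.prod_congr rfl (g := fun _ => r) fun j hj =>
        hy' i j (Finset.ne_of_mem_erase hj).symm, Finset.prod_const,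
        Finset.card_erase_of_mem hi, Finset.card_range, Nat.add_sub_cancel]
    rw [h3]
    refine div_le_div_of_nonneg_right ?_ (by positivity)
    rw [hG, Polynomial.eval_sub, Polynomial.eval_C]
    exact hw i
  rw [le_div_iff₀ (by positivity)] at h2
  exact h2

end lag

section gen

/-- generic sequences -/
theorem gen_seq (U : Ultrafilter ℤ) (P : ℤ → ℤ → Prop)
    (h : ∀ᶠ m in (U : Filter ℤ), ∀ᶠ n in (U : Filter ℤ), P m n) :
    ∃ s : ℕ → ℤ, ∀ i j, i < j → P (s i) (s j) := by
  obtain ⟨s, -, hs⟩ := exists_seq_of_forall_finset_exists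
    (fun m => ∀ᶠ n in (U : Filter ℤ), P m n) P (by
    intro s hs
    have h1 : ∀ᶠ n in (U : Filter ℤ), ∀ x ∈ s, P x n :=
      (Filter.eventually_all_finset s).2 hs
    exact (h.and h1).exists)
  exact ⟨s, hs⟩

theorem sh_le {U : Ultrafilter ℤ} (hU : (U : Filter ℤ) ≤ cofinite) (a : ℤ) :
    ((U.map (fun n => n + a) : Ultrafilter ℤ) : Filter ℤ) ≤ cofinite := by
  have h1 : Tendsto (fun n : ℤ => n + a) cofinite cofinite :=
    (add_left_injective a).tendsto_cofinite
  rw [Ultrafilter.coe_map]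
  exact (Filter.map_mono hU).trans h1

theorem sh_ev {U : Ultrafilter ℤ} (a : ℤ) {P : ℤ → Prop} :
    (∀ᶠ n in ((U.map (fun n => n + a) : Ultrafilter ℤ) : Filter ℤ), P n) ↔
      ∀ᶠ n in (U : Filter ℤ), P (n + a) := by
  rw [Ultrafilter.coe_map, Filter.eventually_map]

end gen

section energy

variable {k : Type v} {K : Type u} [Field k] [Field K] [Algebra k K]

/-- generic differences are bounded -/
def Tv (V : AbsoluteValue K ℝ) (z : ℤ → K) (j : ℤ) : Prop :=
  ∀ U : Ultrafilter ℤ, (U : Filter ℤ) ≤ cofinite →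
    ∀ᶠ m in (U : Filter ℤ), ∀ᶠ n in (U : Filter ℤ), V (z n - z m) ≤ Real.exp j

theorem Tv.step {V : AbsoluteValue K ℝ} (hna : IsNonarchimedean V)
    (hZ : ∀ x : K, x ≠ 0 → ∃ n : ℤ, V x = Real.exp n)
    (F : K[X]) (hd : 2 ≤ F.natDegree) (δ : K) (hδ : V δ ≤ 1) (z : ℤ → K)
    (hz : ∀ n, z (n + 2) = F.eval (z (n + 1)) - δ * z n) {j : ℤ} (hj : Tv V z j)
    (hlarge : 1 < V F.leadingCoeff * (Real.exp j) ^ (F.natDegree - 1)) : Tv V z (j - 1) := by
  intro U hU
  by_contra hcon
  rw [← Ultrafilter.eventually_not] at hcon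
  simp_rw [← Ultrafilter.eventually_not] at hcon
  have hj0 := hj U hU
  have hj1 := hj _ (sh_le hU 1)
  have hj2 := hj _ (sh_le hU (-1))
  simp_rw [sh_ev] at hj1 hj2
  have hP : ∀ᶠ m in (U : Filter ℤ), ∀ᶠ n in (U : Filter ℤ), V (z n - z m) = Real.exp j ∧
      V (z (n + 1) - z (m + 1)) ≤ Real.exp j ∧ V (z (n + -1) - z (m + -1)) ≤ Real.exp j := by
    filter_upwards [hcon, hj0, hj1, hj2] with m a1 a2 a3 a4
    filter_upwards [a1, a2, a3, a4] with n b1 b2 b3 b4
    refine ⟨?_, b3, b4⟩
    push Not at b1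
    have hne : z n - z m ≠ 0 := by
      intro h
      rw [h, map_zero] at b1
      exact absurd b1 (not_lt.2 (Real.exp_pos _).le)
    obtain ⟨i, hi⟩ := hZ _ hne
    rw [hi] at b1 b2 ⊢
    rw [Real.exp_lt_exp] at b1
    rw [Real.exp_le_exp] at b2
    have c1 : j - 1 < i := by exact_mod_cast b1
    have c2 : i ≤ j := by exact_mod_cast b2
    rw [show i = j by omega]
  obtain ⟨s, hs⟩ := gen_seq U _ hP
  have h1 := lag V hna F (by omega) (fun i => z (s i)) (Real.exp j) (Real.exp_pos _)
    (fun i l hil => (hs i l hil).1) (by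
    intro i
    rcases Nat.eq_zero_or_pos i with rfl | hi
    · simp only [sub_self, map_zero]
      exact (Real.exp_pos _).le
    · obtain ⟨-, e1, e2⟩ := hs 0 i hi
      have hF : ∀ n, F.eval (z n) = z (n + 1) + δ * z (n + -1) := by
        intro n
        have := hz (n + -1)
        rw [show n + -1 + 2 = n + 1 by ring, show n + -1 + 1 = n by ring] at this
        rw [this]
        ring
      show V (F.eval (z (s i)) - F.eval (z (s 0))) ≤ _
      rw [hF, hF, show z (s i + 1) + δ * z (s i + -1) - (z (s 0 + 1) + δ * z (s 0 + -1)) =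
        (z (s i + 1) - z (s 0 + 1)) + δ * (z (s i + -1) - z (s 0 + -1)) by ring]
      refine (hna _ _).trans (max_le e1 ?_)
      rw [map_mul]
      calc _ ≤ 1 * Real.exp j := mul_le_mul hδ e2 (V.nonneg _) zero_le_one
        _ = _ := one_mul _)
  have h2 : (Real.exp j) ^ F.natDegree = (Real.exp j) ^ (F.natDegree - 1) * Real.exp j := by
    rw [← pow_succ]
    congr 1
    omega
  rw [h2, ← mul_assoc] at h1
  have h3 : (0 : ℝ) < Real.exp j := Real.exp_pos _
  nlinarith

/-- the energy estimate at one place -/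
theorem energy {V : AbsoluteValue K ℝ} (hna : IsNonarchimedean V)
    (hZ : ∀ x : K, x ≠ 0 → ∃ n : ℤ, V x = Real.exp n)
    (F : K[X]) (hd : 2 ≤ F.natDegree) (δ : K) (hδ : V δ ≤ 1) (z : ℤ → K)
    (hz : ∀ n, z (n + 2) = F.eval (z (n + 1)) - δ * z n) (hbd : ∃ R, ∀ n, V (z n) ≤ R)
    (U : Ultrafilter ℤ) (hU : (U : Filter ℤ) ≤ cofinite) :
    ∀ᶠ m in (U : Filter ℤ), ∀ᶠ n in (U : Filter ℤ),
      V ((z n - z m) ^ (F.natDegree - 1) * F.leadingCoeff) ≤ 1 := by
  obtain ⟨R, hR⟩ := hbd
  have hF0 : F.leadingCoeff ≠ 0 := by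
    rw [Ne, Polynomial.leadingCoeff_eq_zero]
    rintro rfl
    simp at hd
  obtain ⟨i₀, hi₀⟩ := hZ _ hF0
  -- the start
  obtain ⟨j₀, hj₀⟩ : ∃ j₀ : ℤ, Tv V z j₀ := by
    obtain ⟨j₀, hj₀⟩ := exists_nat_ge R
    refine ⟨j₀, fun U _ => Filter.Eventually.of_forall fun m => Filter.Eventually.of_forall
      fun n => ?_⟩
    have h1 : V (z n - z m) ≤ R := by
      rw [sub_eq_add_neg]
      refine (hna _ _).trans (max_le (hR n) ?_)
      rw [map_neg_eq_map]
      exact hR m
    have h2 := Real.add_one_le_exp ((j₀ : ℤ) : ℝ)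
    push_cast at h2 ⊢
    linarith
  have hval : ∀ j : ℤ, V F.leadingCoeff * (Real.exp j) ^ (F.natDegree - 1) =
      Real.exp (i₀ + (F.natDegree - 1 : ℕ) * j) := by
    intro j
    rw [hi₀, ← Real.exp_nat_mul, ← Real.exp_add]
  -- descent
  have hdesc : ∀ l : ℕ, Tv V z (j₀ - l) ∨ ∃ j, Tv V z j ∧
      V F.leadingCoeff * (Real.exp j) ^ (F.natDegree - 1) ≤ 1 := by
    intro l
    induction l with
    | zero => left; simpa using hj₀
    | succ l ih =>
      rcases ih with h | h
      · by_cases hl : 1 < V F.leadingCoeff * (Real.exp (j₀ - l : ℤ)) ^ (F.natDegree - 1)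
        · left
          have := Tv.step hna hZ F hd δ hδ z hz h hl
          rw [show j₀ - ((l + 1 : ℕ) : ℤ) = j₀ - l - 1 by push_cast; ring]
          exact this
        · right
          exact ⟨_, h, not_lt.1 hl⟩
      · exact Or.inr h
  obtain ⟨j, hj, hj1⟩ : ∃ j, Tv V z j ∧
      V F.leadingCoeff * (Real.exp j) ^ (F.natDegree - 1) ≤ 1 := by
    rcases hdesc (|i₀| + |j₀|).toNat with h | h
    · refine ⟨_, h, ?_⟩
      rw [hval]
      rw [Real.exp_le_one_iff]
      have h1 : 0 ≤ |i₀| + |j₀| := by positivity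
      rw [Int.toNat_of_nonneg h1]
      have h2 : i₀ + (F.natDegree - 1 : ℕ) * (j₀ - (|i₀| + |j₀|)) ≤ 0 := by
        have a1 := le_abs_self i₀
        have a2 := le_abs_self j₀
        have a3 : (1 : ℤ) ≤ (F.natDegree - 1 : ℕ) := by
          have : 1 ≤ F.natDegree - 1 := by omega
          exact_mod_cast this
        have a4 := abs_nonneg i₀
        nlinarith
      exact_mod_cast h2
    · exact h
  have h1 := hj U hU
  filter_upwards [h1] with m hm
  filter_upwards [hm] with n hn
  rw [map_mul, map_pow]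
  calc V (z n - z m) ^ (F.natDegree - 1) * V F.leadingCoeff ≤
      (Real.exp j) ^ (F.natDegree - 1) * V F.leadingCoeff :=
        mul_le_mul_of_nonneg_right (pow_le_pow_left₀ (V.nonneg _) hn _) (V.nonneg _)
    _ ≤ 1 := by rw [mul_comm]; exact hj1

end energy

end Pool.Agent.R323.HN
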