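import Pool.Agent.R323.HN.E2

/-!
# Bounded orbits of Hénon maps with constant Jacobian lie on a line over the constants
-/

set_option autoImplicit false

namespace Pool.Agent.R323.HN

open Pool.Agent.R323 Pool.Agent.TH450.FG Real Finset Polynomial Filter

universe u v w

variable {k : Type v} {K : Type u} [Field k] [IsAlgClosed k] [CharZero k] [Field K] [Algebra k K]

/-- generic differences have no poles -/
theorem diff_alg (Q : PF.{u, v, w} k K) (hZ : ∀ v (x : K), x ≠ 0 → ∃ n : ℤ, Q.V v x = Real.exp n)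
    (F : K[X]) (hd : 2 ≤ F.natDegree) (δ : k) (hδ : δ ≠ 0) (z : ℤ → K)
    (hz : ∀ n, z (n + 2) = F.eval (z (n + 1)) - algebraMap k K δ * z n)
    (hbd : ∀ v, ∃ R, ∀ n, Q.V v (z n) ≤ R) (U : Ultrafilter ℤ) (hU : (U : Filter ℤ) ≤ cofinite) :
    ∀ᶠ m in (U : Filter ℤ), ∀ᶠ n in (U : Filter ℤ),
      IsAlgebraic k ((z n - z m) ^ (F.natDegree - 1) * F.leadingCoeff) := by
  classical
  have hF0 : F ≠ 0 := by
    rintro rfl
    simp at hd
  have hl0 : F.leadingCoeff ≠ 0 := Polynomial.leadingCoeff_ne_zero.2 hF0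
  -- the bad places
  obtain ⟨S, hS⟩ : ∃ S : Finset Q.Pl, ∀ v, v ∉ S → (∀ i, Q.V v (F.coeff i) ≤ 1) ∧
      Q.V v F.leadingCoeff = 1 := by
    have h1 : ∀ i, ∃ T : Finset Q.Pl, ∀ v, v ∉ T → F.coeff i ≠ 0 → Q.V v (F.coeff i) = 1 := by
      intro i
      by_cases hi : F.coeff i = 0
      · exact ⟨∅, fun v _ h => absurd hi h⟩
      · refine ⟨(Q.fin _ hi).toFinset, fun v hv _ => ?_⟩
        by_contra hne
        exact hv (by simpa using hne)
    choose T hT using h1
    refine ⟨(Finset.range (F.natDegree + 1)).biUnion T, fun v hv => ⟨fun i => ?_, ?_⟩⟩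
    · by_cases hi : F.coeff i = 0
      · rw [hi, map_zero]
        exact zero_le_one
      · refine (hT i v (fun h => hv ?_) hi).le
        refine Finset.mem_biUnion.2 ⟨i, Finset.mem_range.2 ?_, h⟩
        have := Polynomial.le_natDegree_of_ne_zero hi
        omega
    · refine hT F.natDegree v (fun h => hv ?_) hl0
      exact Finset.mem_biUnion.2 ⟨_, Finset.mem_range.2 (Nat.lt_succ_self _), h⟩
  have hgood : ∀ v, v ∉ S → ∀ n, Q.V v (z n) ≤ 1 := fun v hv n =>
    int_of_bd (Q.V v) (Q.na v) F hd (hS v hv).1 (hS v hv).2 _ (Q.triv v δ hδ) z hz (hbd v) n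
  have h1 : ∀ᶠ m in (U : Filter ℤ), ∀ v ∈ S, ∀ᶠ n in (U : Filter ℤ),
      Q.V v ((z n - z m) ^ (F.natDegree - 1) * F.leadingCoeff) ≤ 1 :=
    (Filter.eventually_all_finset S).2 fun v _ =>
      energy (Q.na v) (hZ v) F hd _ (Q.triv v δ hδ).le z hz (hbd v) U hU
  filter_upwards [h1] with m hm
  have h2 : ∀ᶠ n in (U : Filter ℤ), ∀ v ∈ S,
      Q.V v ((z n - z m) ^ (F.natDegree - 1) * F.leadingCoeff) ≤ 1 :=
    (Filter.eventually_all_finset S).2 hm
  filter_upwards [h2] with n hn
  refine alg_of_le Q _ fun v => ?_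
  by_cases hv : v ∈ S
  · exact hn v hv
  · rw [map_mul, map_pow, (hS v hv).2, mul_one]
    refine pow_le_one₀ ((Q.V v).nonneg _) ?_
    rw [sub_eq_add_neg]
    refine (Q.na v _ _).trans (max_le (hgood v hv n) ?_)
    rw [map_neg_eq_map]
    exact hgood v hv m

/-- **Bounded orbits lie on a line over the constants.** -/
theorem line (Q : PF.{u, v, w} k K) (hZ : ∀ v (x : K), x ≠ 0 → ∃ n : ℤ, Q.V v x = Real.exp n)
    (F : K[X]) (hd : 2 ≤ F.natDegree) (δ : k) (hδ : δ ≠ 0) (z : ℤ → K)
    (hz : ∀ n, z (n + 2) = F.eval (z (n + 1)) - algebraMap k K δ * z n)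
    (hinj : ∀ m n, z m = z n → z (m + 1) = z (n + 1) → m = n)
    (hbd : ∀ v, ∃ R, ∀ n, Q.V v (z n) ≤ R) :
    ∃ c l : K, l ≠ 0 ∧ ∀ n, ∃ y : k, z n = c + y • l := by
  classical
  have hF0 : F ≠ 0 := by
    rintro rfl
    simp at hd
  have hl0 : F.leadingCoeff ≠ 0 := Polynomial.leadingCoeff_ne_zero.2 hF0
  have hδ0 : algebraMap k K δ ≠ 0 := by simpa using hδ
  have hd1 : F.natDegree - 1 ≠ 0 := by omega
  -- infinitely many values
  have hrinf : (z '' Set.univ).Infinite := by
    intro hfin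
    have h1 : Set.InjOn (fun n => (z n, z (n + 1))) (Set.univ : Set ℤ) := by
      intro m _ n _ hmn
      have := Prod.mk.inj hmn
      exact hinj m n this.1 this.2
    have h2 : ((fun n => (z n, z (n + 1))) '' (Set.univ : Set ℤ)).Finite := by
      refine (hfin.prod hfin).subset ?_
      rintro _ ⟨n, -, rfl⟩
      exact ⟨⟨n, trivial, rfl⟩, ⟨n + 1, trivial, rfl⟩⟩
    exact Set.infinite_univ (h2.of_finite_image h1)
  obtain ⟨U₀, hU₀, -, hnc₀⟩ := inf_ultra z Set.univ hrinf
  -- the direction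
  have hD := diff_alg Q hZ F hd δ hδ z hz hbd
  obtain ⟨l, hl, hlk⟩ : ∃ l : K, l ≠ 0 ∧ IsAlgebraic k (l ^ (F.natDegree - 1) * F.leadingCoeff) := by
    obtain ⟨m, hm⟩ := (hD U₀ hU₀).exists
    obtain ⟨n, hn, hne⟩ := (hm.and (Ultrafilter.eventually_not.2 (hnc₀ (z m)))).exists
    exact ⟨z n - z m, sub_ne_zero.2 hne, hn⟩
  set L : Submodule k K := Submodule.span k {l} with hL
  have hLmem : ∀ x : K, x ∈ L ↔ ∃ y : k, y • l = x := fun x => Submodule.mem_span_singleton
  have hLmul : ∀ (y : k) (x : K), x ∈ L → algebraMap k K y * x ∈ L := by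
    intro y x hx
    rw [← Algebra.smul_def]
    exact L.smul_mem y hx
  have hLdiv : ∀ (y : k) (x : K), y ≠ 0 → algebraMap k K y * x ∈ L → x ∈ L := by
    intro y x hy hx
    have h1 := L.smul_mem y⁻¹ hx
    rw [Algebra.smul_def, ← mul_assoc, ← map_mul, inv_mul_cancel₀ hy, map_one, one_mul] at h1
    exact h1
  -- the center of each ultrafilter
  have hcen : ∀ U : Ultrafilter ℤ, (U : Filter ℤ) ≤ cofinite → ∃ c : K,
      ∀ᶠ n in (U : Filter ℤ), z n - c ∈ L := by
    intro U hU
    obtain ⟨m, hm⟩ := (hD U hU).exists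
    refine ⟨z m, ?_⟩
    filter_upwards [hm] with n hn
    have hquot : IsAlgebraic k (((z n - z m) / l) ^ (F.natDegree - 1)) := by
      have h1 : ((z n - z m) / l) ^ (F.natDegree - 1) =
          ((z n - z m) ^ (F.natDegree - 1) * F.leadingCoeff) *
          (l ^ (F.natDegree - 1) * F.leadingCoeff)⁻¹ := by
        rw [div_pow]
        have : l ^ (F.natDegree - 1) ≠ 0 := pow_ne_zero _ hl
        field_simp
      rw [h1]
      exact hn.mul hlk.inv
    have h2 : IsAlgebraic k ((z n - z m) / l) := hquot.of_pow (Nat.pos_of_ne_zero hd1)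
    obtain ⟨y, hy⟩ := mem_of_alg h2
    rw [hLmem]
    refine ⟨y, ?_⟩
    rw [Algebra.smul_def, hy, div_mul_cancel₀ _ hl]
  -- the polynomial on each line
  have hpol : ∀ U : Ultrafilter ℤ, (U : Filter ℤ) ≤ cofinite →
      (∀ c, ¬ ∀ᶠ n in (U : Filter ℤ), z n = c) → ∀ c, (∀ᶠ n in (U : Filter ℤ), z n - c ∈ L) →
      ∃ (g : k[X]) (c' : K), g.natDegree = F.natDegree ∧
        ∀ x : K, F.eval (c + l * x) = c' + l * aeval x g := by
    intro U hU hnc c hc
    obtain ⟨c1, hc1⟩ := hcen _ (sh_le hU 1)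
    obtain ⟨c2, hc2⟩ := hcen _ (sh_le hU (-1))
    rw [sh_ev] at hc1 hc2
    set c' := c1 + algebraMap k K δ * c2 with hc'
    have hFz : ∀ᶠ n in (U : Filter ℤ), F.eval (z n) - c' ∈ L := by
      filter_upwards [hc1, hc2] with n h1 h2
      have h3 := hz (n + -1)
      rw [show n + -1 + 2 = n + 1 by ring, show n + -1 + 1 = n by ring] at h3
      have h4 : F.eval (z n) - c' = (z (n + 1) - c1) + algebraMap k K δ * (z (n + -1) - c2) := by
        rw [hc', h3]
        ring
      rw [h4]
      exact L.add_mem h1 (hLmul _ _ h2)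
    let G : K[X] := Polynomial.C l⁻¹ * (F.comp (Polynomial.C c + Polynomial.C l * X) -
      Polynomial.C c')
    have hGe : ∀ x, G.eval x = l⁻¹ * (F.eval (c + l * x) - c') := by
      intro x
      simp only [G, Polynomial.eval_mul, Polynomial.eval_C, Polynomial.eval_sub,
        Polynomial.eval_comp, Polynomial.eval_add, Polynomial.eval_X]
    have hinf : {y : k | ∃ w : k, G.eval (algebraMap k K y) = algebraMap k K w}.Infinite := by
      intro hfin
      have h1 := nc_avoid hnc _ (hfin.image (fun y => c + y • l))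
      obtain ⟨n, hn1, hn2, hn3⟩ := (h1.and (hc.and hFz)).exists
      apply hn1
      obtain ⟨y, hy⟩ := (hLmem _).1 hn2
      obtain ⟨w, hw⟩ := (hLmem _).1 hn3
      have hzn : c + y • l = z n := by rw [hy]; ring
      refine ⟨y, ⟨w, ?_⟩, hzn⟩
      rw [hGe, mul_comm l, ← Algebra.smul_def, hzn, ← hw, Algebra.smul_def]
      field_simp
    obtain ⟨g, hg⟩ := lift_of_inf G hinf
    refine ⟨g, c', ?_, fun x => ?_⟩
    · have h1 : G.natDegree = g.natDegree := by
        rw [hg, Polynomial.natDegree_map]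
      rw [← h1]
      simp only [G]
      rw [Polynomial.natDegree_C_mul (inv_ne_zero hl), Polynomial.natDegree_sub_C,
        Polynomial.natDegree_comp]
      have h2 : (Polynomial.C c + Polynomial.C l * X : K[X]).natDegree = 1 := by
        rw [add_comm, Polynomial.natDegree_add_C, Polynomial.natDegree_C_mul hl,
          Polynomial.natDegree_X]
      rw [h2, mul_one]
    · have h1 := hGe x
      rw [hg, Polynomial.eval_map_algebraMap] at h1
      rw [h1, mul_inv_cancel_left₀ hl]
      ring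
  obtain ⟨c, hc⟩ := hcen U₀ hU₀
  obtain ⟨g₀, c₀', hg₀d, hg₀⟩ := hpol U₀ hU₀ hnc₀ c hc
  -- independence of the line
  have hind : ∀ U : Ultrafilter ℤ, (U : Filter ℤ) ≤ cofinite →
      (∀ c, ¬ ∀ᶠ n in (U : Filter ℤ), z n = c) → ∀ᶠ n in (U : Filter ℤ), z n - c ∈ L := by
    intro U hU hnc
    obtain ⟨e, he⟩ := hcen U hU
    obtain ⟨g, c', hgd, hg⟩ := hpol U hU hnc e he
    set t := (e - c) / l with ht
    have hlt : l * t = e - c := mul_div_cancel₀ _ hl
    have h0 := hg 0
    have h1 := hg 1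
    have h2 := hg₀ t
    have h3 := hg₀ (t + 1)
    rw [mul_zero, add_zero] at h0
    rw [hlt, add_sub_cancel, h0] at h2
    rw [mul_add, hlt, mul_one, show c + (e - c + l) = e + l * 1 by ring, h1] at h3
    have h4 : aeval (t + 1) g₀ - aeval t g₀ = algebraMap k K (g.eval 1 - g.eval 0) := by
      have e1 : aeval (1 : K) g = algebraMap k K (g.eval 1) := by
        rw [← Polynomial.aeval_algebraMap_apply_eq_algebraMap_eval, map_one]
      have e2 : aeval (0 : K) g = algebraMap k K (g.eval 0) := by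
        rw [← Polynomial.aeval_algebraMap_apply_eq_algebraMap_eval, map_zero]
      rw [map_sub, ← e1, ← e2]
      apply mul_left_cancel₀ hl
      linear_combination h2 - h3
    have h5 := shift_alg g₀ (by omega) t _ h4
    obtain ⟨y, hy⟩ := mem_of_alg h5
    have h6 : e - c ∈ L := by
      rw [hLmem]
      refine ⟨y, ?_⟩
      rw [Algebra.smul_def, hy, mul_comm, hlt]
    filter_upwards [he] with n hn
    have := L.add_mem hn h6
    rwa [sub_add_sub_cancel] at this
  have hFL : ∀ x, x - c ∈ L → F.eval x - F.eval c ∈ L := by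
    intro x hx
    obtain ⟨y, hy⟩ := (hLmem _).1 hx
    have h1 := hg₀ (algebraMap k K y)
    have h2 := hg₀ 0
    rw [mul_zero, add_zero] at h2
    have h3 : c + l * algebraMap k K y = x := by
      rw [mul_comm, ← Algebra.smul_def, hy]
      ring
    rw [h3] at h1
    rw [h1, h2, hLmem]
    refine ⟨g₀.eval y - g₀.eval 0, ?_⟩
    rw [Algebra.smul_def, map_sub, Polynomial.aeval_algebraMap_apply_eq_algebraMap_eval]
    have e2 : aeval (0 : K) g₀ = algebraMap k K (g₀.eval 0) := by
      rw [← Polynomial.aeval_algebraMap_apply_eq_algebraMap_eval, map_zero]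
    rw [e2]
    ring
  -- infinitely many indices
  have hexne : ∀ U : Ultrafilter ℤ, (U : Filter ℤ) ≤ cofinite → ∀ P : ℤ → Prop,
      (∀ᶠ n in (U : Filter ℤ), P n) → ∃ m n, m ≠ n ∧ P m ∧ P n := by
    intro U hU P hP
    obtain ⟨m, hm⟩ := hP.exists
    have h1 : ∀ᶠ n in (U : Filter ℤ), n ≠ m := hU (by
      rw [Filter.mem_cofinite]
      refine (Set.finite_singleton m).subset ?_
      intro n hn
      by_contra hne
      exact hn hne)
    obtain ⟨n, hn, hne⟩ := (hP.and h1).exists
    exact ⟨m, n, hne.symm, hm, hn⟩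
  -- three consecutive
  have hthree : ∀ U : Ultrafilter ℤ, (U : Filter ℤ) ≤ cofinite →
      (∀ᶠ n in (U : Filter ℤ), z (n + 1) - c ∈ L) → (∀ᶠ n in (U : Filter ℤ), z (n + 2) - c ∈ L) →
      (∀ᶠ n in (U : Filter ℤ), z (n + 3) - c ∈ L) →
      F.eval c - c - algebraMap k K δ * c ∈ L := by
    intro U hU h1 h2 h3
    obtain ⟨n, a1, a2, a3⟩ := (h1.and (h2.and h3)).exists
    have h4 := hz (n + 1)
    rw [show n + 1 + 2 = n + 3 by ring, show n + 1 + 1 = n + 2 by ring] at h4
    have h5 := hFL _ a2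
    have h6 : F.eval c - c - algebraMap k K δ * c = (z (n + 3) - c) +
        algebraMap k K δ * (z (n + 1) - c) - (F.eval (z (n + 2)) - F.eval c) := by
      rw [h4]
      ring
    rw [h6]
    exact L.sub_mem (L.add_mem a3 (hLmul _ _ a1)) h5
  have hall : ∀ U : Ultrafilter ℤ, (U : Filter ℤ) ≤ cofinite →
      ∀ᶠ n in (U : Filter ℤ), z n - c ∈ L := by
    intro U hU
    by_contra hcon
    obtain ⟨c₀, hc₀⟩ : ∃ c₀, ∀ᶠ n in (U : Filter ℤ), z n = c₀ := by
      by_contra h
      push Not at h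
      exact hcon (hind U hU fun c => Ultrafilter.eventually_not.1 (h c))
    have hc₀L : c₀ - c ∉ L := by
      intro h
      apply hcon
      filter_upwards [hc₀] with n hn
      rw [hn]
      exact h
    have hnc1 : ∀ c, ¬ ∀ᶠ n in ((U.map (fun n => n + 1) : Ultrafilter ℤ) : Filter ℤ), z n = c := by
      intro c₁ h
      rw [sh_ev] at h
      obtain ⟨m, n, hmn, ⟨a1, a2⟩, b1, b2⟩ := hexne U hU _ (hc₀.and h)
      exact hmn (hinj m n (a1.trans b1.symm) (a2.trans b2.symm))
    have hroot : ∀ p : K[X], p ≠ 0 → ∀ᶠ n in (U : Filter ℤ), p.eval (z (n + 1)) ≠ 0 := by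
      intro p hp
      have := nc_root hnc1 p hp
      rwa [sh_ev] at this
    have hz2 : ∀ᶠ n in (U : Filter ℤ), z (n + 2) = F.eval (z (n + 1)) - algebraMap k K δ * c₀ := by
      filter_upwards [hc₀] with n hn
      rw [hz, hn]
    have hnc2 : ∀ c, ¬ ∀ᶠ n in ((U.map (fun n => n + 2) : Ultrafilter ℤ) : Filter ℤ), z n = c := by
      intro c₂ h
      rw [sh_ev] at h
      have h1 := hroot (F - Polynomial.C (c₂ + algebraMap k K δ * c₀)) (by
        intro h0
        have := congrArg Polynomial.natDegree h0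
        rw [Polynomial.natDegree_sub_C, Polynomial.natDegree_zero] at this
        omega)
      obtain ⟨n, a1, a2, a3⟩ := (h.and (hz2.and h1)).exists
      apply a3
      rw [Polynomial.eval_sub, Polynomial.eval_C, ← a1, a2]
      ring
    have hnc3 : ∀ c, ¬ ∀ᶠ n in ((U.map (fun n => n + 3) : Ultrafilter ℤ) : Filter ℤ), z n = c := by
      intro c₃ h
      rw [sh_ev] at h
      set H : K[X] := F.comp (F - Polynomial.C (algebraMap k K δ * c₀)) -
        (Polynomial.C (algebraMap k K δ) * X + Polynomial.C c₃) with hH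
      have hHd : H ≠ 0 := by
        intro h0
        have h1 : F.comp (F - Polynomial.C (algebraMap k K δ * c₀)) =
          Polynomial.C (algebraMap k K δ) * X + Polynomial.C c₃ := sub_eq_zero.1 h0
        have h2 := congrArg Polynomial.natDegree h1
        rw [Polynomial.natDegree_comp, Polynomial.natDegree_sub_C, Polynomial.natDegree_add_C,
          Polynomial.natDegree_C_mul hδ0, Polynomial.natDegree_X] at h2
        nlinarith
      have h1 := hroot H hHd
      obtain ⟨n, a1, a2, a3⟩ := (h.and (hz2.and h1)).exists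
      apply a3
      have h3 := hz (n + 1)
      rw [show n + 1 + 2 = n + 3 by ring, show n + 1 + 1 = n + 2 by ring, a1, a2] at h3
      rw [hH]
      simp only [Polynomial.eval_sub, Polynomial.eval_comp, Polynomial.eval_add,
        Polynomial.eval_mul, Polynomial.eval_C, Polynomial.eval_X]
      rw [h3]
      ring
    have d1 := hind _ (sh_le hU 1) hnc1
    have d2 := hind _ (sh_le hU 2) hnc2
    have d3 := hind _ (sh_le hU 3) hnc3
    rw [sh_ev] at d1 d2 d3
    have h4 := hthree U hU d1 d2 d3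
    obtain ⟨n, a1, a2, a3⟩ := (d1.and (d2.and hz2)).exists
    have h5 := hFL _ a1
    apply hc₀L
    apply hLdiv δ _ hδ
    have h6 : algebraMap k K δ * (c₀ - c) = (F.eval (z (n + 1)) - F.eval c) -
        (z (n + 2) - c) + (F.eval c - c - algebraMap k K δ * c) := by
      rw [a3]
      ring
    rw [h6]
    exact L.add_mem (L.sub_mem h5 a2) h4
  -- finitely many exceptions
  have hfin : {n : ℤ | z n - c ∉ L}.Finite := by
    by_contra hinf
    obtain ⟨U, hU, hUA⟩ := ex_ultra _ hinf
    obtain ⟨n, a1, a2⟩ := (hUA.and (hall U hU)).exists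
    exact a1 a2
  have hconst : F.eval c - c - algebraMap k K δ * c ∈ L := by
    refine hthree U₀ hU₀ ?_ ?_ ?_
    · have := hall _ (sh_le hU₀ 1)
      rwa [sh_ev] at this
    · have := hall _ (sh_le hU₀ 2)
      rwa [sh_ev] at this
    · have := hall _ (sh_le hU₀ 3)
      rwa [sh_ev] at this
  obtain ⟨M, hM⟩ := hfin.bddAbove
  have hlarge : ∀ n, M < n → z n - c ∈ L := by
    intro n hn
    by_contra h
    exact absurd (hM h) (not_le.2 hn)
  have hback : ∀ n, z (n + 1) - c ∈ L → z (n + 2) - c ∈ L → z n - c ∈ L := by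
    intro n h1 h2
    apply hLdiv δ _ hδ
    have h5 := hFL _ h1
    have h6 : algebraMap k K δ * (z n - c) = (F.eval (z (n + 1)) - F.eval c) -
        (z (n + 2) - c) + (F.eval c - c - algebraMap k K δ * c) := by
      rw [hz n]
      ring
    rw [h6]
    exact L.add_mem (L.sub_mem h5 h2) hconst
  have hdown : ∀ i : ℕ, z (M + 1 - i) - c ∈ L ∧ z (M + 2 - i) - c ∈ L := by
    intro i
    induction i with
    | zero => exact ⟨hlarge _ (by push_cast; linarith), hlarge _ (by push_cast; linarith)⟩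
    | succ i ih =>
      have e1 : M + 2 - ((i + 1 : ℕ) : ℤ) = M + 1 - i := by push_cast; ring
      rw [e1]
      refine ⟨hback _ ?_ ?_, ih.1⟩
      · rw [show M + 1 - ((i + 1 : ℕ) : ℤ) + 1 = M + 1 - i by push_cast; ring]
        exact ih.1
      · rw [show M + 1 - ((i + 1 : ℕ) : ℤ) + 2 = M + 2 - i by push_cast; ring]
        exact ih.2
  refine ⟨c, l, hl, fun n => ?_⟩
  have h1 : z n - c ∈ L := by
    by_cases hn : M < n
    · exact hlarge n hn
    · push Not at hn
      have := (hdown (M + 1 - n).toNat).1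
      rw [Int.toNat_of_nonneg (by linarith)] at this
      rwa [show M + 1 - (M + 1 - n) = n by ring] at this
  obtain ⟨y, hy⟩ := (hLmem _).1 h1
  exact ⟨y, by rw [hy]; ring⟩

end Pool.Agent.R323.HN
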