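import Pool.Agent.R323.HN.D2
import Pool.Agent.R323.HN.E3

/-!
# Residues and finite-dimensional spaces of functions
-/

set_option autoImplicit false

namespace Pool.Agent.R323.HN

open Pool.Agent.R323 Pool.Agent.TH450.FG Real Finset Polynomial

universe u v w

section resid

variable {k : Type v} {K : Type u} [Field k] [IsAlgClosed k] [Field K] [Algebra k K]
  (V : AbsoluteValue K ℝ)

theorem poly_one (hk : ∀ c : k, c ≠ 0 → V (algebraMap k K c) = 1) (x : K)
    (hx : ∀ c : k, V (x - algebraMap k K c) = 1) (n : ℕ) :
    ∀ p : k[X], p.natDegree = n → p ≠ 0 → V (aeval x p) = 1 := by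
  induction n with
  | zero =>
    intro p hp hp0
    rw [Polynomial.eq_C_of_natDegree_eq_zero hp, Polynomial.aeval_C]
    refine hk _ fun h0 => hp0 ?_
    rw [Polynomial.eq_C_of_natDegree_eq_zero hp, h0, Polynomial.C_0]
  | succ n ih =>
    intro p hp hp0
    obtain ⟨c, hc⟩ := IsAlgClosed.exists_root p (by
      intro h
      have h1 : p.natDegree = 0 := Polynomial.natDegree_eq_zero_iff_degree_le_zero.2 h.le
      omega)
    obtain ⟨q, rfl⟩ := Polynomial.dvd_iff_isRoot.2 hc
    have hq0 : q ≠ 0 := right_ne_zero_of_mul hp0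
    rw [map_mul, map_mul, map_sub, Polynomial.aeval_X, Polynomial.aeval_C, hx, one_mul]
    refine ih q ?_ hq0
    rw [Polynomial.natDegree_mul (Polynomial.X_sub_C_ne_zero c) hq0,
      Polynomial.natDegree_X_sub_C] at hp
    omega

/-- the residue field of a nontrivial place is the constant field -/
theorem resid (hna : IsNonarchimedean V) (hk : ∀ c : k, c ≠ 0 → V (algebraMap k K c) = 1)
    (hnt : ∃ u : K, u ≠ 0 ∧ V u ≠ 1)
    (hK : ∃ t : K, Transcendental k t ∧ Algebra.IsAlgebraic (IntermediateField.adjoin k {t}) K)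
    (x : K) (hx : V x ≤ 1) : ∃ c : k, V (x - algebraMap k K c) < 1 := by
  by_contra hcon
  push Not at hcon
  have hk1 : ∀ c : k, V (algebraMap k K c) ≤ 1 := by
    intro c
    by_cases hc : c = 0
    · rw [hc]; simp
    · exact (hk c hc).le
  have hx1 : ∀ c : k, V (x - algebraMap k K c) = 1 := by
    intro c
    refine le_antisymm ?_ (hcon c)
    rw [sub_eq_add_neg]
    refine (hna _ _).trans (max_le hx ?_)
    rw [map_neg_eq_map]
    exact hk1 c
  have hxt : Transcendental k x := by
    intro h
    obtain ⟨y, hy⟩ := mem_of_alg h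
    have := hx1 y
    rw [hy, sub_self, map_zero] at this
    exact zero_ne_one this
  obtain ⟨t, ht, hta⟩ := hK
  have hxa : ∀ u : K, IsAlgebraic (IntermediateField.adjoin k {x}) u := by
    have h1 := exch (hta.isAlgebraic x) hxt
    intro u
    have h2 := hta.isAlgebraic u
    rw [← Pool.Agent.Z864.UB.mem_cl] at h1 h2 ⊢
    refine Pool.Agent.Z864.UB.cl_cl ?_ h2
    rintro _ rfl
    exact h1
  have hadj : ∀ c : IntermediateField.adjoin k {x}, c ≠ 0 → V (c : K) = 1 := by
    intro c hc
    obtain ⟨p, q, hpq⟩ := (IntermediateField.mem_adjoin_simple_iff k (c : K)).1 c.2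
    have hc' : (c : K) ≠ 0 := by simpa using hc
    have hp : p ≠ 0 := by
      rintro rfl
      apply hc'
      rw [hpq, map_zero, zero_div]
    have hq : q ≠ 0 := by
      rintro rfl
      apply hc'
      rw [hpq, map_zero, div_zero]
    rw [hpq, map_div₀, poly_one V hk x hx1 _ p rfl hp, poly_one V hk x hx1 _ q rfl hq, div_one]
  have hle : ∀ u : K, V u ≤ 1 := by
    intro u
    by_contra hu
    push Not at hu
    obtain ⟨g, hg0, hg⟩ := hxa u
    have hn0 : g.natDegree ≠ 0 := by
      intro h0
      rw [Polynomial.eq_C_of_natDegree_eq_zero h0, Polynomial.aeval_C] at hg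
      apply hg0
      rw [Polynomial.eq_C_of_natDegree_eq_zero h0]
      have : g.coeff 0 = 0 := by simpa using hg
      rw [this, Polynomial.C_0]
    have h5 := eval_large V hna (g.map (algebraMap (IntermediateField.adjoin k {x}) K)) (fun i => by
        rw [Polynomial.coeff_map]
        by_cases hz : g.coeff i = 0
        · rw [hz]; simp
        · exact (hadj _ hz).le) (by
        rw [Polynomial.leadingCoeff_map]
        exact hadj _ (Polynomial.leadingCoeff_ne_zero.2 hg0)) u hu (by
        rw [Polynomial.natDegree_map]; omega)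
    rw [Polynomial.eval_map_algebraMap, hg, map_zero] at h5
    have : (0 : ℝ) < V u ^ (g.map (algebraMap (IntermediateField.adjoin k {x}) K)).natDegree := by
      positivity
    linarith
  obtain ⟨u, hu0, hu⟩ := hnt
  apply hu
  refine le_antisymm (hle u) ?_
  have h1 := hle u⁻¹
  rw [map_inv₀] at h1
  exact (inv_le_one₀ (V.pos hu0)).1 h1

/-- the residue map -/
theorem ex_res (hna : IsNonarchimedean V) (hk : ∀ c : k, c ≠ 0 → V (algebraMap k K c) = 1)
    (hres : ∀ x : K, V x ≤ 1 → ∃ c : k, V (x - algebraMap k K c) < 1) :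
    ∃ (O : Subalgebra k K) (ρ : O →ₐ[k] k), (∀ x, x ∈ O ↔ V x ≤ 1) ∧
      ∀ x : O, V ((x : K) - algebraMap k K (ρ x)) < 1 := by
  have hk1 : ∀ c : k, V (algebraMap k K c) ≤ 1 := by
    intro c
    by_cases hc : c = 0
    · rw [hc]; simp
    · exact (hk c hc).le
  have huniq : ∀ (x : K) (c c' : k), V (x - algebraMap k K c) < 1 →
      V (x - algebraMap k K c') < 1 → c = c' := by
    intro x c c' h1 h2
    by_contra hne
    have h3 := hk (c - c') (sub_ne_zero.2 hne)
    have h4 : algebraMap k K (c - c') = (x - algebraMap k K c') + -(x - algebraMap k K c) := by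
      rw [map_sub]
      ring
    rw [h4] at h3
    have h5 := hna (x - algebraMap k K c') (-(x - algebraMap k K c))
    rw [h3, map_neg_eq_map] at h5
    exact absurd h5 (not_le.2 (max_lt h2 h1))
  let O : Subalgebra k K :=
    { carrier := {x | V x ≤ 1}
      mul_mem' := by
        intro a b ha hb
        show V (a * b) ≤ 1
        rw [map_mul]
        exact mul_le_one₀ ha (V.nonneg _) hb
      one_mem' := by
        show V 1 ≤ 1
        rw [map_one]
      add_mem' := by
        intro a b ha hb
        exact (hna a b).trans (max_le ha hb)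
      zero_mem' := by
        show V 0 ≤ 1
        rw [map_zero]
        exact zero_le_one
      algebraMap_mem' := hk1 }
  have hO : ∀ x : O, V (x : K) ≤ 1 := fun x => x.2
  choose r hr using fun x : O => hres x (hO x)
  refine ⟨O, { toFun := r, map_one' := ?_, map_mul' := ?_, map_zero' := ?_, map_add' := ?_,
               commutes' := ?_ }, fun x => Iff.rfl, hr⟩
  · refine huniq _ _ _ (hr 1) ?_
    rw [map_one]
    show V ((1 : K) - 1) < 1
    rw [sub_self, map_zero]
    exact one_pos
  · intro a b
    refine huniq _ _ _ (hr _) ?_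
    show V ((a : K) * b - _) < 1
    rw [map_mul, show (a : K) * b - algebraMap k K (r a) * algebraMap k K (r b) =
      a * (b - algebraMap k K (r b)) + algebraMap k K (r b) * (a - algebraMap k K (r a)) by ring]
    refine (hna _ _).trans_lt (max_lt ?_ ?_)
    · rw [map_mul]
      exact mul_lt_one_of_nonneg_of_lt_one_right (hO a) (V.nonneg _) (hr b)
    · rw [map_mul]
      exact mul_lt_one_of_nonneg_of_lt_one_right (hk1 _) (V.nonneg _) (hr a)
  · refine huniq _ _ _ (hr 0) ?_
    rw [map_zero]
    show V ((0 : K) - 0) < 1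
    rw [sub_self, map_zero]
    exact one_pos
  · intro a b
    refine huniq _ _ _ (hr _) ?_
    show V ((a : K) + b - _) < 1
    rw [map_add, show (a : K) + b - (algebraMap k K (r a) + algebraMap k K (r b)) =
      (a - algebraMap k K (r a)) + (b - algebraMap k K (r b)) by ring]
    exact (hna _ _).trans_lt (max_lt (hr a) (hr b))
  · intro c
    refine huniq _ _ _ (hr _) ?_
    show V (algebraMap k K c - algebraMap k K c) < 1
    rw [sub_self, map_zero]
    exact one_pos

end resid

section fd

variable {k : Type v} {K : Type u} [Field k] [Field K] [Algebra k K]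

/-- spaces with bounded orders at one place are finite-dimensional -/
theorem fd (V : AbsoluteValue K ℝ) (hna : IsNonarchimedean V)
    (hk : ∀ c : k, c ≠ 0 → V (algebraMap k K c) = 1)
    (hZ : ∀ x : K, x ≠ 0 → ∃ n : ℤ, V x = Real.exp n)
    (hres : ∀ x : K, V x ≤ 1 → ∃ c : k, V (x - algebraMap k K c) < 1) (M : ℤ) (n : ℕ) :
    ∀ W : Submodule k K, (∀ w ∈ W, V w ≤ Real.exp ((M + n : ℤ) : ℝ)) →
      (∀ w ∈ W, w ≠ 0 → Real.exp (M : ℝ) < V w) → W.FG := by
  have hk1 : ∀ c : k, V (algebraMap k K c) ≤ 1 := by
    intro c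
    by_cases hc : c = 0
    · rw [hc]; simp
    · exact (hk c hc).le
  induction n with
  | zero =>
    intro W h1 h2
    have h3 : W = ⊥ := by
      rw [Submodule.eq_bot_iff]
      intro w hw
      by_contra hne
      have h4 := h1 w hw
      have h5 := h2 w hw hne
      rw [Nat.cast_zero, add_zero] at h4
      exact absurd h4 (not_le.2 h5)
    rw [h3]
    exact Submodule.fg_bot
  | succ n ih =>
    intro W h1 h2
    by_cases hcase : ∀ w ∈ W, V w ≤ Real.exp ((M + n : ℤ) : ℝ)
    · exact ih W hcase h2
    · push Not at hcase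
      obtain ⟨y, hy, hyV⟩ := hcase
      have hval : ∀ w ∈ W, V w < V y → V w ≤ Real.exp ((M + n : ℤ) : ℝ) := by
        intro w hw hlt
        by_cases hw0 : w = 0
        · rw [hw0, map_zero]
          exact (Real.exp_pos _).le
        have h3 := h1 y hy
        obtain ⟨j, hj⟩ := hZ w hw0
        obtain ⟨j', hj'⟩ := hZ y (by
          rintro rfl
          rw [map_zero] at hyV
          exact absurd hyV (not_lt.2 (Real.exp_pos _).le))
        rw [hj] at hlt ⊢
        rw [hj'] at hlt h3
        rw [Real.exp_lt_exp] at hlt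
        rw [Real.exp_le_exp] at h3 ⊢
        have h4 : j < j' := by exact_mod_cast hlt
        have h5 : j' ≤ M + (n + 1 : ℕ) := by exact_mod_cast h3
        have h6 : j ≤ M + n := by push_cast at h5; omega
        exact_mod_cast h6
      have hy0 : y ≠ 0 := by
        rintro rfl
        rw [map_zero] at hyV
        exact absurd hyV (not_lt.2 (Real.exp_pos _).le)
      have hymax : ∀ w ∈ W, V w ≤ V y := by
        intro w hw
        have h3 := h1 w hw
        obtain ⟨j', hj'⟩ := hZ y hy0
        rw [hj'] at hyV ⊢
        rw [Real.exp_lt_exp] at hyV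
        refine h3.trans (Real.exp_le_exp.2 ?_)
        have h4 : M + n < j' := by exact_mod_cast hyV
        have h5 : M + (n + 1 : ℕ) ≤ j' := by push_cast; omega
        exact_mod_cast h5
      let W' : Submodule k K :=
        { carrier := {w | w ∈ W ∧ V w ≤ Real.exp ((M + n : ℤ) : ℝ)}
          add_mem' := by
            rintro a b ⟨ha, ha'⟩ ⟨hb, hb'⟩
            exact ⟨W.add_mem ha hb, (hna a b).trans (max_le ha' hb')⟩
          zero_mem' := ⟨W.zero_mem, by rw [map_zero]; exact (Real.exp_pos _).le⟩
          smul_mem' := by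
            rintro c a ⟨ha, ha'⟩
            refine ⟨W.smul_mem c ha, ?_⟩
            rw [Algebra.smul_def, map_mul]
            calc _ ≤ 1 * V a := mul_le_mul_of_nonneg_right (hk1 c) (V.nonneg _)
              _ ≤ _ := by rw [one_mul]; exact ha' }
      have hW' : W'.FG := ih W' (fun w hw => hw.2) fun w hw => h2 w hw.1
      have hle : W ≤ W' ⊔ Submodule.span k {y} := by
        intro w hw
        obtain ⟨c, hc⟩ := hres (w / y) (by
          rw [map_div₀, div_le_one₀ (V.pos hy0)]
          exact hymax w hw)
        have hmem : w - c • y ∈ W := W.sub_mem hw (W.smul_mem c hy)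
        have hlt : V (w - c • y) < V y := by
          have h3 : w - c • y = (w / y - algebraMap k K c) * y := by
            rw [Algebra.smul_def]
            field_simp
          rw [h3, map_mul]
          exact mul_lt_of_lt_one_left (V.pos hy0) hc
        have h4 : w = (w - c • y) + c • y := by ring
        rw [h4]
        refine Submodule.add_mem_sup ⟨hmem, hval _ hmem hlt⟩ ?_
        exact Submodule.smul_mem _ _ (Submodule.mem_span_singleton_self y)
      exact (hW'.sup (Submodule.fg_span_singleton y)).of_le hle

end fd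

end Pool.Agent.R323.HN
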