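import Pool.Agent.R323.HN.G

/-!
# The Jacobian of a Hénon map with a bounded orbit is constant
-/

set_option autoImplicit false

namespace Pool.Agent.R323.HN

open Pool.Agent.R323 Pool.Agent.TH450.FG Real Finset Polynomial

universe u v w

section red

variable {k : Type v} {K : Type u} [Field k] [IsAlgClosed k] [Field K] [Algebra k K]

/-- reduction of an orbit at a good place -/
theorem res_data (V : AbsoluteValue K ℝ) (hna : IsNonarchimedean V)
    (hk : ∀ c : k, c ≠ 0 → V (algebraMap k K c) = 1)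
    (hres : ∀ x : K, V x ≤ 1 → ∃ c : k, V (x - algebraMap k K c) < 1)
    (F : K[X]) (hc : ∀ i, V (F.coeff i) ≤ 1) (hl : V F.leadingCoeff = 1) (δ : K) (hδ : V δ ≤ 1)
    (c : k) (hδc : V (δ - algebraMap k K c) < 1) (z : ℤ → K)
    (hz : ∀ n, z (n + 2) = F.eval (z (n + 1)) - δ * z n) (hz1 : ∀ n, V (z n) ≤ 1) :
    ∃ (s : ℤ → k) (G : k[X]), G.natDegree = F.natDegree ∧
      (∀ n, V (z n - algebraMap k K (s n)) < 1) ∧
      (∀ n, s (n + 2) = G.eval (s (n + 1)) - c * s n) ∧
      ∀ (T : Finset ℤ) (l : ℤ → k) (n : ℤ), z n = ∑ j ∈ T, l j • z j →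
        s n = ∑ j ∈ T, l j * s j := by
  classical
  have hk1 : ∀ c : k, V (algebraMap k K c) ≤ 1 := by
    intro c
    by_cases hc : c = 0
    · rw [hc]; simp
    · exact (hk c hc).le
  obtain ⟨O, ρ, hO, hρ⟩ := ex_res V hna hk hres
  have huniq : ∀ (x : O) (c : k), V ((x : K) - algebraMap k K c) < 1 → ρ x = c := by
    intro x c h2
    by_contra hne
    have h3 := hk (ρ x - c) (sub_ne_zero.2 hne)
    have h4 : algebraMap k K (ρ x - c) = ((x : K) - algebraMap k K c) +
        -(x - algebraMap k K (ρ x)) := by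
      rw [map_sub]
      ring
    rw [h4] at h3
    have h5 := hna ((x : K) - algebraMap k K c) (-(x - algebraMap k K (ρ x)))
    rw [h3, map_neg_eq_map] at h5
    exact absurd h5 (not_le.2 (max_lt h2 (hρ x)))
  let zO : ℤ → O := fun n => ⟨z n, (hO _).2 (hz1 n)⟩
  let cO : ℕ → O := fun i => ⟨F.coeff i, (hO _).2 (hc i)⟩
  let δO : O := ⟨δ, (hO _).2 hδ⟩
  let G : k[X] := ∑ i ∈ Finset.range (F.natDegree + 1), Polynomial.C (ρ (cO i)) * X ^ i
  have hGc : ∀ j, G.coeff j = if j < F.natDegree + 1 then ρ (cO j) else 0 := by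
    intro j
    show (∑ i ∈ Finset.range (F.natDegree + 1), Polynomial.C (ρ (cO i)) * X ^ i).coeff j = _
    rw [Polynomial.finsetSum_coeff]
    simp only [Polynomial.coeff_C_mul, Polynomial.coeff_X_pow, mul_ite, mul_one, mul_zero]
    rw [Finset.sum_ite_eq]
    simp
  have hGe : ∀ x : O, G.eval (ρ x) = ρ (∑ i ∈ Finset.range (F.natDegree + 1), cO i * x ^ i) := by
    intro x
    show (∑ i ∈ Finset.range (F.natDegree + 1), Polynomial.C (ρ (cO i)) * X ^ i).eval (ρ x) = _
    rw [Polynomial.eval_finsetSum, map_sum]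
    refine Finset.sum_congr rfl fun i _ => ?_
    rw [Polynomial.eval_mul, Polynomial.eval_C, Polynomial.eval_pow, Polynomial.eval_X, map_mul,
      map_pow]
  refine ⟨fun n => ρ (zO n), G, ?_, fun n => hρ (zO n), fun n => ?_, fun T l n h => ?_⟩
  · refine Polynomial.natDegree_eq_of_le_of_coeff_ne_zero ?_ ?_
    · refine Polynomial.natDegree_sum_le_of_forall_le _ _ fun i hi => ?_
      rw [Finset.mem_range] at hi
      exact (Polynomial.natDegree_C_mul_X_pow_le _ _).trans (by omega)
    · rw [hGc, if_pos (by omega)]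
      intro h0
      have h1 := hρ (cO F.natDegree)
      rw [h0, map_zero, sub_zero] at h1
      exact absurd hl h1.ne
  · have h1 : zO (n + 2) = (∑ i ∈ Finset.range (F.natDegree + 1), cO i * (zO (n + 1)) ^ i) -
        δO * zO n := by
      apply Subtype.ext
      show z (n + 2) = _
      rw [hz, Polynomial.eval_eq_sum_range]
      push_cast
      rfl
    show ρ (zO (n + 2)) = G.eval (ρ (zO (n + 1))) - c * ρ (zO n)
    rw [h1, map_sub, map_mul, hGe, huniq δO c hδc]
  · have h1 : zO n = ∑ j ∈ T, l j • zO j := by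
      apply Subtype.ext
      show z n = _
      rw [h]
      push_cast
      rfl
    show ρ (zO n) = ∑ j ∈ T, l j * ρ (zO j)
    rw [h1, map_sum]
    refine Finset.sum_congr rfl fun j _ => ?_
    rw [map_smul, smul_eq_mul]

end red

section prod

variable {k : Type v} {K : Type u} [Field k] [Field K] [Algebra k K]

/-- a bound for the zeros -/
theorem prodB (Q : PF.{u, v, w} k K) (S : Finset Q.Pl) (R : Q.Pl → ℝ) (hR1 : ∀ v, 1 ≤ R v)
    (hR : ∀ v, v ∉ S → R v = 1) (w : K) (hw : w ≠ 0) (hwR : ∀ v, Q.V v w ≤ R v)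
    (T : Finset Q.Pl) : -(∑ v ∈ S, Q.wt v * log (R v)) ≤ ∑ v ∈ T, Q.wt v * log (Q.V v w) := by
  classical
  obtain ⟨Z, hZ⟩ : ∃ Z, Z = S ∪ T ∪ (Q.fin w hw).toFinset := ⟨_, rfl⟩
  have hlog : ∀ v, Q.wt v * log (Q.V v w) ≤ Q.wt v * log (R v) := fun v =>
    mul_le_mul_of_nonneg_left (log_le_log ((Q.V v).pos hw) (hwR v)) (Q.wt_pos v).le
  have hlogR : ∀ v, 0 ≤ Q.wt v * log (R v) := fun v =>
    mul_nonneg (Q.wt_pos v).le (log_nonneg (hR1 v))
  have h1 : ∑ v ∈ Z, Q.wt v * log (Q.V v w) = 0 := Q.prod _ hw Z fun v hv => by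
    by_contra hne
    exact hv (by rw [hZ]; exact Finset.mem_union_right _ (by simpa using hne))
  have hTZ : T ⊆ Z := by
    rw [hZ]
    exact Finset.subset_union_right.trans Finset.subset_union_left
  rw [← Finset.sum_sdiff hTZ] at h1
  have h2 : ∑ v ∈ Z \ T, Q.wt v * log (Q.V v w) ≤ ∑ v ∈ S, Q.wt v * log (R v) := by
    calc ∑ v ∈ Z \ T, Q.wt v * log (Q.V v w) ≤ ∑ v ∈ Z \ T, Q.wt v * log (R v) :=
          Finset.sum_le_sum fun v _ => hlog v
      _ = ∑ v ∈ (Z \ T) ∩ S, Q.wt v * log (R v) := by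
          symm
          refine Finset.sum_subset Finset.inter_subset_left fun v hv hv' => ?_
          rw [hR v fun h => hv' (Finset.mem_inter.2 ⟨hv, h⟩), log_one, mul_zero]
      _ ≤ _ := Finset.sum_le_sum_of_subset_of_nonneg Finset.inter_subset_right fun v _ _ =>
          hlogR v
  linarith

end prod

section const

variable {k : Type v} {K : Type u} [Field k] [IsAlgClosed k] [CharZero k] [Field K] [Algebra k K]

/-- **The Jacobian is constant.** -/
theorem delta_const (Q : PF.{u, v, w} k K)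
    (hZ : ∀ v (x : K), x ≠ 0 → ∃ n : ℤ, Q.V v x = Real.exp n) (hwt : ∀ v, 1 ≤ Q.wt v)
    (hK : ∃ t : K, Transcendental k t ∧ Algebra.IsAlgebraic (IntermediateField.adjoin k {t}) K)
    (F : K[X]) (hd : 2 ≤ F.natDegree) (δ : K) (hδ : δ ≠ 0) (z : ℤ → K)
    (hz : ∀ n, z (n + 2) = F.eval (z (n + 1)) - δ * z n)
    (hinj : ∀ m n, z m = z n → z (m + 1) = z (n + 1) → m = n)
    (hbd : ∀ v, ∃ R, ∀ n, Q.V v (z n) ≤ R) : IsAlgebraic k δ := by
  classical
  by_contra hδt
  have hF0 : F ≠ 0 := by
    rintro rfl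
    simp at hd
  have hl0 : F.leadingCoeff ≠ 0 := Polynomial.leadingCoeff_ne_zero.2 hF0
  have htr : ∀ v (c : k), Q.V v (algebraMap k K c) ≤ 1 := by
    intro v c
    by_cases hc : c = 0
    · rw [hc]; simp
    · exact (Q.triv v c hc).le
  -- the bad places
  obtain ⟨S, hS⟩ : ∃ S : Finset Q.Pl, ∀ v, v ∉ S → (∀ i, Q.V v (F.coeff i) ≤ 1) ∧
      Q.V v F.leadingCoeff = 1 ∧ Q.V v δ = 1 := by
    have h1 : ∀ i, ∃ T : Finset Q.Pl, ∀ v, v ∉ T → F.coeff i ≠ 0 → Q.V v (F.coeff i) = 1 := by
      intro i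
      by_cases hi : F.coeff i = 0
      · exact ⟨∅, fun v _ h => absurd hi h⟩
      · refine ⟨(Q.fin _ hi).toFinset, fun v hv _ => ?_⟩
        by_contra hne
        exact hv (by simpa using hne)
    choose T hT using h1
    refine ⟨(Finset.range (F.natDegree + 1)).biUnion T ∪ (Q.fin _ hδ).toFinset,
      fun v hv => ⟨fun i => ?_, ?_, ?_⟩⟩
    · by_cases hi : F.coeff i = 0
      · rw [hi, map_zero]
        exact zero_le_one
      · refine (hT i v (fun h => hv ?_) hi).le
        refine Finset.mem_union_left _ (Finset.mem_biUnion.2 ⟨i, Finset.mem_range.2 ?_, h⟩)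
        have := Polynomial.le_natDegree_of_ne_zero hi
        omega
    · refine hT F.natDegree v (fun h => hv ?_) hl0
      exact Finset.mem_union_left _ (Finset.mem_biUnion.2
        ⟨_, Finset.mem_range.2 (Nat.lt_succ_self _), h⟩)
    · by_contra hne
      exact hv (Finset.mem_union_right _ (by simpa using hne))
  have hgood : ∀ v, v ∉ S → ∀ n, Q.V v (z n) ≤ 1 := fun v hv n =>
    int_of_bd (Q.V v) (Q.na v) F hd (hS v hv).1 (hS v hv).2.1 _ (hS v hv).2.2 z hz (hbd v) n
  -- bounds
  choose R₀ hR₀ using hbd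
  let R : Q.Pl → ℝ := fun v => if v ∈ S then max 1 (R₀ v) else 1
  have hR1 : ∀ v, 1 ≤ R v := by
    intro v
    show 1 ≤ if v ∈ S then max 1 (R₀ v) else 1
    split_ifs
    · exact le_max_left _ _
    · exact le_rfl
  have hRS : ∀ v, v ∉ S → R v = 1 := fun v hv => if_neg hv
  have hzR : ∀ v n, Q.V v (z n) ≤ R v := by
    intro v n
    show _ ≤ if v ∈ S then max 1 (R₀ v) else 1
    split_ifs with h
    · exact (hR₀ v n).trans (le_max_right _ _)
    · exact hgood v h n
  let W : Submodule k K := Submodule.span k (Set.range z)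
  have hWR : ∀ w ∈ W, ∀ v, Q.V v w ≤ R v := by
    intro w hw v
    induction hw using Submodule.span_induction with
    | mem x hx =>
      obtain ⟨n, rfl⟩ := hx
      exact hzR v n
    | zero =>
      rw [map_zero]
      exact zero_le_one.trans (hR1 v)
    | add x y _ _ hx hy => exact (Q.na v x y).trans (max_le hx hy)
    | smul c x _ hx =>
      rw [Algebra.smul_def, map_mul]
      calc _ ≤ 1 * Q.V v x := mul_le_mul_of_nonneg_right (htr v c) ((Q.V v).nonneg _)
        _ ≤ _ := by rw [one_mul]; exact hx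
  obtain ⟨B, hB⟩ : ∃ B, B = ∑ v ∈ S, Q.wt v * log (R v) := ⟨_, rfl⟩
  have hprod : ∀ w ∈ W, w ≠ 0 → ∀ T : Finset Q.Pl, -B ≤ ∑ v ∈ T, Q.wt v * log (Q.V v w) := by
    intro w hw hw0 T
    rw [hB]
    exact prodB Q S R hR1 hRS w hw0 (hWR w hw) T
  -- zeros of the Jacobian
  have hzero : ∀ c : k, ∃ v, Q.V v (δ - algebraMap k K c) < 1 := by
    intro c
    by_contra hcon
    push Not at hcon
    apply hδt
    have hne : δ - algebraMap k K c ≠ 0 := by
      intro h
      apply hδt
      rw [sub_eq_zero.1 h]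
      exact isAlgebraic_algebraMap c
    have h1 : IsAlgebraic k (δ - algebraMap k K c)⁻¹ := by
      refine alg_of_le Q _ fun v => ?_
      rw [map_inv₀]
      exact inv_le_one_of_one_le₀ (hcon v)
    have h2 : IsAlgebraic k (δ - algebraMap k K c) := by
      have := h1.inv
      rwa [inv_inv] at this
    have h3 := h2.add (isAlgebraic_algebraMap c)
    rwa [sub_add_cancel] at h3
  choose vc hvc using hzero
  have hvcinj : Function.Injective vc := by
    intro c c' h
    by_contra hne
    have h1 := hvc c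
    have h2 := hvc c'
    rw [← h] at h2
    have h3 := Q.triv (vc c) (c - c') (sub_ne_zero.2 hne)
    have h4 : algebraMap k K (c - c') = (δ - algebraMap k K c') + -(δ - algebraMap k K c) := by
      rw [map_sub]
      ring
    rw [h4] at h3
    have h5 := Q.na (vc c) (δ - algebraMap k K c') (-(δ - algebraMap k K c))
    rw [h3, map_neg_eq_map] at h5
    exact absurd h5 (not_le.2 (max_lt h2 h1))
  have hres : ∀ c (x : K), Q.V (vc c) x ≤ 1 → ∃ y : k, Q.V (vc c) (x - algebraMap k K y) < 1 := by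
    intro c x hx
    refine resid (Q.V (vc c)) (Q.na _) (Q.triv _) ⟨δ - algebraMap k K c, ?_, (hvc c).ne⟩ hK x hx
    intro h
    apply hδt
    rw [sub_eq_zero.1 h]
    exact isAlgebraic_algebraMap c
  -- finite-dimensionality
  have hB0 : 0 ≤ B := by
    rw [hB]
    exact Finset.sum_nonneg fun v _ => mul_nonneg (Q.wt_pos v).le (log_nonneg (hR1 v))
  have hWfg : W.FG := by
    obtain ⟨M, hM⟩ := exists_nat_gt B
    obtain ⟨M', hM'⟩ := exists_nat_gt (log (R (vc 0)))
    refine fd (Q.V (vc 0)) (Q.na _) (Q.triv _) (hZ _) (hres 0) (-(M : ℤ)) (M + M') W ?_ ?_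
    · intro w hw
      refine (hWR w hw _).trans ?_
      have h1 : (0 : ℝ) < R (vc 0) := lt_of_lt_of_le one_pos (hR1 _)
      rw [← Real.exp_log h1, Real.exp_le_exp]
      push_cast
      linarith
    · intro w hw hw0
      have h1 := hprod w hw hw0 {vc 0}
      rw [Finset.sum_singleton] at h1
      rw [← Real.exp_log ((Q.V (vc 0)).pos hw0), Real.exp_lt_exp]
      push_cast
      by_contra hcon
      push Not at hcon
      have h2 := hwt (vc 0)
      nlinarith
  obtain ⟨T, hT⟩ : ∃ T : Finset ℤ, ∀ n, ∃ l : ℤ → k, z n = ∑ j ∈ T, l j • z j := by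
    obtain ⟨s', hs', hsp⟩ := (Submodule.fg_span_iff_fg_span_finset_subset (Set.range z)).1 hWfg
    choose! g hg using fun y (hy : y ∈ s') => hs' (Finset.mem_coe.2 hy)
    refine ⟨s'.image g, fun n => ?_⟩
    have h1 : z n ∈ Submodule.span k (z '' (s'.image g : Finset ℤ)) := by
      have h2 : z n ∈ Submodule.span k (s' : Set K) := by
        rw [← hsp]
        exact Submodule.subset_span ⟨n, rfl⟩
      refine Submodule.span_mono ?_ h2
      intro y hy
      refine ⟨g y, ?_, hg y hy⟩
      rw [Finset.coe_image]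
      exact ⟨y, hy, rfl⟩
    obtain ⟨l, hl⟩ := (Submodule.mem_span_image_finset_iff_exists_fun' k).1 h1
    exact ⟨l, hl.symm⟩
  choose l hl using hT
  -- the good constants
  let I := {c : k // vc c ∉ S}
  have hIinf : Infinite I := by
    have h1 : (vc ⁻¹' (S : Set Q.Pl)).Finite := S.finite_toSet.preimage hvcinj.injOn
    have hk : Infinite k := inferInstance
    have h2 := h1.infinite_compl.to_subtype
    refine Infinite.of_injective (fun c : ↑((vc ⁻¹' (S : Set Q.Pl))ᶜ) => (⟨c.1, c.2⟩ : I)) ?_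
    intro a b hab
    exact Subtype.ext (congrArg (fun z : I => z.1) hab)
  choose s G hG1 hG2 hG3 hG4 using fun c : I => res_data (Q.V (vc c.1)) (Q.na _) (Q.triv _)
    (hres c.1) F (hS _ c.2).1 (hS _ c.2).2.1 δ (hS _ c.2).2.2.le c.1 (hvc c.1) z hz
    (hgood _ c.2)
  obtain ⟨U, hU, -⟩ := ex_ultra Set.univ Set.infinite_univ
  refine lemmaK (fun c : I => c.1) Subtype.val_injective ?_ G (fun c => by rw [hG1]; exact hd)
    s hG3 ?_ U ?_
  · intro c hc0
    have h1 := hvc c.1
    have hc0' : c.1 = 0 := hc0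
    have h2 : δ - algebraMap k K c.1 = δ := by rw [hc0', map_zero, sub_zero]
    rw [h2, (hS _ c.2).2.2] at h1
    exact lt_irrefl _ h1
  · have h1 : (Submodule.span k ((fun (j : ℤ) (n : ℤ) => l n j) '' (T : Set ℤ))).FG :=
      Submodule.fg_span (T.finite_toSet.image _)
    refine h1.of_le ?_
    rw [Submodule.span_le]
    rintro _ ⟨c, rfl⟩
    have h2 : s c = ∑ j ∈ T, s c j • (fun (n : ℤ) => l n j) := by
      funext n
      rw [hG4 c T (l n) n (hl n), Finset.sum_apply]
      refine Finset.sum_congr rfl fun j _ => ?_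
      rw [Pi.smul_apply, smul_eq_mul, mul_comm]
    rw [h2]
    refine Submodule.sum_mem _ fun j hj => Submodule.smul_mem _ _ (Submodule.subset_span ?_)
    exact ⟨j, hj, rfl⟩
  · by_contra hinf
    obtain ⟨M, hM⟩ := exists_nat_gt B
    obtain ⟨C, hC, hCc⟩ := Set.Infinite.exists_subset_card_eq hinf M
    have h1 : ∀ᶠ n in (U : Filter ℤ), ∀ c ∈ C, s c n = (if h : c ∈ C then (hC h).1.choose else 0) ∧
        s c (n + 1) = (if h : c ∈ C then (hC h).2.choose else 0) := by
      rw [Filter.eventually_all_finset]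
      intro c hc
      rw [dif_pos hc, dif_pos hc]
      exact (hC hc).1.choose_spec.and (hC hc).2.choose_spec
    obtain ⟨m, hm⟩ := h1.exists
    have hUm : ∀ᶠ n in (U : Filter ℤ), n ≠ m := hU (by
      rw [Filter.mem_cofinite]
      refine (Set.finite_singleton m).subset ?_
      intro n hn
      by_contra hne
      exact hn hne)
    obtain ⟨n, hn, hnm⟩ := (h1.and hUm).exists
    have hkey : ∀ a b : ℤ, (∀ c ∈ C, s c a = s c b) → z a = z b := by
      intro a b hab
      by_contra hne
      have hw0 : z a - z b ≠ 0 := sub_ne_zero.2 hne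
      have hwW : z a - z b ∈ W := W.sub_mem (Submodule.subset_span ⟨a, rfl⟩)
        (Submodule.subset_span ⟨b, rfl⟩)
      have h2 := hprod _ hwW hw0 (C.image fun c => vc c.1)
      rw [Finset.sum_image fun c _ c' _ h => Subtype.ext (hvcinj h)] at h2
      have h3 : ∀ c ∈ C, Q.wt (vc c.1) * log (Q.V (vc c.1) (z a - z b)) ≤ -1 := by
        intro c hc
        have h4 : Q.V (vc c.1) (z a - z b) < 1 := by
          have h5 : z a - z b = (z a - algebraMap k K (s c a)) +
              -(z b - algebraMap k K (s c b)) := by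
            rw [hab c hc]
            ring
          rw [h5]
          refine (Q.na _ _ _).trans_lt (max_lt (hG2 c a) ?_)
          rw [map_neg_eq_map]
          exact hG2 c b
        obtain ⟨j, hj⟩ := hZ (vc c.1) _ hw0
        rw [hj] at h4 ⊢
        rw [Real.log_exp]
        have h6 : (j : ℝ) < 0 := by
          rw [← Real.exp_zero, Real.exp_lt_exp] at h4
          exact h4
        have h7 : j ≤ -1 := by
          have : j < 0 := by exact_mod_cast h6
          omega
        have h8 : (j : ℝ) ≤ -1 := by exact_mod_cast h7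
        have h9 := hwt (vc c.1)
        nlinarith
      have h4 := Finset.sum_le_sum h3
      rw [Finset.sum_const, hCc, nsmul_eq_mul] at h4
      linarith
    apply hnm
    refine hinj n m (hkey n m fun c hc => ?_) (hkey (n + 1) (m + 1) fun c hc => ?_)
    · rw [(hn c hc).1, (hm c hc).1]
    · rw [(hn c hc).2, (hm c hc).2]

end const

end Pool.Agent.R323.HN
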