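import Pool.Agent.R323.HN.H
import Pool.Agent.TH450.FG.Comp

/-!
# Bounded orbits of Hénon maps over function fields
-/

set_option autoImplicit false

namespace Pool.Agent.R323.HN

open Pool.Agent.R323 Pool.Agent.TH450.FG Real Finset Polynomial

universe u v w

/-- **Bounded orbits over function fields over algebraically closed fields.** -/
theorem ff_closed (k : Type v) (K : Type u) [Field k] [IsAlgClosed k] [CharZero k] [Field K]
    [Algebra k K] (hFG : (⊤ : IntermediateField k K).FG)
    (hK : ∃ t : K, Transcendental k t ∧ Algebra.IsAlgebraic (IntermediateField.adjoin k {t}) K)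
    (F : K[X]) (hd : 2 ≤ F.natDegree) (δ : K) (hδ : δ ≠ 0) (z : ℤ → K)
    (hz : ∀ n, z (n + 2) = F.eval (z (n + 1)) - δ * z n)
    (hinj : ∀ m n, z m = z n → z (m + 1) = z (n + 1) → m = n)
    (hbd : ∀ (Q : PF.{u, v, u} k K) v, ∃ R, ∀ n, Q.V v (z n) ≤ R) :
    ∃ c l : K, l ≠ 0 ∧ ∀ n, ∃ y : k, z n = c + y • l := by
  obtain ⟨Q, hZ, hwt⟩ := exists_PFi k K hFG hK
  obtain ⟨δ', hδ'⟩ := mem_of_alg (delta_const Q hZ hwt hK F hd δ hδ z hz hinj (hbd Q))
  have hδ0 : δ' ≠ 0 := by
    rintro rfl
    rw [map_zero] at hδ'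
    exact hδ hδ'.symm
  refine line Q hZ F hd δ' hδ0 z ?_ hinj (hbd Q)
  intro n
  rw [hδ']
  exact hz n

/-- **Bounded orbits over function fields.** -/
theorem ff (k : Type v) (K : Type u) [Field k] [CharZero k] [Field K]
    [Algebra k K] (hFG : (⊤ : IntermediateField k K).FG)
    (hK : ∃ t : K, Transcendental k t ∧ Algebra.IsAlgebraic (IntermediateField.adjoin k {t}) K)
    (F : K[X]) (hd : 2 ≤ F.natDegree) (δ : K) (hδ : δ ≠ 0) (z : ℤ → K)
    (hz : ∀ n, z (n + 2) = F.eval (z (n + 1)) - δ * z n)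
    (hinj : ∀ m n, z m = z n → z (m + 1) = z (n + 1) → m = n)
    (hbd : ∀ (Q : PF.{u, u, u} (EE k K) (LL k K)) v, ∃ R, ∀ n, Q.V v (phi k K (z n)) ≤ R)
    (a b c e : ℤ) (hce : z c ≠ z e) : IsAlgebraic k ((z a - z b) / (z c - z e)) := by
  have hcl : IsAlgClosed (EE k K) := IsAlgClosure.isAlgClosed k
  have hinjφ : Function.Injective (phi k K) := (phi k K).injective
  obtain ⟨c₀, l, hl, hline⟩ := ff_closed (EE k K) (LL k K) (LL_fg k K hFG) (LL_trans k K hK)
    (F.map (phi k K)) (by rw [Polynomial.natDegree_map]; exact hd) (phi k K δ)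
    (by rw [Ne, map_eq_zero]; exact hδ) (fun n => phi k K (z n)) (by
      intro n
      rw [hz, map_sub, map_mul, Polynomial.eval_map, Polynomial.eval₂_at_apply])
    (by
      intro m n h1 h2
      exact hinj m n (hinjφ h1) (hinjφ h2)) hbd
  choose y hy using hline
  have hy' : ∀ n, phi k K (z n) = c₀ + y n • l := hy
  have h1 : phi k K ((z a - z b) / (z c - z e)) =
      algebraMap (EE k K) (LL k K) ((y a - y b) / (y c - y e)) := by
    have h2 : phi k K (z c - z e) = algebraMap (EE k K) (LL k K) (y c - y e) * l := by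
      rw [map_sub, hy', hy', map_sub, Algebra.smul_def, Algebra.smul_def]
      ring
    have h3 : phi k K (z a - z b) = algebraMap (EE k K) (LL k K) (y a - y b) * l := by
      rw [map_sub, hy', hy', map_sub, Algebra.smul_def, Algebra.smul_def]
      ring
    rw [map_div₀, h2, h3, map_div₀, mul_div_mul_right _ _ hl]
  have h2 := congrArg (fun w : LL k K => (w : AlgebraicClosure K)) h1
  have h3 : algebraMap K (AlgebraicClosure K) ((z a - z b) / (z c - z e)) =
      (((y a - y b) / (y c - y e) : EE k K) : AlgebraicClosure K) := h2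
  refine (isAlgebraic_algebraMap_iff (algebraMap K (AlgebraicClosure K)).injective).mp ?_
  rw [h3]
  exact mem_algebraicClosure_iff.1 ((y a - y b) / (y c - y e) : EE k K).2

end Pool.Agent.R323.HN
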