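import Pool.Agent.R323.HN.Q
import Pool.Agent.H504D.HenonCount

/-!
# Long periodic orbits of Hénon maps
-/

set_option autoImplicit false

namespace Pool.Agent.R323.HN

open Pool.Agent.R323 Polynomial Pool.Agent.H504D

section

variable {L : Type} [Field L]

/-- the Hénon map as a permutation -/
noncomputable def henE (F : L[X]) (δ : L) (hδ : δ ≠ 0) : Equiv.Perm (L × L) where
  toFun := hen F δ
  invFun P := (δ⁻¹ * (F.eval P.1 - P.2), P.1)
  left_inv P := by
    unfold hen
    simp only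
    rw [sub_sub_cancel, inv_mul_cancel_left₀ hδ]
  right_inv P := by
    unfold hen
    simp only
    rw [mul_inv_cancel_left₀ hδ, sub_sub_cancel]

theorem henE_apply (F : L[X]) (δ : L) (hδ : δ ≠ 0) (P : L × L) : henE F δ hδ P = hen F δ P := rfl

theorem henE_iter (F : L[X]) (δ : L) (hδ : δ ≠ 0) (n : ℕ) (P : L × L) :
    ((henE F δ hδ) ^ n) P = (hen F δ)^[n] P := by
  rw [← Equiv.Perm.iterate_eq_pow]
  rfl

/-- **Long periodic orbits.** -/
theorem longH [DecidableEq L] {d : ℕ} (hd : 2 ≤ d) (l : ℕ) (F : L[X]) (hF : F.natDegree = d)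
    (δ : L) (hδ : δ ≠ 0) (S : Finset (L × L)) (hS : d ^ (2 * l).factorial < S.card)
    (hper : ∀ P ∈ S, ∃ n, 0 < n ∧ (hen F δ)^[n] P = P) :
    ∃ P ∈ S, ∃ z : ℤ → L, z 0 = P.1 ∧ z 1 = P.2 ∧
      (∀ k, z (k + 2) = F.eval (z (k + 1)) - δ * z k) ∧ (∃ n : ℕ, 0 < n ∧ ∀ k, z (k + n) = z k) ∧
      ∀ i j : ℤ, |i| ≤ l → |j| ≤ l → z i = z j → z (i + 1) = z (j + 1) → i = j := by
  obtain ⟨P, hP, hlong⟩ : ∃ P ∈ S, ∀ n, 0 < n → n ≤ 2 * l → (hen F δ)^[n] P ≠ P := by
    by_contra hcon
    push Not at hcon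
    have h1 := card_periodic_le F δ S (2 * l).factorial (Nat.factorial_pos _)
      (by rw [hF]; exact hd) (by
      intro P hP
      obtain ⟨n, hn, hnl, hfix⟩ := hcon P hP
      obtain ⟨s, hs⟩ := Nat.dvd_factorial hn hnl
      rw [hs, Function.iterate_mul]
      exact Function.iterate_fixed hfix s)
    rw [hF] at h1
    omega
  obtain ⟨n, hn, hfix⟩ := hper P hP
  let w : ℤ → L × L := fun k => ((henE F δ hδ) ^ k) P
  have hw0 : w 0 = P := by
    show ((henE F δ hδ) ^ (0 : ℤ)) P = P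
    rw [zpow_zero]
    rfl
  have hws : ∀ k, w (k + 1) = hen F δ (w k) := by
    intro k
    show ((henE F δ hδ) ^ (k + 1)) P = _
    rw [add_comm, zpow_add, zpow_one, Equiv.Perm.mul_apply]
    rfl
  have h2 : ∀ k, (w (k + 1)).1 = (w k).2 := by
    intro k
    rw [hws]
    rfl
  refine ⟨P, hP, fun k => (w k).1, congrArg Prod.fst hw0, ?_, ?_, ⟨n, hn, ?_⟩, ?_⟩
  · show (w 1).1 = P.2
    have := h2 0
    rw [zero_add] at this
    rw [this, hw0]
  · intro k
    show (w (k + 2)).1 = F.eval (w (k + 1)).1 - δ * (w k).1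
    rw [show k + 2 = k + 1 + 1 by ring, h2, h2, hws]
    rfl
  · intro k
    show (w (k + n)).1 = (w k).1
    congr 1
    show ((henE F δ hδ) ^ (k + (n : ℤ))) P = ((henE F δ hδ) ^ k) P
    rw [zpow_add, Equiv.Perm.mul_apply, zpow_natCast, henE_iter, hfix]
  · intro i j hi hj h3 h4
    have h5 : w i = w j := by
      apply Prod.ext
      · exact h3
      · rw [← h2, ← h2]
        exact h4
    have key : ∀ i j : ℤ, |i| ≤ l → |j| ≤ l → i < j → w i ≠ w j := by
      intro i j hi hj hij h6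
      have h7 : ((henE F δ hδ) ^ (j - i)) P = P := by
        have h8 : ((henE F δ hδ) ^ i) (((henE F δ hδ) ^ (j - i)) P) = ((henE F δ hδ) ^ i) P := by
          rw [← Equiv.Perm.mul_apply, ← zpow_add, add_sub_cancel]
          exact h6.symm
        exact ((henE F δ hδ) ^ i).injective h8
      obtain ⟨m, hm⟩ := Int.eq_ofNat_of_zero_le (show 0 ≤ j - i by omega)
      rw [hm, zpow_natCast, henE_iter] at h7
      refine hlong m (by omega) ?_ h7
      have := abs_le.1 hi
      have := abs_le.1 hj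
      omega
    rcases lt_trichotomy i j with h | h | h
    · exact absurd h5 (key i j hi hj h)
    · exact h
    · exact absurd h5.symm (key j i hj hi h)

end

end Pool.Agent.R323.HN
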