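import Pool.Agent.R323.HN.W

/-!
# A long orbit determines the Hénon map
-/

set_option autoImplicit false

namespace Pool.Agent.R323.HN

open Polynomial

section

variable {L : Type*} [Field L]

/-- many values -/
theorem many_vals (z : ℕ → L) (M m : ℕ) (hM : m ^ 2 + 5 ≤ M)
    (hinj : ∀ i j, i + 1 < M → j + 1 < M → z i = z j → z (i + 1) = z (j + 1) → i = j) :
    ∃ V : Finset L, m < V.card ∧ ∀ x ∈ V, ∃ n, n + 3 < M ∧ x = z (n + 1) := by
  classical
  refine ⟨(Finset.range (M - 3)).image fun n => z (n + 1), ?_, ?_⟩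
  · by_contra hle
    push Not at hle
    have h1 : (Finset.range (M - 4)).card ≤
        (((Finset.range (M - 3)).image fun n => z (n + 1)) ×ˢ
          ((Finset.range (M - 3)).image fun n => z (n + 1))).card := by
      refine Finset.card_le_card_of_injOn (fun n => (z (n + 1), z (n + 2))) ?_ ?_
      · intro n hn
        have hn' := Finset.mem_range.1 (Finset.mem_coe.1 hn)
        rw [Finset.mem_coe, Finset.mem_product]
        exact ⟨Finset.mem_image.2 ⟨n, Finset.mem_range.2 (by omega), rfl⟩,
          Finset.mem_image.2 ⟨n + 1, Finset.mem_range.2 (by omega), rfl⟩⟩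
      · intro i hi j hj hij
        have hi' := Finset.mem_range.1 (Finset.mem_coe.1 hi)
        have hj' := Finset.mem_range.1 (Finset.mem_coe.1 hj)
        have h2 := Prod.mk.inj hij
        have := hinj (i + 1) (j + 1) (by omega) (by omega) h2.1 h2.2
        omega
    rw [Finset.card_range, Finset.card_product] at h1
    have h2 := Nat.mul_le_mul hle hle
    have h3 : m * m = m ^ 2 := by ring
    omega
  · intro x hx
    obtain ⟨n, hn, rfl⟩ := Finset.mem_image.1 hx
    have hn' := Finset.mem_range.1 hn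
    exact ⟨n, by omega, rfl⟩

/-- **Uniqueness.** -/
theorem uniq {d : ℕ} (hd : 2 ≤ d) (F G : L[X]) (hF : F.natDegree = d) (hG : G.natDegree ≤ d)
    (δ ε : L) (z : ℕ → L) (M : ℕ) (hM : (d ^ 2) ^ 2 + 5 ≤ M)
    (hz : ∀ n, n + 2 < M → z (n + 2) = F.eval (z (n + 1)) - δ * z n)
    (hz' : ∀ n, n + 2 < M → z (n + 2) = G.eval (z (n + 1)) - ε * z n)
    (hinj : ∀ i j, i + 1 < M → j + 1 < M → z i = z j → z (i + 1) = z (j + 1) → i = j) :
    F = G ∧ δ = ε := by
  classical
  obtain ⟨V, hV, hVz⟩ := many_vals z M (d ^ 2) hM hinj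
  have hd2 : d ≤ d ^ 2 := by nlinarith
  have hFG : (F - G).natDegree ≤ d :=
    (Polynomial.natDegree_sub_le _ _).trans (max_le hF.le hG)
  by_cases hδ : δ = ε
  · refine ⟨?_, hδ⟩
    rw [← sub_eq_zero]
    refine Polynomial.eq_zero_of_natDegree_lt_card_of_eval_eq_zero' (F - G) V ?_ (by omega)
    intro x hx
    obtain ⟨n, hn, rfl⟩ := hVz x hx
    have h1 := hz n (by omega)
    rw [hz' n (by omega), hδ] at h1
    rw [Polynomial.eval_sub]
    linear_combination -h1
  · exfalso
    have hne : δ - ε ≠ 0 := sub_ne_zero.2 hδ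
    set H : L[X] := C (δ - ε)⁻¹ * (F - G) with hH
    have hHd : H.natDegree ≤ d := (Polynomial.natDegree_C_mul_le _ _).trans hFG
    have hzH : ∀ n, n + 2 < M → z n = H.eval (z (n + 1)) := by
      intro n hn
      have h1 := hz n hn
      rw [hz' n hn] at h1
      rw [hH, Polynomial.eval_mul, Polynomial.eval_C, Polynomial.eval_sub]
      have h2 : F.eval (z (n + 1)) - G.eval (z (n + 1)) = (δ - ε) * z n := by
        linear_combination -h1
      rw [h2, inv_mul_cancel_left₀ hne]
    set P : L[X] := F - C δ * H with hP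
    have hPd : P.natDegree ≤ d := (Polynomial.natDegree_sub_le _ _).trans
      (max_le hF.le ((Polynomial.natDegree_C_mul_le _ _).trans hHd))
    have hzP : ∀ n, n + 2 < M → z (n + 2) = P.eval (z (n + 1)) := by
      intro n hn
      rw [hP, Polynomial.eval_sub, Polynomial.eval_mul, Polynomial.eval_C, ← hzH n hn]
      exact hz n hn
    have hcomp : H.comp P - X = 0 := by
      refine Polynomial.eq_zero_of_natDegree_lt_card_of_eval_eq_zero' _ V ?_ ?_
      · intro x hx
        obtain ⟨n, hn, rfl⟩ := hVz x hx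
        rw [Polynomial.eval_sub, Polynomial.eval_comp, Polynomial.eval_X, ← hzP n (by omega),
          show n + 2 = n + 1 + 1 by ring, ← hzH (n + 1) (by omega), sub_self]
      · refine lt_of_le_of_lt ?_ hV
        refine (Polynomial.natDegree_sub_le _ _).trans (max_le ?_ ?_)
        · rw [Polynomial.natDegree_comp, pow_two]
          exact Nat.mul_le_mul hHd hPd
        · rw [Polynomial.natDegree_X]
          omega
    have h1 := congrArg Polynomial.natDegree (sub_eq_zero.1 hcomp)
    rw [Polynomial.natDegree_comp, Polynomial.natDegree_X] at h1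
    have h2 : H.natDegree = 1 := Nat.eq_one_of_mul_eq_one_right h1
    have h3 : P.natDegree = 1 := Nat.eq_one_of_mul_eq_one_left h1
    have h4 : P.natDegree = F.natDegree := by
      rw [hP]
      refine Polynomial.natDegree_sub_eq_left_of_natDegree_lt ?_
      exact lt_of_le_of_lt (Polynomial.natDegree_C_mul_le _ _) (by omega)
    omega

/-- **The conjugacy of two maps with similar orbits.** -/
theorem conj_of_orbit {d : ℕ} (hd : 2 ≤ d) (F F' : L[X]) (hF : F.natDegree = d)
    (hF' : F'.natDegree = d) (δ δ' : L) (z z' : ℕ → L) (M : ℕ) (hM : (d ^ 2) ^ 2 + 5 ≤ M)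
    (hz : ∀ n, n + 2 < M → z (n + 2) = F.eval (z (n + 1)) - δ * z n)
    (hz' : ∀ n, n + 2 < M → z' (n + 2) = F'.eval (z' (n + 1)) - δ' * z' n)
    (hinj : ∀ i j, i + 1 < M → j + 1 < M → z i = z j → z (i + 1) = z (j + 1) → i = j)
    (α β : L) (hα : α ≠ 0) (hzz : ∀ n, n < M → z' n = α * z n + β) :
    δ' = δ ∧ ∀ y, F'.eval (α * y + β) = α * F.eval y + β + δ * β := by
  set G : L[X] := C α⁻¹ * (F'.comp (C α * X + C β) - C (β + δ' * β)) with hG
  have hGe : ∀ y, G.eval y = α⁻¹ * (F'.eval (α * y + β) - (β + δ' * β)) := by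
    intro y
    simp only [hG, Polynomial.eval_mul, Polynomial.eval_C, Polynomial.eval_sub,
      Polynomial.eval_comp, Polynomial.eval_add, Polynomial.eval_X]
  have hGd : G.natDegree ≤ d := by
    refine (Polynomial.natDegree_C_mul_le _ _).trans ?_
    rw [Polynomial.natDegree_sub_C, Polynomial.natDegree_comp, hF']
    have h1 : (C α * X + C β : L[X]).natDegree ≤ 1 := by
      rw [Polynomial.natDegree_add_C]
      exact (Polynomial.natDegree_C_mul_le _ _).trans Polynomial.natDegree_X_le
    calc d * (C α * X + C β : L[X]).natDegree ≤ d * 1 := Nat.mul_le_mul_left _ h1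
      _ = d := mul_one _
  obtain ⟨h1, h2⟩ := uniq hd F G hF hGd δ δ' z M hM hz (by
    intro n hn
    have h3 := hz' n hn
    rw [hzz n (by omega), hzz (n + 1) (by omega), hzz (n + 2) hn] at h3
    rw [hGe]
    have h4 : z (n + 2) = α⁻¹ * (α * z (n + 2)) := (inv_mul_cancel_left₀ hα _).symm
    rw [h4]
    have h5 : α * z (n + 2) = F'.eval (α * z (n + 1) + β) - δ' * (α * z n + β) - β := by
      linear_combination h3
    rw [h5]
    field_simp
    ring) hinj
  refine ⟨h2.symm, fun y => ?_⟩
  have h3 := hGe y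
  rw [← h1] at h3
  rw [h3, mul_inv_cancel_left₀ hα, h2]
  ring

end

end Pool.Agent.R323.HN
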