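import Pool.Agent.R323.HN.R
import Pool.Agent.R323.HN.U
import Pool.Agent.R323.NF.M

/-!
# The main theorem for Hénon maps
-/

set_option autoImplicit false

namespace Pool.Agent.R323.HN

open Filter MvPolynomial Pool.Agent.Y902.GN Height Pool.Agent.R323

section

variable {d e Y L D' : ℕ} {a : Fin (d + 1) → Qb} {δ : Qb} {t : Fin (Jc d e) → ℤ} {θ s r : Qb}
  {z : ℤ → Qb}

theorem DtH.ok (h : DtH d e Y L D' a δ t θ s r z) (ha : a (Fin.last d) ≠ 0) (hδ : δ ≠ 0) :
    ((gH d e).mp (evq t θ)).Ok := by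
  constructor
  · show aeval (pq t θ) (gel d e (Sum.inl (Fin.last d))) ≠ 0
    rw [h.el]
    exact mul_ne_zero h.sne ha
  · show aeval (pq t θ) (gel d e (Sum.inr 0)) ≠ 0
    rw [h.el]
    exact h.sne
  · show aeval (pq t θ) (gel d e (Sum.inr 1)) ≠ 0
    rw [h.el]
    exact mul_ne_zero h.sne hδ
  · show aeval (pq t θ) (gel d e (Sum.inr 4)) ≠ 0
    rw [h.el]
    exact h.rne
  · show aeval (pq t θ) (gel d e (Sum.inr 4)) ≠ 0
    rw [h.el]
    exact h.rne

theorem DtH.val (h : DtH d e Y L D' a δ t θ s r z) (ha : a (Fin.last d) ≠ 0) (hδ : δ ≠ 0)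
    (n : ℤ) : ((gH d e).mp (evq t θ)).z n = z n := by
  have hok := h.ok ha hδ
  symm
  have e1 : ((gH d e).mp (evq t θ)).D = s := h.el (Sum.inr 0)
  have e2 : ((gH d e).mp (evq t θ)).Q = s * δ := h.el (Sum.inr 1)
  have e3 : ∀ i, ((gH d e).mp (evq t θ)).A i = s * a i := fun i => h.el (Sum.inl i)
  have e4 : ((gH d e).mp (evq t θ)).p 0 = r * z 0 := h.el (Sum.inr 2)
  have e5 : ((gH d e).mp (evq t θ)).p 1 = r := h.el (Sum.inr 4)
  have e6 : ((gH d e).mp (evq t θ)).q 0 = r * z 1 := h.el (Sum.inr 3)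
  have e7 : ((gH d e).mp (evq t θ)).q 1 = r := h.el (Sum.inr 4)
  refine Wz_unique hok.D hok.Q hok.p hok.q z (fun n => ?_) ?_ ?_ n
  · rw [e1, e2, h.rcr, mul_sub, Finset.mul_sum]
    congr 1
    · refine Finset.sum_congr rfl fun i _ => ?_
      rw [e3]
      ring
    · ring
  · rw [e4, e5, mul_div_cancel_left₀ _ h.rne]
  · rw [e6, e7, mul_div_cancel_left₀ _ h.rne]

end

/-- conjugacy by similar affine maps of the coordinates -/
def CjH {d : ℕ} (D' : ℕ) (a a' : Fin (d + 1) → Qb) (δ δ' : Qb) : Prop :=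
  ∃ α β : Qb, α ≠ 0 ∧ Module.finrank ℚ (IntermediateField.adjoin ℚ {α, β}) ≤ D' ∧ δ' = δ ∧
    ∀ y, ∑ i, a' i * (α * y + β) ^ (i : ℕ) = α * ∑ i, a i * y ^ (i : ℕ) + β + δ * β

/-- **The main theorem for Hénon maps.** -/
theorem mainH (d D B : ℕ) (hd : 2 ≤ d) (hDB : 0 < D * B) (ε : ℝ) (hε : 0 < ε) :
    ∃ (M : ℕ) (C : ℝ), ∀ X : ℕ, 1 ≤ X →
    ∀ (ι : Type) [Fintype ι] (K : ι → IntermediateField ℚ Qb) [∀ a, NumberField (K a)]
      (F : ∀ a, Fin (d + 1) → K a) (δ : ∀ a, K a), (∀ a, HypH d D B M X (K a) (F a) (δ a)) →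
      (∀ a b, a ≠ b → ¬ CjH ((D * B) ^ 2) (fun i => ((F a i : K a) : Qb))
        (fun i => ((F b i : K b) : Qb)) (δ a : Qb) (δ b : Qb)) →
      (Fintype.card ι : ℝ) ≤ C * (X : ℝ) ^ ε := by
  classical
  by_contra hcon
  push Not at hcon
  obtain ⟨Y0, ⟨C0, A0, hC0, hCA⟩, hY01, HD⟩ := DtH.ex d D B hd
  choose X hX1 ι instι K instK F δ hH hcj hcard using fun ν : ℕ =>
    hcon (d ^ (2 * ν).factorial) (ν : ℝ)
  -- the data
  have hdat : ∀ ν, ∀ a : ι ν, ∃ (e : ℕ), e < D * B ∧ ∃ (t : Fin (Jc d e) → ℤ) (θ s r : Qb)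
      (z : ℤ → Qb), DtH d e (Y0 (X ν)) ν (D * B) (fun i => ((F ν a i : K ν a) : Qb))
        (δ ν a : Qb) t θ s r z :=
    fun ν a => HD (X ν) (hX1 ν) ν (K ν a) (F ν a) (δ ν a) (hH ν a)
  choose ef hef hdat using hdat
  have hpos : ∀ ν, 0 < Fintype.card (ι ν) := by
    intro ν
    have h1 := hcard ν
    have h2 : (0 : ℝ) ≤ (ν : ℝ) * (X ν : ℝ) ^ ε := by positivity
    have h3 : (0 : ℝ) < Fintype.card (ι ν) := lt_of_le_of_lt h2 h1
    exact_mod_cast h3
  -- the degree
  have hpig : ∀ ν : ℕ, ∃ e : Fin (D * B), Fintype.card (ι ν) ≤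
      D * B * (Finset.univ.filter fun a : ι ν => ef ν a = (e : ℕ)).card := by
    intro ν
    by_contra hc
    push Not at hc
    obtain ⟨a₀⟩ := Fintype.card_pos_iff.1 (hpos ν)
    have hD : 0 < D * B := hDB
    have h1 : ∀ e ∈ (Finset.univ : Finset (ι ν)).image (ef ν),
        (Finset.univ.filter fun a : ι ν => ef ν a = e).card ≤ (Fintype.card (ι ν) - 1) / (D * B) := by
      intro e he
      obtain ⟨a, -, rfl⟩ := Finset.mem_image.1 he
      have h2 := hc ⟨ef ν a, hef ν a⟩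
      rw [Nat.le_div_iff_mul_le hD, mul_comm]
      simp only at h2
      omega
    have h2 := Finset.card_le_mul_card_image _ _ h1
    have h3 : ((Finset.univ : Finset (ι ν)).image (ef ν)).card ≤ D * B := by
      have : (Finset.univ : Finset (ι ν)).image (ef ν) ⊆ Finset.range (D * B) := by
        intro e he
        obtain ⟨a, -, rfl⟩ := Finset.mem_image.1 he
        exact Finset.mem_range.2 (hef ν a)
      exact (Finset.card_le_card this).trans (by rw [Finset.card_range])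
    have h4 : (Fintype.card (ι ν) - 1) / (D * B) * (D * B) ≤ Fintype.card (ι ν) - 1 := Nat.div_mul_le_self _ _
    have h5 := Nat.mul_le_mul_left ((Fintype.card (ι ν) - 1) / (D * B)) h3
    have h6 := hpos ν
    rw [Finset.card_univ] at h2
    omega
  obtain ⟨⟨e, heD⟩, he⟩ := ev_exists (Filter.Eventually.of_forall (f := (Uf : Filter ℕ)) hpig)
  simp only at he
  -- the parameters
  have hdat' : ∀ ν, ∀ a : ι ν, ∃ (t : Fin (Jc d e) → ℤ) (θ s r : Qb)
      (z : ℤ → Qb), ef ν a = e → DtH d e (Y0 (X ν)) ν (D * B)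
        (fun i => ((F ν a i : K ν a) : Qb)) (δ ν a : Qb) t θ s r z := by
    intro ν a
    by_cases h : ef ν a = e
    · have h1 := hdat ν a
      rw [h] at h1
      obtain ⟨t, θ, s, r, z, h2⟩ := h1
      exact ⟨t, θ, s, r, z, fun _ => h2⟩
    · exact ⟨0, 0, 0, 0, 0, fun h' => absurd h' h⟩
  choose tt θθ ss rr zz hdt using hdat'
  let T : (ν : ℕ) → Finset (ι ν) := fun ν => Finset.univ.filter fun a => ef ν a = e
  have hT : ∀ ν a, a ∈ T ν ↔ ef ν a = e := fun ν a => by simp [T]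
  let Om : ℕ → Finset (Fin (Jc d e) → ℤ) := fun ν => (T ν).image (tt ν)
  have har : ∀ ν (t : Fin (Jc d e) → ℤ), ∃ a : ι ν, t ∈ Om ν → a ∈ T ν ∧ tt ν a = t := by
    intro ν t
    by_cases h : t ∈ Om ν
    · obtain ⟨a, ha, hat⟩ := Finset.mem_image.1 h
      exact ⟨a, fun _ => ⟨ha, hat⟩⟩
    · obtain ⟨a₀⟩ := Fintype.card_pos_iff.1 (hpos ν)
      exact ⟨a₀, fun h' => absurd h' h⟩
  choose ar har using har
  let th : ℕ → (Fin (Jc d e) → ℤ) → Qb := fun ν t => θθ ν (ar ν t)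
  let Y : ℕ → ℕ := fun ν => C0 * (X ν) ^ (A0 + 1)
  have hY0Y : ∀ ν, Y0 (X ν) ≤ Y ν := by
    intro ν
    refine (hCA (X ν) (hX1 ν)).trans (Nat.mul_le_mul_left _ ?_)
    exact Nat.pow_le_pow_right (hX1 ν) (by omega)
  have hXY : ∀ ν, X ν ≤ Y ν := by
    intro ν
    calc X ν = 1 * (X ν) ^ 1 := by ring
      _ ≤ C0 * (X ν) ^ (A0 + 1) := Nat.mul_le_mul hC0 (Nat.pow_le_pow_right (hX1 ν) (by omega))
  have hDt : ∀ ν t, t ∈ Om ν → DtH d e (Y0 (X ν)) ν (D * B)
      (fun i => ((F ν (ar ν t) i : K ν (ar ν t)) : Qb)) (δ ν (ar ν t) : Qb) t (th ν t)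
      (ss ν (ar ν t)) (rr ν (ar ν t)) (zz ν (ar ν t)) := by
    intro ν t ht
    obtain ⟨h1, h2⟩ := har ν t ht
    have h3 := hdt ν (ar ν t) ((hT ν _).1 h1)
    rw [h2] at h3
    exact h3
  -- the number of parameters
  have hfib : ∀ ν, (T ν).card ≤ D * B * (Om ν).card := by
    intro ν
    refine Finset.card_le_mul_card_image _ _ fun t _ => ?_
    let g : Polynomial Qb := Polynomial.X ^ (e + 1) + ∑ l : Fin (e + 1),
      Polynomial.C ((t (jmH d e l) : ℤ) : Qb) * Polynomial.X ^ (l : ℕ)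
    have hg : g.Monic := by
      refine Polynomial.monic_X_pow_add ?_
      refine lt_of_le_of_lt (Polynomial.degree_sum_le _ _) ?_
      rw [Finset.sup_lt_iff (by exact WithBot.bot_lt_coe _)]
      intro l _
      refine lt_of_le_of_lt (Polynomial.degree_C_mul_X_pow_le _ _) ?_
      exact_mod_cast l.2
    have hgd : g.natDegree ≤ e + 1 := by
      refine (Polynomial.natDegree_add_le _ _).trans (max_le ?_ ?_)
      · exact Polynomial.natDegree_X_pow_le _
      · refine Polynomial.natDegree_sum_le_of_forall_le _ _ fun l _ => ?_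
        exact (Polynomial.natDegree_C_mul_X_pow_le _ _).trans (by have := l.2; omega)
    have hinj : Set.InjOn (θθ ν) ((T ν).filter fun a => tt ν a = t : Finset (ι ν)) := by
      intro a ha b hb hab
      rw [Finset.mem_coe, Finset.mem_filter, hT] at ha hb
      by_contra hne
      apply hcj ν a b hne
      have d1 := hdt ν a ha.1
      have d2 := hdt ν b hb.1
      have k1 : ss ν a = ss ν b := by
        have e1 := d1.el (Sum.inr 0)
        have e2 := d2.el (Sum.inr 0)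
        rw [ha.2] at e1
        rw [hb.2, ← hab] at e2
        exact e1.symm.trans e2
      have k2 : ∀ i, ((F ν a i : K ν a) : Qb) = ((F ν b i : K ν b) : Qb) := by
        intro i
        have e1 := d1.el (Sum.inl i)
        have e2 := d2.el (Sum.inl i)
        rw [ha.2] at e1
        rw [hb.2, ← hab] at e2
        have e3 : ss ν a * ((F ν a i : K ν a) : Qb) = ss ν b * ((F ν b i : K ν b) : Qb) :=
          e1.symm.trans e2
        rw [← k1] at e3
        exact mul_left_cancel₀ d1.sne e3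
      have k3 : (δ ν a : Qb) = (δ ν b : Qb) := by
        have e1 := d1.el (Sum.inr 1)
        have e2 := d2.el (Sum.inr 1)
        rw [ha.2] at e1
        rw [hb.2, ← hab] at e2
        have e3 : ss ν a * (δ ν a : Qb) = ss ν b * (δ ν b : Qb) := e1.symm.trans e2
        rw [← k1] at e3
        exact mul_left_cancel₀ d1.sne e3
      refine ⟨1, 0, one_ne_zero, ?_, k3.symm, fun y => ?_⟩
      · have h1 : IntermediateField.adjoin ℚ ({1, 0} : Set Qb) = ⊥ := by
          rw [IntermediateField.adjoin_eq_bot_iff]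
          rintro x (rfl | rfl)
          · exact one_mem _
          · exact zero_mem _
        rw [h1, IntermediateField.finrank_bot]
        exact Nat.one_le_pow _ _ hDB
      · simp only [one_mul, add_zero, mul_zero]
        refine Finset.sum_congr rfl fun i _ => ?_
        rw [k2]
    calc ((T ν).filter fun a => tt ν a = t).card =
          (((T ν).filter fun a => tt ν a = t).image (θθ ν)).card :=
          (Finset.card_image_of_injOn hinj).symm
      _ ≤ g.roots.toFinset.card := by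
          refine Finset.card_le_card fun y hy => ?_
          obtain ⟨a, ha, rfl⟩ := Finset.mem_image.1 hy
          rw [Finset.mem_filter, hT] at ha
          have d1 := (hdt ν a ha.1).root
          rw [ha.2] at d1
          rw [Multiset.mem_toFinset, Polynomial.mem_roots hg.ne_zero, Polynomial.IsRoot.def,
            ← d1]
          show (Polynomial.X ^ (e + 1) + ∑ l : Fin (e + 1),
            Polynomial.C ((t (jmH d e l) : ℤ) : Qb) * Polynomial.X ^ (l : ℕ)).eval _ = _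
          rw [Polynomial.eval_add, Polynomial.eval_finsetSum]
          simp only [Polynomial.eval_pow, Polynomial.eval_X, Polynomial.eval_mul,
            Polynomial.eval_C]
      _ ≤ Multiset.card g.roots := Multiset.toFinset_card_le _
      _ ≤ g.natDegree := Polynomial.card_roots' _
      _ ≤ e + 1 := hgd
      _ ≤ D * B := heD
  have hnum : ∀ᶠ ν in (Uf : Filter ℕ), Fintype.card (ι ν) ≤ D * B * (D * B * (Om ν).card) := by
    filter_upwards [he] with ν h1
    exact h1.trans (Nat.mul_le_mul_left _ (hfib ν))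
  have hbox : ∀ ν, (Om ν).card ≤ (2 * Y ν + 1) ^ (Jc d e) := by
    intro ν
    have h1 : Om ν ⊆ Fintype.piFinset fun _ : Fin (Jc d e) =>
        Finset.Icc (-(Y ν : ℤ)) (Y ν : ℤ) := by
      intro t ht
      rw [Fintype.mem_piFinset]
      intro q
      rw [Finset.mem_Icc]
      refine abs_le.1 (((hDt ν t ht).bd q).trans ?_)
      exact_mod_cast hY0Y ν
    refine (Finset.card_le_card h1).trans (le_of_eq ?_)
    rw [Fintype.card_piFinset]
    simp only [Int.card_Icc, Finset.prod_const, Finset.card_univ, Fintype.card_fin]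
    congr 1
    omega
  have hνc : ∀ ν : ℕ, (ν : ℝ) < (Fintype.card (ι ν) : ℝ) := by
    intro ν
    refine lt_of_le_of_lt ?_ (hcard ν)
    have : (1 : ℝ) ≤ (X ν : ℝ) ^ ε := Real.one_le_rpow (by exact_mod_cast hX1 ν) hε.le
    nlinarith [(Nat.cast_nonneg ν : (0 : ℝ) ≤ (ν : ℝ))]
  have hXbig : ∀ m : ℕ, ∀ᶠ ν in (Uf : Filter ℕ), m ≤ X ν := by
    intro m
    filter_upwards [hnum, ev_ge (D * B * (D * B * (2 * (C0 * m ^ (A0 + 1)) + 1) ^ (Jc d e)))] with ν h1 h2
    by_contra hlt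
    push Not at hlt
    have h3 : Y ν ≤ C0 * m ^ (A0 + 1) := Nat.mul_le_mul_left _ (Nat.pow_le_pow_left hlt.le _)
    have h4 : (Om ν).card ≤ (2 * (C0 * m ^ (A0 + 1)) + 1) ^ (Jc d e) :=
      (hbox ν).trans (Nat.pow_le_pow_left (by omega) _)
    have h5 : D * B * (D * B * (Om ν).card) ≤
        D * B * (D * B * (2 * (C0 * m ^ (A0 + 1)) + 1) ^ (Jc d e)) :=
      Nat.mul_le_mul_left _ (Nat.mul_le_mul_left _ h4)
    have h6 : ν < Fintype.card (ι ν) := by exact_mod_cast hνc ν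
    omega
  have hY : ∀ m : ℕ, ∀ᶠ ν in (Uf : Filter ℕ), m ≤ Y ν := by
    intro m
    filter_upwards [hXbig m] with ν hν
    exact hν.trans (hXY ν)
  have hDpos : 0 < D * B := hDB
  have hDr : (0 : ℝ) < D * B := by exact_mod_cast hDB
  have hbig : Big Y Om := by
    refine big_of_card (ε := ε / (A0 + 1)) (by positivity) (hY 2) ?_
    obtain ⟨m, hm⟩ := exists_nat_gt ((D * B : ℝ) * (D * B) * (C0 : ℝ) ^ (ε / (A0 + 1)))
    filter_upwards [ev_ge m, hnum] with ν hν h1
    have hX0 : (0 : ℝ) ≤ (X ν : ℝ) := Nat.cast_nonneg _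
    have e2 : ((Y ν : ℕ) : ℝ) ^ (ε / (A0 + 1)) = (C0 : ℝ) ^ (ε / (A0 + 1)) * (X ν : ℝ) ^ ε := by
      show ((C0 * (X ν) ^ (A0 + 1) : ℕ) : ℝ) ^ (ε / (A0 + 1)) = _
      push_cast
      rw [Real.mul_rpow (by positivity) (by positivity), ← Real.rpow_natCast (X ν : ℝ),
        ← Real.rpow_mul hX0]
      congr 2
      push_cast
      field_simp
    rw [e2]
    have hDD : (0 : ℝ) < (D * B : ℝ) * (D * B) := by positivity
    have h2 : (Fintype.card (ι ν) : ℝ) ≤ (D * B : ℝ) * (D * B) * (Om ν).card := by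
      have : ((Fintype.card (ι ν) : ℕ) : ℝ) ≤ ((D * B * (D * B * (Om ν).card) : ℕ) : ℝ) := by
        exact_mod_cast h1
      refine this.trans (le_of_eq ?_)
      push_cast
      ring
    have h3 : (D * B : ℝ) * (D * B) * ((C0 : ℝ) ^ (ε / (A0 + 1)) * (X ν : ℝ) ^ ε) <
        (D * B : ℝ) * (D * B) * (Om ν).card := by
      refine lt_of_le_of_lt ?_ (lt_of_lt_of_le (hcard ν) h2)
      rw [← mul_assoc]
      refine mul_le_mul_of_nonneg_right ?_ (by positivity)
      have : (m : ℝ) ≤ (ν : ℝ) := by exact_mod_cast hν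
      linarith
    exact lt_of_mul_lt_mul_left h3 hDD.le
  have hb : Bd Y Om := by
    refine Filter.Eventually.of_forall fun ν t ht j => ?_
    refine ((hDt ν t ht).bd j).trans ?_
    exact_mod_cast hY0Y ν
  have hTH : TH Om th (jmH d e) :=
    ⟨Filter.Eventually.of_forall fun ν t ht => (hDt ν t ht).root,
      Filter.Eventually.of_forall fun ν t ht => (hDt ν t ht).lin⟩
  -- the values
  have hF0 : ∀ ν a, ((F ν a (Fin.last d) : K ν a) : Qb) ≠ 0 := by
    intro ν a h
    exact (hH ν a).2.1 (by exact_mod_cast h)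
  have hδ0 : ∀ ν a, (δ ν a : Qb) ≠ 0 := by
    intro ν a h
    exact (hH ν a).2.2.1 (by exact_mod_cast h)
  have hval : ∀ ν t, t ∈ Om ν → ∀ n, ((gH d e).mp (evq t (th ν t))).z n = zz ν (ar ν t) n :=
    fun ν t ht n => (hDt ν t ht).val (hF0 _ _) (hδ0 _ _) n
  obtain ⟨i, j, hij⟩ := coreH (e := e) (th := th) hd hY hbig hb hTH (gH d e)
    (Filter.Eventually.of_forall fun ν t ht => (hDt ν t ht).ok (hF0 _ _) (hδ0 _ _))
    (fun L => by
      filter_upwards [ev_ge L] with ν hν t ht i j hi hj h1 h2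
      rw [hval ν t ht, hval ν t ht] at h1 h2
      refine (hDt ν t ht).long i j (hi.trans ?_) (hj.trans ?_) h1 h2
      · exact_mod_cast hν
      · exact_mod_cast hν)
    (fun k => Filter.Eventually.of_forall fun ν t ht => by
      intro hw1
      obtain ⟨q, b, h1, h2, h3, h4⟩ := (hDt ν t ht).co k
      have h5 : ((Y0 (X ν) : ℕ) : ℤ) ≤ (Y ν : ℤ) := by exact_mod_cast hY0Y ν
      refine ⟨q, b, h1, h2.trans h5, fun l => (h3 l).trans h5, ?_⟩
      rw [← h4, ← hval ν t ht]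
      show _ = _ * ((q : Qb) * (((gH d e).mp (evq t (th ν t))).W k 0 /
        ((gH d e).mp (evq t (th ν t))).W k 1))
      field_simp) ((d ^ 2) ^ 2 + 5)
  obtain ⟨ν, ⟨t, ht, t', ht', hne, hji, hji', hχ⟩, hν⟩ :=
    (hij.and (ev_ge ((d ^ 2) ^ 2 + 5))).exists
  have hab : ar ν t ≠ ar ν t' := by
    intro h
    apply hne
    rw [← (har ν t ht).2, ← (har ν t' ht').2, h]
  rw [hval ν t ht, hval ν t ht] at hji
  rw [hval ν t' ht', hval ν t' ht'] at hji'
  have hχ' : ∀ n : ℕ, n < (d ^ 2) ^ 2 + 5 →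
      (zz ν (ar ν t) n - zz ν (ar ν t) i) / (zz ν (ar ν t) j - zz ν (ar ν t) i) =
      (zz ν (ar ν t') n - zz ν (ar ν t') i) / (zz ν (ar ν t') j - zz ν (ar ν t') i) := by
    intro n hn
    have h1 := hχ n hn
    rw [hval ν t ht, hval ν t ht, hval ν t ht, hval ν t' ht', hval ν t' ht',
      hval ν t' ht'] at h1
    exact h1
  have h1 := hDt ν t ht
  have h2 := hDt ν t' ht'
  have hd1 : zz ν (ar ν t) j - zz ν (ar ν t) i ≠ 0 := sub_ne_zero.2 hji
  have hd2 : zz ν (ar ν t') j - zz ν (ar ν t') i ≠ 0 := sub_ne_zero.2 hji'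
  obtain ⟨α, hα⟩ : ∃ α, α = (zz ν (ar ν t') j - zz ν (ar ν t') i) /
    (zz ν (ar ν t) j - zz ν (ar ν t) i) := ⟨_, rfl⟩
  obtain ⟨β, hβ⟩ : ∃ β, β = zz ν (ar ν t') i - α * zz ν (ar ν t) i := ⟨_, rfl⟩
  have hα0 : α ≠ 0 := by
    rw [hα]
    exact div_ne_zero hd2 hd1
  have hFe : ∀ a : Fin (d + 1) → Qb, ∀ y, (FP a (1 : Qb)).eval y = ∑ i, a i * y ^ (i : ℕ) := by
    intro a y
    have := FP_eval (A := a) (one_ne_zero : (1 : Qb) ≠ 0) y
    rwa [one_mul] at this
  obtain ⟨hc1, hc2⟩ := conj_of_orbit hd (FP (fun i => ((F ν (ar ν t) i : K ν (ar ν t)) : Qb)) 1)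
    (FP (fun i => ((F ν (ar ν t') i : K ν (ar ν t')) : Qb)) 1)
    (FP_natDegree one_ne_zero (hF0 _ _)) (FP_natDegree one_ne_zero (hF0 _ _))
    (δ ν (ar ν t) : Qb) (δ ν (ar ν t') : Qb) (fun n => zz ν (ar ν t) n)
    (fun n => zz ν (ar ν t') n) ((d ^ 2) ^ 2 + 5) le_rfl
    (fun n _ => by
      have := h1.rcr n
      rw [hFe]
      push_cast
      exact this)
    (fun n _ => by
      have := h2.rcr n
      rw [hFe]
      push_cast
      exact this)
    (fun k l hk hl h3 h4 => by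
      have := h1.long (k : ℤ) (l : ℤ) (by rw [Nat.abs_cast]; exact_mod_cast (by omega))
        (by rw [Nat.abs_cast]; exact_mod_cast (by omega)) h3 (by push_cast at h4; exact h4)
      exact_mod_cast this) α β hα0
    (fun n hn => by
      have h3 := hχ' n hn
      rw [div_eq_div_iff hd1 hd2] at h3
      rw [hβ, hα]
      field_simp
      linear_combination -h3)
  apply hcj ν (ar ν t) (ar ν t') hab
  obtain ⟨E, hE1, hE2, hE3⟩ := h1.mem
  obtain ⟨E', hE1', hE2', hE3'⟩ := h2.mem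
  refine ⟨α, β, hα0, ?_, hc1, fun y => ?_⟩
  · have m1 : ∀ n, zz ν (ar ν t) n ∈ E ⊔ E' := fun n => (le_sup_left : E ≤ E ⊔ E') (hE3 n)
    have m2 : ∀ n, zz ν (ar ν t') n ∈ E ⊔ E' := fun n => (le_sup_right : E' ≤ E ⊔ E') (hE3' n)
    have mα : α ∈ E ⊔ E' := by
      rw [hα]
      exact div_mem (sub_mem (m2 _) (m2 _)) (sub_mem (m1 _) (m1 _))
    have mβ : β ∈ E ⊔ E' := by
      rw [hβ]
      exact sub_mem (m2 _) (mul_mem mα (m1 _))
    have hle : IntermediateField.adjoin ℚ ({α, β} : Set Qb) ≤ E ⊔ E' := by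
      rw [IntermediateField.adjoin_le_iff]
      rintro x (rfl | rfl)
      · exact mα
      · exact mβ
    have hfd : FiniteDimensional ℚ ↥(E ⊔ E') := IntermediateField.finiteDimensional_sup E E'
    have hfd' : Module.Finite ℚ (Subalgebra.toSubmodule (E ⊔ E').toSubalgebra) := hfd
    have h3 : Module.finrank ℚ (IntermediateField.adjoin ℚ ({α, β} : Set Qb)) ≤
        Module.finrank ℚ ↥(E ⊔ E') :=
      Submodule.finrank_mono
        (s := (IntermediateField.adjoin ℚ ({α, β} : Set Qb)).toSubalgebra.toSubmodule)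
        (t := (E ⊔ E').toSubalgebra.toSubmodule) hle
    refine h3.trans ((IntermediateField.finrank_sup_le E E').trans ?_)
    rw [pow_two]
    exact Nat.mul_le_mul hE2 hE2'
  · have h3 := hc2 y
    rw [hFe, hFe] at h3
    exact h3

end Pool.Agent.R323.HN
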