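import Pool.Agent.R323.NF.T

/-!
# Sizes of periodic points of Hénon maps
-/

set_option autoImplicit false

namespace Pool.Agent.R323.HN

open Pool.Agent.R323

section val

variable {K : Type*} [Field K] {Γ : Type*} [LinearOrderedCommGroupWithZero Γ]

/-- a periodic sequence has a largest value -/
theorem per_max {α : Type*} [LinearOrder α] (g : ℤ → α) (n : ℕ) (hn : 0 < n)
    (hg : ∀ k, g (k + n) = g k) : ∃ k₀, ∀ k, g k ≤ g k₀ := by
  have hgm : ∀ (l : ℤ) k, g (k + n * l) = g k := by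
    intro l
    induction l using Int.induction_on with
    | zero => intro k; simp
    | succ l ih =>
      intro k
      rw [show k + (n : ℤ) * ((l : ℤ) + 1) = (k + n * l) + n by ring, hg, ih]
    | pred l ih =>
      intro k
      rw [← hg (k + (n : ℤ) * (-(l : ℤ) - 1)),
        show k + (n : ℤ) * (-(l : ℤ) - 1) + n = k + n * (-(l : ℤ)) by ring, ih]
  obtain ⟨k₀, -, hk₀⟩ := Finset.exists_max_image (Finset.range n) (fun i : ℕ => g i)
    ⟨0, Finset.mem_range.2 hn⟩
  refine ⟨k₀, fun k => ?_⟩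
  have h1 : k = ((k % n).toNat : ℤ) + n * (k / n) := by
    rw [Int.toNat_of_nonneg (Int.emod_nonneg _ (by exact_mod_cast hn.ne'))]
    exact (Int.emod_add_mul_ediv k n).symm
  rw [h1, hgm]
  refine hk₀ _ (Finset.mem_range.2 ?_)
  have := Int.emod_lt_of_pos k (by exact_mod_cast hn : (0 : ℤ) < n)
  have := Int.emod_nonneg k (by exact_mod_cast hn.ne' : (n : ℤ) ≠ 0)
  omega

theorem val_bound (v : Valuation K Γ) {d : ℕ} (hd : 2 ≤ d) (A : Fin (d + 1) → K) (m Q : K)
    (hA : ∀ i, v (A i) ≤ 1) (hm : v m ≤ 1) (hQ : v Q ≤ 1) (z : ℤ → K)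
    (hz : ∀ k, m * z (k + 2) = ∑ i, A i * z (k + 1) ^ (i : ℕ) - Q * z k) (n : ℕ) (hn : 0 < n)
    (hper : ∀ k, z (k + n) = z k) (k : ℤ) : v (A (Fin.last d) * z k) ≤ 1 := by
  classical
  obtain ⟨k₀, hk₀⟩ := per_max (fun k => v (z k)) n hn (fun k => by rw [hper])
  have hk₀' : ∀ k, v (z k) ≤ v (z k₀) := hk₀
  rw [map_mul]
  refine (mul_le_mul_right (hk₀' k) (v (A (Fin.last d)))).trans ?_
  set M := v (z k₀) with hM
  by_cases h1 : M ≤ 1
  · exact mul_le_one' (hA _) h1
  · push Not at h1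
    have hM0 : M ≠ 0 := (lt_trans zero_lt_one h1).ne'
    have h2 := hz (k₀ - 1)
    rw [show k₀ - 1 + 2 = k₀ + 1 by ring, show k₀ - 1 + 1 = k₀ by ring, Fin.sum_univ_castSucc] at h2
    simp only [Fin.val_castSucc, Fin.val_last] at h2
    have h3 : A (Fin.last d) * z k₀ ^ d = m * z (k₀ + 1) + Q * z (k₀ - 1) -
        ∑ i : Fin d, A i.castSucc * z k₀ ^ (i : ℕ) := by
      linear_combination -h2
    have hpow : ∀ i : ℕ, i ≤ d - 1 → M ^ i ≤ M ^ (d - 1) := fun i hi => pow_le_pow_right' h1.le hi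
    have h4 : v (A (Fin.last d) * z k₀ ^ d) ≤ M ^ (d - 1) := by
      rw [h3]
      refine (v.map_sub _ _).trans (max_le ((v.map_add _ _).trans (max_le ?_ ?_)) ?_)
      · rw [map_mul]
        calc v m * v (z (k₀ + 1)) ≤ 1 * M := mul_le_mul' hm (hk₀' _)
          _ = M ^ 1 := by rw [one_mul, pow_one]
          _ ≤ _ := hpow 1 (by omega)
      · rw [map_mul]
        calc v Q * v (z (k₀ - 1)) ≤ 1 * M := mul_le_mul' hQ (hk₀' _)
          _ = M ^ 1 := by rw [one_mul, pow_one]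
          _ ≤ _ := hpow 1 (by omega)
      · refine v.map_sum_le fun i _ => ?_
        rw [map_mul, map_pow]
        calc v (A i.castSucc) * M ^ (i : ℕ) ≤ 1 * M ^ (i : ℕ) := mul_le_mul' (hA _) le_rfl
          _ = M ^ (i : ℕ) := one_mul _
          _ ≤ _ := hpow _ (by have := i.2; omega)
    rw [map_mul, map_pow, ← hM, show M ^ d = M * M ^ (d - 1) by
      rw [← pow_succ']; congr 1; omega, ← mul_assoc] at h4
    have h5 : (0 : Γ) < M ^ (d - 1) := pow_pos (lt_trans zero_lt_one h1) _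
    exact le_of_mul_le_mul_right (by rw [one_mul]; exact h4) h5

end val

theorem arch_bound {d : ℕ} (hd : 2 ≤ d) (A : Fin (d + 1) → ℂ) (m Q : ℂ) (T : ℝ) (hT : 0 ≤ T)
    (hA : ∀ i, ‖A i‖ ≤ T) (hm : ‖m‖ ≤ T) (hQ : ‖Q‖ ≤ T) (z : ℤ → ℂ)
    (hz : ∀ k, m * z (k + 2) = ∑ i, A i * z (k + 1) ^ (i : ℕ) - Q * z k) (n : ℕ) (hn : 0 < n)
    (hper : ∀ k, z (k + n) = z k) (k : ℤ) : ‖A (Fin.last d) * z k‖ ≤ (d + 2) * T := by
  classical
  obtain ⟨k₀, hk₀⟩ := per_max (fun k => ‖z k‖) n hn (fun k => by rw [hper])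
  have hk₀' : ∀ k, ‖z k‖ ≤ ‖z k₀‖ := hk₀
  rw [norm_mul]
  refine (mul_le_mul_of_nonneg_left (hk₀' k) (norm_nonneg _)).trans ?_
  set M := ‖z k₀‖ with hM
  have hM0 : 0 ≤ M := norm_nonneg _
  by_cases h1 : M ≤ 1
  · have hd0 : (0 : ℝ) ≤ d := Nat.cast_nonneg d
    calc ‖A (Fin.last d)‖ * M ≤ T * 1 := mul_le_mul (hA _) h1 hM0 hT
      _ ≤ _ := by nlinarith
  · push Not at h1
    have h2 := hz (k₀ - 1)
    rw [show k₀ - 1 + 2 = k₀ + 1 by ring, show k₀ - 1 + 1 = k₀ by ring, Fin.sum_univ_castSucc] at h2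
    simp only [Fin.val_castSucc, Fin.val_last] at h2
    have h3 : A (Fin.last d) * z k₀ ^ d = m * z (k₀ + 1) + Q * z (k₀ - 1) -
        ∑ i : Fin d, A i.castSucc * z k₀ ^ (i : ℕ) := by
      linear_combination -h2
    have hpow : ∀ i : ℕ, i ≤ d - 1 → M ^ i ≤ M ^ (d - 1) := fun i hi =>
      pow_le_pow_right₀ h1.le hi
    have hp1 : M ≤ M ^ (d - 1) := by
      have := hpow 1 (by omega)
      rwa [pow_one] at this
    have h4 : ‖A (Fin.last d) * z k₀ ^ d‖ ≤ (d + 2) * T * M ^ (d - 1) := by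
      rw [h3]
      refine (norm_sub_le _ _).trans ?_
      have e1 : ‖m * z (k₀ + 1) + Q * z (k₀ - 1)‖ ≤ T * M ^ (d - 1) + T * M ^ (d - 1) := by
        refine (norm_add_le _ _).trans (add_le_add ?_ ?_)
        · rw [norm_mul]
          exact mul_le_mul hm ((hk₀' _).trans hp1) (norm_nonneg _) hT
        · rw [norm_mul]
          exact mul_le_mul hQ ((hk₀' _).trans hp1) (norm_nonneg _) hT
      have e2 : ‖∑ i : Fin d, A i.castSucc * z k₀ ^ (i : ℕ)‖ ≤ d * (T * M ^ (d - 1)) := by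
        refine (norm_sum_le _ _).trans ?_
        calc ∑ i : Fin d, ‖A i.castSucc * z k₀ ^ (i : ℕ)‖ ≤ ∑ _i : Fin d, T * M ^ (d - 1) := by
              refine Finset.sum_le_sum fun i _ => ?_
              rw [norm_mul, norm_pow]
              exact mul_le_mul (hA _) (hpow _ (by have := i.2; omega)) (by positivity) hT
          _ = _ := by
              rw [Finset.sum_const, Finset.card_univ, Fintype.card_fin, nsmul_eq_mul]
      calc _ ≤ T * M ^ (d - 1) + T * M ^ (d - 1) + d * (T * M ^ (d - 1)) := add_le_add e1 e2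
        _ = _ := by ring
    rw [norm_mul, norm_pow, ← hM, show M ^ d = M * M ^ (d - 1) by
      rw [← pow_succ']; congr 1; omega, ← mul_assoc] at h4
    have h5 : (0 : ℝ) < M ^ (d - 1) := by positivity
    exact le_of_mul_le_mul_right h4 h5

open IsDedekindDomain in
/-- **The size of the periodic points.** -/
theorem orbIb {d : ℕ} (hd : 2 ≤ d) (K : IntermediateField ℚ Qb) [NumberField K] (T : ℕ)
    (A : Fin (d + 1) → K) (m Q : K) (hA : ∀ i, Ib T ((A i : K) : Qb)) (hm : Ib T (m : Qb))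
    (hQ : Ib T (Q : Qb)) (z : ℤ → K)
    (hz : ∀ k, m * z (k + 2) = ∑ i, A i * z (k + 1) ^ (i : ℕ) - Q * z k) (n : ℕ) (hn : 0 < n)
    (hper : ∀ k, z (k + n) = z k) (k : ℤ) :
    Ib ((d + 2) * T) ((A (Fin.last d) * z k : K) : Qb) := by
  have hcoe : ∀ x : K, IsIntegral ℤ (x : Qb) ↔ IsIntegral ℤ x := fun x => by
    have h : IsIntegral ℤ (algebraMap K Qb x) ↔ IsIntegral ℤ x :=
      isIntegral_algebraMap_iff (algebraMap K Qb).injective
    exact h
  constructor
  · rw [hcoe]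
    have hle : ∀ (v : HeightOneSpectrum (NumberField.RingOfIntegers K)) (x : K), IsIntegral ℤ x →
        v.valuation K x ≤ 1 := by
      intro v x hx
      exact v.valuation_le_one (K := K) (⟨x, hx⟩ : NumberField.RingOfIntegers K)
    have h1 := HeightOneSpectrum.mem_integers_of_valuation_le_one
      (R := NumberField.RingOfIntegers K) K (A (Fin.last d) * z k) fun v =>
      val_bound (v.valuation K) hd A m Q (fun i => hle v _ ((hcoe _).1 (hA i).1))
        (hle v _ ((hcoe _).1 hm.1)) (hle v _ ((hcoe _).1 hQ.1)) z hz n hn hper k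
    obtain ⟨y, hy⟩ := h1
    rw [← hy]
    exact y.isIntegral_coe
  · intro σ
    push_cast
    have h1 := arch_bound hd (fun i => σ ((A i : K) : Qb)) (σ (m : Qb)) (σ (Q : Qb)) T
      (Nat.cast_nonneg T) (fun i => (hA i).2 σ) (hm.2 σ) (hQ.2 σ) (fun k => σ ((z k : K) : Qb))
      (fun k => by
        have h2 := congrArg (fun x : K => σ (x : Qb)) (hz k)
        push_cast at h2
        rw [map_mul, map_sub, map_sum, map_mul] at h2
        rw [h2]
        congr 1
        refine Finset.sum_congr rfl fun i _ => ?_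
        rw [map_mul, map_pow]) n hn (fun k => by rw [hper]) k
    rw [map_mul]
    exact h1

end Pool.Agent.R323.HN
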