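import Pool.Agent.R323.HN.L
import Pool.Agent.R323.HN.Core

/-!
# Integral data of a Hénon map with many periodic points
-/

set_option autoImplicit false

namespace Pool.Agent.R323.HN

open Pool.Agent.R323 Height IntermediateField MvPolynomial Pool.Agent.H504D

/-- the coefficients of a Hénon map as a projective point -/
def hvec {K : Type*} [Field K] {d : ℕ} (a : Fin (d + 1) → K) (δ : K) : Fin (d + 3) → K :=
  Matrix.vecCons (1 : K) (Matrix.vecCons δ a)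

/-- denominators -/
theorem coefH (d : ℕ) (K : IntermediateField ℚ Qb) [NumberField K] (a : Fin (d + 1) → K) (δ : K)
    (X : ℕ) (hX : mulHeight (hvec a δ) ≤ X) :
    ∃ m n' : ℕ, m ≠ 0 ∧ n' ≠ 0 ∧ m ≤ X ^ (d + 3) ∧ n' ≤ X ∧
      (∀ i, Ib (X ^ (d + 4)) ((m : Qb) * ((a i : K) : Qb))) ∧
      Ib (X ^ (d + 4)) ((m : Qb) * (δ : Qb)) ∧
      Ib (X * X) ((n' : Qb) * (((a (Fin.last d) : K) : Qb))⁻¹) := by
  classical
  set u := hvec a δ with hu
  have hu0 : u 0 = 1 := rfl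
  have hht : ∀ q : Fin (d + 3), mulHeight₁ (u q) ≤ X := by
    intro q
    have h0 : u q = u q / u 0 := by rw [hu0, div_one]
    rw [h0, mulHeight₁_div_eq_mulHeight]
    refine le_trans ?_ hX
    have h1 := mulHeight_comp_le (fun i : Fin 2 => if i = 0 then q else 0) u
    refine le_trans (le_of_eq ?_) h1
    congr 1
    funext i
    fin_cases i <;> simp
  choose n hn0 hnX hni hnb using fun q => ht_ib K (hht q)
  obtain ⟨m, hm⟩ : ∃ m : ℕ, m = ∏ q, n q := ⟨_, rfl⟩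
  have hm0 : m ≠ 0 := by
    rw [hm]
    exact Finset.prod_ne_zero_iff.2 fun p _ => hn0 p
  have hmX : m ≤ X ^ (d + 3) := by
    rw [hm]
    calc ∏ p, n p ≤ ∏ _p : Fin (d + 3), X := Finset.prod_le_prod (fun _ _ => Nat.zero_le _)
          fun p _ => hnX p
      _ = _ := by rw [Finset.prod_const, Finset.card_univ, Fintype.card_fin]
  have hIb : ∀ q, Ib (X ^ (d + 4)) ((m : Qb) * ((u q : K) : Qb)) := by
    intro q
    constructor
    · have h1 : IsIntegral ℤ ((m : K) * u q) := by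
        have e2 : (m : K) = (∏ p ∈ Finset.univ.erase q, (n p : K)) * (n q : K) := by
          rw [hm, Nat.cast_prod, Finset.prod_erase_mul _ _ (Finset.mem_univ _)]
        rw [e2, mul_assoc]
        refine IsIntegral.mul (IsIntegral.prod _ fun p _ => ?_) (hni q)
        have : ((n p : ℕ) : K) = algebraMap ℤ K (n p : ℤ) := by simp
        rw [this]
        exact isIntegral_algebraMap
      have h2 : IsIntegral ℤ (algebraMap K Qb ((m : K) * u q)) := h1.algebraMap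
      rwa [map_mul, map_natCast] at h2
    · intro σ
      rw [map_mul, norm_mul, map_natCast, Complex.norm_natCast, pow_succ]
      push_cast
      have h1 := (hom_le K (u q) σ).trans (hht q)
      exact mul_le_mul (by exact_mod_cast hmX) h1 (norm_nonneg _) (by positivity)
  have hlast : mulHeight₁ (a (Fin.last d))⁻¹ ≤ X := by
    rw [mulHeight₁_inv]
    exact hht (Fin.succ (Fin.succ (Fin.last d)))
  obtain ⟨n', hn0', hnX', -, hnb'⟩ := ht_ib K hlast
  refine ⟨m, n', hm0, hn0', hmX, hnX', fun i => hIb (Fin.succ (Fin.succ i)), hIb 1, ?_⟩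
  have h1 : (((a (Fin.last d))⁻¹ : K) : Qb) = (((a (Fin.last d) : K) : Qb))⁻¹ := by push_cast; rfl
  rw [← h1]
  exact hnb'

/-- the generic elements -/
abbrev Gx (d : ℕ) : Type := Fin (d + 1) ⊕ Fin 5

/-- the index type of the parameters -/
abbrev Jh (d e : ℕ) : Type := Fin (e + 1) ⊕ (Gx d × Fin (e + 1))

/-- the number of parameters -/
abbrev Jc (d e : ℕ) : ℕ := Fintype.card (Jh d e)

/-- the numbering -/
noncomputable def jeH (d e : ℕ) : Jh d e ≃ Fin (Jc d e) := Fintype.equivFin (Jh d e)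

/-- the coefficients of the minimal polynomial -/
noncomputable def jmH (d e : ℕ) (l : Fin (e + 1)) : Fin (Jc d e) := jeH d e (Sum.inl l)

/-- the coordinates of the elements -/
noncomputable def jgH (d e : ℕ) (g : Gx d) (l : Fin (e + 1)) : Fin (Jc d e) :=
  jeH d e (Sum.inr (g, l))

/-- the generic elements -/
noncomputable def gel (d e : ℕ) (g : Gx d) : MvPolynomial (Option (Fin (Jc d e))) ℤ :=
  lp (fun l => X (jgH d e g l))

/-- the generic map and point -/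
noncomputable def gH (d e : ℕ) : HD (MvPolynomial (Option (Fin (Jc d e))) ℤ) d where
  A i := gel d e (Sum.inl i)
  D := gel d e (Sum.inr 0)
  Q := gel d e (Sum.inr 1)
  p := ![gel d e (Sum.inr 2), gel d e (Sum.inr 4)]
  q := ![gel d e (Sum.inr 3), gel d e (Sum.inr 4)]

/-- the elements of a map with a point -/
def elt {R : Type*} [Mul R] {d : ℕ} (s r : R) (a : Fin (d + 1) → R) (δ z0 z1 : R) : Gx d → R :=
  Sum.elim (fun i => s * a i) ![s, s * δ, r * z0, r * z1, r]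

/-- the integral data -/
structure DtH (d e Y L D' : ℕ) (a : Fin (d + 1) → Qb) (δ : Qb)
    (t : Fin (Jc d e) → ℤ) (θ s r : Qb) (z : ℤ → Qb) : Prop where
  sne : s ≠ 0
  rne : r ≠ 0
  bd : ∀ q, |t q| ≤ (Y : ℤ)
  root : θ ^ (e + 1) + ∑ l, ((t (jmH d e l) : ℤ) : Qb) * θ ^ (l : ℕ) = 0
  lin : ∀ a : Fin (e + 1) → ℤ, ∑ l, ((a l : ℤ) : Qb) * θ ^ (l : ℕ) = 0 → a = 0
  el : ∀ g, aeval (pq t θ) (gel d e g) = elt s r a δ (z 0) (z 1) g
  rcr : ∀ n, z (n + 2) = ∑ i, a i * z (n + 1) ^ (i : ℕ) - δ * z n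
  long : ∀ i j : ℤ, |i| ≤ L → |j| ≤ L → z i = z j → z (i + 1) = z (j + 1) → i = j
  co : ∀ k, ∃ (q : ℤ) (b : Fin (e + 1) → ℤ), q ≠ 0 ∧ |q| ≤ (Y : ℤ) ∧ (∀ l, |b l| ≤ (Y : ℤ)) ∧
    (q : Qb) * z k = ∑ l, ((b l : ℤ) : Qb) * θ ^ (l : ℕ)
  mem : ∃ K' : IntermediateField ℚ Qb, FiniteDimensional ℚ K' ∧ Module.finrank ℚ K' ≤ D' ∧
    ∀ n, z n ∈ K'

/-- the hypotheses for one map -/
def HypH (d D B M X : ℕ) (K : IntermediateField ℚ Qb) [NumberField K]
    (a : Fin (d + 1) → K) (δ : K) : Prop :=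
  Module.finrank ℚ K ≤ D ∧ a (Fin.last d) ≠ 0 ∧ δ ≠ 0 ∧ mulHeight (hvec a δ) ≤ X ∧
    ∃ S : Finset (Qb × Qb), M < S.card ∧ ∀ P ∈ S,
      (∃ n, 0 < n ∧ (fun P : Qb × Qb =>
        (P.2, ∑ i, ((a i : K) : Qb) * P.2 ^ (i : ℕ) - (δ : Qb) * P.1))^[n] P = P) ∧
      Module.finrank K (IntermediateField.adjoin K {P.1, P.2}) ≤ B

/-- the orbit stays in the field -/
theorem mem_orb {d : ℕ} (E : IntermediateField ℚ Qb) {a : Fin (d + 1) → Qb} {δ : Qb}
    (hδ : δ ≠ 0) (ha : ∀ i, a i ∈ E) (hδE : δ ∈ E) (z : ℤ → Qb)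
    (hz : ∀ n, z (n + 2) = ∑ i, a i * z (n + 1) ^ (i : ℕ) - δ * z n) (h0 : z 0 ∈ E)
    (h1 : z 1 ∈ E) (n : ℤ) : z n ∈ E := by
  have key : ∀ n : ℤ, z n ∈ E ∧ z (n + 1) ∈ E := by
    intro n
    induction n using Int.induction_on with
    | zero => exact ⟨h0, h1⟩
    | succ n ih =>
      refine ⟨ih.2, ?_⟩
      rw [show (n : ℤ) + 1 + 1 = (n : ℤ) + 2 by ring, hz]
      exact sub_mem (sum_mem fun i _ => mul_mem (ha i) (pow_mem ih.2 _)) (mul_mem hδE ih.1)
    | pred n ih =>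
      rw [show -(n : ℤ) - 1 + 1 = -(n : ℤ) by ring]
      refine ⟨?_, ih.1⟩
      have h2 := hz (-(n : ℤ) - 1)
      rw [show -(n : ℤ) - 1 + 2 = -(n : ℤ) + 1 by ring, show -(n : ℤ) - 1 + 1 = -(n : ℤ) by ring]
        at h2
      have h3 : z (-(n : ℤ) - 1) = δ⁻¹ * (∑ i, a i * z (-(n : ℤ)) ^ (i : ℕ) -
          z (-(n : ℤ) + 1)) := by
        rw [h2]
        field_simp
        ring
      rw [h3]
      exact mul_mem (inv_mem hδE) (sub_mem (sum_mem fun i _ => mul_mem (ha i) (pow_mem ih.1 _))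
        ih.2)
  exact (key n).1

/-- **The integral data.** -/
theorem DtH.ex (d D B : ℕ) (hd : 2 ≤ d) : ∃ Y : ℕ → ℕ, PB Y ∧ (∀ X, 1 ≤ X → 1 ≤ Y X) ∧
    ∀ (X : ℕ), 1 ≤ X → ∀ (L : ℕ) (K : IntermediateField ℚ Qb) [NumberField K]
      (a : Fin (d + 1) → K) (δ : K), HypH d D B (d ^ (2 * L).factorial) X K a δ →
    ∃ (e : ℕ), e < D * B ∧ ∃ (t : Fin (Jc d e) → ℤ) (θ s r : Qb) (z : ℤ → Qb),
      DtH d e (Y X) L (D * B) (fun i => ((a i : K) : Qb)) (δ : Qb) t θ s r z := by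
  classical
  choose Cc Ac hCc Hcc using coords
  choose Cm Am hCm Hcm using min_coeffs
  obtain ⟨M, hM⟩ : ∃ M, M = Fintype.card (Gx d) := ⟨_, rfl⟩
  let ee : Gx d ≃ Fin M := (Fintype.equivFin (Gx d)).trans (finCongr hM.symm)
  let B2 : ℕ → ℕ := fun X => (d + 2) * X ^ (d + 4) * (X * X)
  let Bθ : ℕ → ℕ := fun X => M * ((D * B * M) ^ M + 1) * B2 X
  let W : ℕ → ℕ := fun X => ∑ e ∈ Finset.range (D * B),
    (Cc e * (Bθ X) ^ (Ac e) + Cm e * (Bθ X) ^ (Am e))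
  have pB2 : PB B2 := ((PB.const (d + 2)).mul (PB.id.pow (d + 4))).mul (PB.id.mul PB.id)
  have pBθ : PB Bθ := (PB.const (M * ((D * B * M) ^ M + 1))).mul pB2
  have pW : PB W := PB.sum _ fun e _ => ((PB.const (Cc e)).mul (pBθ.pow _)).add
    ((PB.const (Cm e)).mul (pBθ.pow _))
  refine ⟨fun X => (W X + 1) * B2 X, (pW.add (PB.const 1)).mul pB2, ?_, ?_⟩
  · intro X hX
    have a3 : 1 ≤ B2 X := Nat.mul_pos (Nat.mul_pos (by omega) (Nat.pow_pos hX))
      (Nat.mul_pos hX hX)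
    show 1 ≤ (W X + 1) * B2 X
    exact Nat.mul_pos (Nat.succ_pos _) a3
  intro X hX L K _ a δ ⟨hK, ha, hδ, hht, S, hSc, hS⟩
  obtain ⟨m, n', hm0, hn0', hmX, hnX', hIa, hIδ, hIn⟩ := coefH d K a δ X hht
  have hX4 : 1 ≤ X ^ (d + 4) := Nat.pow_pos hX
  have hXX : 1 ≤ X * X := Nat.mul_pos hX hX
  have hX34 : X ^ (d + 3) ≤ X ^ (d + 4) := Nat.pow_le_pow_right hX (by omega)
  have hB2a : X ^ (d + 4) ≤ B2 X := by
    calc X ^ (d + 4) = 1 * X ^ (d + 4) * 1 := by ring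
      _ ≤ _ := Nat.mul_le_mul (Nat.mul_le_mul_right _ (by omega)) hXX
  -- the long orbit
  let F : Polynomial Qb := ∑ i : Fin (d + 1), Polynomial.C ((a i : K) : Qb) *
    Polynomial.X ^ (i : ℕ)
  have hFe : ∀ y, F.eval y = ∑ i, ((a i : K) : Qb) * y ^ (i : ℕ) := by
    intro y
    show (∑ i : Fin (d + 1), Polynomial.C ((a i : K) : Qb) * Polynomial.X ^ (i : ℕ)).eval y = _
    rw [Polynomial.eval_finsetSum]
    refine Finset.sum_congr rfl fun i _ => ?_
    rw [Polynomial.eval_mul, Polynomial.eval_C, Polynomial.eval_pow, Polynomial.eval_X]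
  have haQ : ((a (Fin.last d) : K) : Qb) ≠ 0 := by
    intro h
    exact ha (by exact_mod_cast h)
  have hδQ : (δ : Qb) ≠ 0 := by
    intro h
    exact hδ (by exact_mod_cast h)
  have hFd : F.natDegree = d := by
    have h1 : F = FP (fun i => ((a i : K) : Qb)) 1 := by
      unfold FP
      simp only [div_one]
      rfl
    rw [h1]
    exact FP_natDegree one_ne_zero haQ
  have hhen : (fun P : Qb × Qb => (P.2, ∑ i, ((a i : K) : Qb) * P.2 ^ (i : ℕ) - (δ : Qb) * P.1)) =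
      hen F (δ : Qb) := by
    funext P
    unfold hen
    rw [hFe]
  obtain ⟨P, hP, z, hz0, hz1, hzr, ⟨n, hn, hper⟩, hlong⟩ := longH hd L F hFd (δ : Qb) hδQ S hSc
    (fun P hP => by
      have := (hS P hP).1
      rw [hhen] at this
      exact this)
  have hzr' : ∀ k, z (k + 2) = ∑ i, ((a i : K) : Qb) * z (k + 1) ^ (i : ℕ) - (δ : Qb) * z k := by
    intro k
    rw [hzr, hFe]
  -- the field of the point
  let KP := IntermediateField.adjoin K ({P.1, P.2} : Set Qb)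
  have halg : Algebra.IsAlgebraic ℚ Qb := AlgebraicClosure.isAlgebraic ℚ
  have hfdP : FiniteDimensional K KP := by
    apply IntermediateField.finiteDimensional_adjoin
    intro x _
    exact (halg.isAlgebraic x).isIntegral.tower_top
  have hfdQ : FiniteDimensional ℚ KP := FiniteDimensional.trans ℚ K KP
  let E : IntermediateField ℚ Qb := KP.restrictScalars ℚ
  have hEfd : FiniteDimensional ℚ E := hfdQ
  have hEnf : NumberField E := ⟨⟩
  have hEr : Module.finrank ℚ E ≤ D * B := by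
    have h1 : Module.finrank ℚ E = Module.finrank ℚ KP := rfl
    rw [h1, ← Module.finrank_mul_finrank ℚ K KP]
    exact Nat.mul_le_mul hK (hS P hP).2
  have hKE : ∀ x : K, (x : Qb) ∈ E := fun x => KP.algebraMap_mem x
  have hP1 : z 0 ∈ E := by
    rw [hz0]
    exact IntermediateField.subset_adjoin K _ (Or.inl rfl)
  have hP2 : z 1 ∈ E := by
    rw [hz1]
    exact IntermediateField.subset_adjoin K _ (Or.inr rfl)
  have hzE : ∀ k, z k ∈ E := mem_orb E hδQ (fun i => hKE (a i)) (hKE δ) z hzr' hP1 hP2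
  -- the size of the orbit
  have hIm : Ib (X ^ (d + 4)) (m : Qb) := (Ib.nat m).mono (hmX.trans hX34)
  have hIz : ∀ k, Ib ((d + 2) * X ^ (d + 4)) ((m : Qb) * ((a (Fin.last d) : K) : Qb) * z k) := by
    intro k
    have h1 := orbIb hd E (X ^ (d + 4)) (fun i => (⟨(m : Qb) * ((a i : K) : Qb),
      mul_mem (_root_.natCast_mem _ _) (hKE (a i))⟩ : E)) (m : E)
      (⟨(m : Qb) * (δ : Qb), mul_mem (_root_.natCast_mem _ _) (hKE δ)⟩ : E)
      (fun i => hIa i) (by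
        have : (((m : E) : E) : Qb) = (m : Qb) := by push_cast; rfl
        rw [this]
        exact hIm) hIδ (fun k => (⟨z k, hzE k⟩ : E)) (fun k => by
        apply Subtype.ext
        push_cast
        rw [hzr', mul_sub, Finset.mul_sum]
        congr 1
        · refine Finset.sum_congr rfl fun i _ => ?_
          ring
        · ring) n hn (fun k => Subtype.ext (hper k)) k
    exact h1
  obtain ⟨q₀, hq₀⟩ : ∃ q₀ : ℕ, q₀ = m * n' := ⟨_, rfl⟩
  have hq₀0 : q₀ ≠ 0 := by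
    rw [hq₀]
    exact Nat.mul_ne_zero hm0 hn0'
  have hIq : ∀ k, Ib (B2 X) ((q₀ : Qb) * z k) := by
    intro k
    have h1 := (hIz k).mul hIn
    have h2 : (m : Qb) * ((a (Fin.last d) : K) : Qb) * z k *
        ((n' : Qb) * (((a (Fin.last d) : K) : Qb))⁻¹) = (q₀ : Qb) * z k := by
      rw [hq₀]
      push_cast
      field_simp
    rw [h2] at h1
    exact h1
  have hq₀X : q₀ ≤ B2 X := by
    rw [hq₀]
    calc m * n' ≤ X ^ (d + 4) * (X * X) := Nat.mul_le_mul (hmX.trans hX34)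
          (hnX'.trans (Nat.le_mul_of_pos_left _ hX))
      _ ≤ _ := Nat.mul_le_mul_right _ (Nat.le_mul_of_pos_left _ (by omega))
  -- the elements
  let al : Gx d → Qb := elt (m : Qb) (q₀ : Qb) (fun i => ((a i : K) : Qb)) (δ : Qb) (z 0) (z 1)
  have hal : ∀ g, Ib (B2 X) (al g) ∧ al g ∈ E := by
    intro g
    rcases g with i | j
    · exact ⟨(hIa i).mono hB2a, mul_mem (_root_.natCast_mem _ _) (hKE (a i))⟩
    · fin_cases j
      · exact ⟨hIm.mono hB2a, _root_.natCast_mem _ _⟩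
      · exact ⟨hIδ.mono hB2a, mul_mem (_root_.natCast_mem _ _) (hKE δ)⟩
      · exact ⟨hIq 0, mul_mem (_root_.natCast_mem _ _) (hzE 0)⟩
      · exact ⟨hIq 1, mul_mem (_root_.natCast_mem _ _) (hzE 1)⟩
      · exact ⟨(Ib.nat q₀).mono hq₀X, _root_.natCast_mem _ _⟩
  let α : Fin M → Qb := fun q => al (ee.symm q)
  have hα : ∀ g, α (ee g) = al g := fun g => by
    show al (ee.symm (ee g)) = al g
    rw [Equiv.symm_apply_apply]
  obtain ⟨θ, hθE, hθb, hθα⟩ := prim_elt M (D * B) α (B2 X) (fun q => (hal _).1) E hEr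
    (fun q => (hal _).2)
  have hθB : Ib (Bθ X) θ := hθb
  have hMpos : 1 ≤ M := by
    rw [hM]
    exact Fintype.card_pos
  have b2 : 1 ≤ B2 X := hX4.trans hB2a
  have bθ : 1 ≤ Bθ X := Nat.mul_pos (Nat.mul_pos hMpos (Nat.succ_pos _)) b2
  have hint : IsIntegral ℚ θ := by
    have : IsIntegral ℤ θ := hθb.1
    exact this.tower_top
  obtain ⟨e, he⟩ : ∃ e, (minpoly ℚ θ).natDegree = e + 1 :=
    ⟨(minpoly ℚ θ).natDegree - 1, by have := minpoly.natDegree_pos hint; omega⟩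
  have heD : e < D * B := by
    have h1 : ℚ⟮θ⟯ ≤ E := by
      rw [IntermediateField.adjoin_simple_le_iff]
      exact hθE
    have hfdE : Module.Finite ℚ (Subalgebra.toSubmodule E.toSubalgebra) := hEfd
    have h2 : Module.finrank ℚ ℚ⟮θ⟯ ≤ Module.finrank ℚ E :=
      Submodule.finrank_mono (s := ℚ⟮θ⟯.toSubalgebra.toSubmodule)
        (t := E.toSubalgebra.toSubmodule) h1
    rw [IntermediateField.adjoin.finrank hint, he] at h2
    omega
  obtain ⟨Δ, hΔ0, hΔb, hΔ⟩ := Hcc e θ (Bθ X) bθ hθB he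
  obtain ⟨μ, hμ1, hμ2⟩ := Hcm e θ (Bθ X) bθ hθB he
  have hWc : Cc e * (Bθ X) ^ (Ac e) ≤ W X := by
    have := Finset.single_le_sum
      (f := fun e => Cc e * (Bθ X) ^ (Ac e) + Cm e * (Bθ X) ^ (Am e))
      (fun _ _ => Nat.zero_le _) (Finset.mem_range.2 heD)
    exact (Nat.le_add_right _ _).trans this
  have hWm : Cm e * (Bθ X) ^ (Am e) ≤ W X := by
    have := Finset.single_le_sum
      (f := fun e => Cc e * (Bθ X) ^ (Ac e) + Cm e * (Bθ X) ^ (Am e))
      (fun _ _ => Nat.zero_le _) (Finset.mem_range.2 heD)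
    exact (Nat.le_add_left _ _).trans this
  have hWY : ∀ B, B ≤ B2 X → Cc e * (Bθ X) ^ (Ac e) * B ≤ (W X + 1) * B2 X := fun B hB =>
    Nat.mul_le_mul (hWc.trans (Nat.le_succ _)) hB
  have hΔQ : (Δ : Qb) ≠ 0 := by exact_mod_cast hΔ0
  have hmem : ∀ g, al g ∈ ℚ⟮θ⟯ := by
    intro g
    rw [← hα]
    exact hθα _
  choose cc hcc1 hcc2 using fun g => hΔ (al g) (B2 X) (hmem g) (hal g).1
  obtain ⟨t, ht⟩ : ∃ t : Fin (Jc d e) → ℤ, t = fun q => Sum.elim μ
      (fun k => cc k.1 k.2) ((jeH d e).symm q) := ⟨_, rfl⟩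
  have t1 : ∀ l, t (jmH d e l) = μ l := by
    intro l
    rw [ht]
    simp [jmH]
  have t2 : ∀ g l, t (jgH d e g l) = cc g l := by
    intro g l
    rw [ht]
    simp [jgH]
  -- the coefficients and the orbit are in the field generated by `θ`
  have hmQ : (m : Qb) ≠ 0 := by exact_mod_cast hm0
  have hq₀Q : (q₀ : Qb) ≠ 0 := by exact_mod_cast hq₀0
  have hdiv : ∀ (c x : Qb), c ≠ 0 → c ∈ ℚ⟮θ⟯ → c * x ∈ ℚ⟮θ⟯ → x ∈ ℚ⟮θ⟯ := by
    intro c x hc hcE hx
    have h1 := mul_mem (inv_mem hcE) hx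
    rwa [inv_mul_cancel_left₀ hc] at h1
  have haθ : ∀ i, ((a i : K) : Qb) ∈ ℚ⟮θ⟯ := fun i =>
    hdiv _ _ hmQ (_root_.natCast_mem _ _) (hmem (Sum.inl i))
  have hδθ : (δ : Qb) ∈ ℚ⟮θ⟯ := hdiv _ _ hmQ (_root_.natCast_mem _ _) (hmem (Sum.inr 1))
  have hz0θ : z 0 ∈ ℚ⟮θ⟯ := hdiv _ _ hq₀Q (_root_.natCast_mem _ _) (hmem (Sum.inr 2))
  have hz1θ : z 1 ∈ ℚ⟮θ⟯ := hdiv _ _ hq₀Q (_root_.natCast_mem _ _) (hmem (Sum.inr 3))
  have hzθ : ∀ k, z k ∈ ℚ⟮θ⟯ := mem_orb ℚ⟮θ⟯ hδQ haθ hδθ z hzr' hz0θ hz1θ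
  refine ⟨e, heD, t, θ, (Δ : Qb) * m, (Δ : Qb) * q₀, z, mul_ne_zero hΔQ hmQ,
    mul_ne_zero hΔQ hq₀Q, ?_, ?_, fun a ha => lin_pow_int he a ha, ?_, hzr', hlong, ?_,
    ⟨E, hEfd, hEr, hzE⟩⟩
  · intro q
    obtain ⟨q', rfl⟩ := (jeH d e).surjective q
    rcases q' with l | ⟨g, l⟩
    · refine (congrArg abs (t1 l)).le.trans ((hμ2 l).trans ?_)
      have : Cm e * (Bθ X) ^ (Am e) ≤ (W X + 1) * B2 X :=
        calc Cm e * (Bθ X) ^ (Am e) ≤ (W X + 1) * 1 := by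
              rw [mul_one]; exact hWm.trans (Nat.le_succ _)
          _ ≤ _ := Nat.mul_le_mul_left _ b2
      exact_mod_cast this
    · exact (congrArg abs (t2 g l)).le.trans ((hcc2 g l).trans (by exact_mod_cast hWY _ le_rfl))
  · simp only [t1]
    exact hμ1
  · intro g
    unfold gel
    rw [aeval_lp]
    simp only [eval_X, t2]
    rw [← hcc1]
    rcases g with i | j
    · show (Δ : Qb) * ((m : Qb) * _) = (Δ : Qb) * m * _
      ring
    · fin_cases j
      · rfl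
      · show (Δ : Qb) * ((m : Qb) * _) = (Δ : Qb) * m * _
        ring
      · show (Δ : Qb) * ((q₀ : Qb) * _) = (Δ : Qb) * q₀ * _
        ring
      · show (Δ : Qb) * ((q₀ : Qb) * _) = (Δ : Qb) * q₀ * _
        ring
      · rfl
  · intro k
    obtain ⟨b, hb1, hb2⟩ := hΔ ((q₀ : Qb) * z k) (B2 X)
      (mul_mem (_root_.natCast_mem _ _) (hzθ k)) (hIq k)
    refine ⟨Δ * q₀, b, mul_ne_zero hΔ0 (by exact_mod_cast hq₀0), ?_, fun l => ?_, ?_⟩
    · rw [abs_mul, Nat.abs_cast]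
      have h3 : |Δ| * (q₀ : ℤ) ≤ ((Cc e * (Bθ X) ^ (Ac e) * B2 X : ℕ) : ℤ) := by
        push_cast
        refine mul_le_mul ?_ (by exact_mod_cast hq₀X) (by positivity) (by positivity)
        exact_mod_cast hΔb
      exact h3.trans (by exact_mod_cast hWY _ le_rfl)
    · exact (hb2 l).trans (by exact_mod_cast hWY _ le_rfl)
    · rw [← hb1]
      push_cast
      ring

end Pool.Agent.R323.HN
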