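import Pool.Agent.R323.Ar2

/-!
# Orbits of Hénon maps in fractions
-/

set_option autoImplicit false

namespace Pool.Agent.R323.HN

open Pool.Agent.R323

section defs

variable {R S : Type*} [CommRing R] [CommRing S] {d : ℕ}

/-- one step of the recursion of a Hénon map for fractions -/
def st (A : Fin (d + 1) → R) (Δ Q : R) (p q : Fin 2 → R) : Fin 2 → R :=
  ![(∑ i, A i * q 0 ^ (i : ℕ) * q 1 ^ (d - (i : ℕ))) * p 1 - Q * p 0 * q 1 ^ d,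
    Δ * q 1 ^ d * p 1]

/-- the forward orbit -/
def ob (A : Fin (d + 1) → R) (Δ Q : R) (p q : Fin 2 → R) : ℕ → Fin 2 → R
  | 0 => p
  | 1 => q
  | n + 2 => st A Δ Q (ob A Δ Q p q n) (ob A Δ Q p q (n + 1))

/-- the two-sided orbit -/
def Wz (A : Fin (d + 1) → R) (Δ Q : R) (p q : Fin 2 → R) (n : ℤ) : Fin 2 → R :=
  if 0 ≤ n then ob A Δ Q p q n.toNat else ob A Q Δ q p (1 - n).toNat

theorem st_map (φ : R →+* S) (A : Fin (d + 1) → R) (Δ Q : R) (p q : Fin 2 → R) :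
    (fun i => φ (st A Δ Q p q i)) =
      st (fun i => φ (A i)) (φ Δ) (φ Q) (fun i => φ (p i)) (fun i => φ (q i)) := by
  funext i
  fin_cases i
  · simp [st, map_sum]
  · simp [st]

theorem ob_map (φ : R →+* S) (A : Fin (d + 1) → R) (Δ Q : R) (p q : Fin 2 → R) (n : ℕ) :
    (fun i => φ (ob A Δ Q p q n i)) =
        ob (fun i => φ (A i)) (φ Δ) (φ Q) (fun i => φ (p i)) (fun i => φ (q i)) n ∧
      (fun i => φ (ob A Δ Q p q (n + 1) i)) =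
        ob (fun i => φ (A i)) (φ Δ) (φ Q) (fun i => φ (p i)) (fun i => φ (q i)) (n + 1) := by
  induction n with
  | zero => exact ⟨rfl, rfl⟩
  | succ n ih =>
    refine ⟨ih.2, ?_⟩
    show (fun i => φ (st A Δ Q (ob A Δ Q p q n) (ob A Δ Q p q (n + 1)) i)) = _
    rw [st_map, ih.1, ih.2]
    rfl

theorem Wz_map (φ : R →+* S) (A : Fin (d + 1) → R) (Δ Q : R) (p q : Fin 2 → R) (n : ℤ) :
    (fun i => φ (Wz A Δ Q p q n i)) =
      Wz (fun i => φ (A i)) (φ Δ) (φ Q) (fun i => φ (p i)) (fun i => φ (q i)) n := by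
  unfold Wz
  split_ifs
  · exact (ob_map φ A Δ Q p q _).1
  · exact (ob_map φ A Q Δ q p _).1

theorem Wz_pos (A : Fin (d + 1) → R) (Δ Q : R) (p q : Fin 2 → R) (m : ℕ) :
    Wz A Δ Q p q (m : ℤ) = ob A Δ Q p q m := by
  unfold Wz
  rw [if_pos (by positivity), Int.toNat_natCast]

theorem Wz_neg (A : Fin (d + 1) → R) (Δ Q : R) (p q : Fin 2 → R) (m : ℕ) :
    Wz A Δ Q p q (1 - m : ℤ) = ob A Q Δ q p m := by
  match m with
  | 0 => exact Wz_pos A Δ Q p q 1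
  | 1 => exact Wz_pos A Δ Q p q 0
  | m + 2 =>
    unfold Wz
    rw [if_neg (by push_cast; omega)]
    congr 1
    push_cast
    omega

end defs

section field

variable {L : Type*} [Field L] {d : ℕ} {A : Fin (d + 1) → L} {Δ Q : L} {p q : Fin 2 → L}

theorem ob_ne (hΔ : Δ ≠ 0) (hp : p 1 ≠ 0) (hq : q 1 ≠ 0) (n : ℕ) :
    ob A Δ Q p q n 1 ≠ 0 ∧ ob A Δ Q p q (n + 1) 1 ≠ 0 := by
  induction n with
  | zero => exact ⟨hp, hq⟩
  | succ n ih =>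
    refine ⟨ih.2, ?_⟩
    show st A Δ Q (ob A Δ Q p q n) (ob A Δ Q p q (n + 1)) 1 ≠ 0
    show Δ * (ob A Δ Q p q (n + 1) 1) ^ d * (ob A Δ Q p q n 1) ≠ 0
    exact mul_ne_zero (mul_ne_zero hΔ (pow_ne_zero _ ih.2)) ih.1

theorem Wz_ne (hΔ : Δ ≠ 0) (hQ : Q ≠ 0) (hp : p 1 ≠ 0) (hq : q 1 ≠ 0) (n : ℤ) :
    Wz A Δ Q p q n 1 ≠ 0 := by
  unfold Wz
  split_ifs
  · exact (ob_ne hΔ hp hq _).1
  · exact (ob_ne hQ hq hp _).1

theorem ob_rec (hΔ : Δ ≠ 0) (hp : p 1 ≠ 0) (hq : q 1 ≠ 0) (n : ℕ) :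
    Δ * (ob A Δ Q p q (n + 2) 0 / ob A Δ Q p q (n + 2) 1) =
      ∑ i, A i * (ob A Δ Q p q (n + 1) 0 / ob A Δ Q p q (n + 1) 1) ^ (i : ℕ) -
        Q * (ob A Δ Q p q n 0 / ob A Δ Q p q n 1) := by
  obtain ⟨h0, h1⟩ := ob_ne (A := A) (Q := Q) hΔ hp hq n
  set u := ob A Δ Q p q n with hu
  set v := ob A Δ Q p q (n + 1) with hv
  have h2 : ob A Δ Q p q (n + 2) = st A Δ Q u v := rfl
  rw [h2]
  show Δ * (((∑ i, A i * v 0 ^ (i : ℕ) * v 1 ^ (d - (i : ℕ))) * u 1 - Q * u 0 * v 1 ^ d) /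
    (Δ * v 1 ^ d * u 1)) = _
  have h3 : ∑ i, A i * v 0 ^ (i : ℕ) * v 1 ^ (d - (i : ℕ)) =
      (∑ i, A i * (v 0 / v 1) ^ (i : ℕ)) * v 1 ^ d := by
    rw [Finset.sum_mul]
    refine Finset.sum_congr rfl fun i _ => ?_
    have hD : v 1 ^ d = v 1 ^ (i : ℕ) * v 1 ^ (d - (i : ℕ)) := by
      rw [← pow_add]
      congr 1
      have := i.2
      omega
    rw [hD, div_pow]
    have := pow_ne_zero (i : ℕ) h1
    field_simp
  rw [h3]
  have h4 := pow_ne_zero d h1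
  field_simp

theorem Wz_rec (hΔ : Δ ≠ 0) (hQ : Q ≠ 0) (hp : p 1 ≠ 0) (hq : q 1 ≠ 0) (n : ℤ) :
    Δ * (Wz A Δ Q p q (n + 2) 0 / Wz A Δ Q p q (n + 2) 1) =
      ∑ i, A i * (Wz A Δ Q p q (n + 1) 0 / Wz A Δ Q p q (n + 1) 1) ^ (i : ℕ) -
        Q * (Wz A Δ Q p q n 0 / Wz A Δ Q p q n 1) := by
  by_cases hn : 0 ≤ n
  · obtain ⟨m, rfl⟩ := Int.eq_ofNat_of_zero_le hn
    have e1 : ((m : ℤ) + 2) = ((m + 2 : ℕ) : ℤ) := by push_cast; ring
    have e2 : ((m : ℤ) + 1) = ((m + 1 : ℕ) : ℤ) := by push_cast; ring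
    rw [e1, e2, Wz_pos, Wz_pos, Wz_pos]
    exact ob_rec hΔ hp hq m
  · push Not at hn
    obtain ⟨m, hm⟩ := Int.eq_ofNat_of_zero_le (show 0 ≤ -1 - n by omega)
    have e0 : n = 1 - ((m + 2 : ℕ) : ℤ) := by push_cast; omega
    have e1 : n + 1 = 1 - ((m + 1 : ℕ) : ℤ) := by push_cast; omega
    have e2 : n + 2 = 1 - ((m : ℕ) : ℤ) := by omega
    rw [e1, e2, e0, Wz_neg, Wz_neg, Wz_neg]
    have h1 := ob_rec (A := A) (Q := Δ) hQ hq hp m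
    linear_combination h1

/-- uniqueness of the orbit -/
theorem Wz_unique (hΔ : Δ ≠ 0) (hQ : Q ≠ 0) (hp : p 1 ≠ 0) (hq : q 1 ≠ 0) (z : ℤ → L)
    (hz : ∀ n, Δ * z (n + 2) = ∑ i, A i * (z (n + 1)) ^ (i : ℕ) - Q * z n)
    (h0 : z 0 = p 0 / p 1) (h1 : z 1 = q 0 / q 1) (n : ℤ) :
    z n = Wz A Δ Q p q n 0 / Wz A Δ Q p q n 1 := by
  have key : ∀ n : ℤ, z n = Wz A Δ Q p q n 0 / Wz A Δ Q p q n 1 ∧
      z (n + 1) = Wz A Δ Q p q (n + 1) 0 / Wz A Δ Q p q (n + 1) 1 := by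
    intro n
    induction n using Int.induction_on with
    | zero => exact ⟨h0, h1⟩
    | succ n ih =>
      refine ⟨ih.2, ?_⟩
      rw [show (n : ℤ) + 1 + 1 = (n : ℤ) + 2 by ring]
      have e1 := hz n
      have e2 := Wz_rec (A := A) hΔ hQ hp hq n
      rw [ih.1, ih.2, ← e2] at e1
      exact mul_left_cancel₀ hΔ e1
    | pred n ih =>
      rw [show -(n : ℤ) - 1 + 1 = -(n : ℤ) by ring]
      refine ⟨?_, ih.1⟩
      have e1 := hz (-(n : ℤ) - 1)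
      have e2 := Wz_rec (A := A) hΔ hQ hp hq (-(n : ℤ) - 1)
      rw [show -(n : ℤ) - 1 + 2 = -(n : ℤ) + 1 by ring, show -(n : ℤ) - 1 + 1 = -(n : ℤ) by ring]
        at e1 e2
      rw [ih.1, ih.2] at e1
      refine mul_left_cancel₀ hQ ?_
      linear_combination e1 - e2
  exact (key n).1

/-- the polynomial of the Hénon map -/
noncomputable def FP (A : Fin (d + 1) → L) (Δ : L) : Polynomial L :=
  ∑ i : Fin (d + 1), Polynomial.C (A i / Δ) * Polynomial.X ^ (i : ℕ)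

theorem FP_eval (hΔ : Δ ≠ 0) (y : L) : Δ * (FP A Δ).eval y = ∑ i, A i * y ^ (i : ℕ) := by
  unfold FP
  rw [Polynomial.eval_finsetSum, Finset.mul_sum]
  refine Finset.sum_congr rfl fun i _ => ?_
  rw [Polynomial.eval_mul, Polynomial.eval_C, Polynomial.eval_pow, Polynomial.eval_X]
  field_simp

theorem FP_natDegree (hΔ : Δ ≠ 0) (hA : A (Fin.last d) ≠ 0) : (FP A Δ).natDegree = d := by
  have hFc : (FP A Δ).coeff d = A (Fin.last d) / Δ := by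
    unfold FP
    rw [Polynomial.finsetSum_coeff, Finset.sum_eq_single (Fin.last d)]
    · rw [Polynomial.coeff_C_mul, Polynomial.coeff_X_pow, if_pos (by simp), mul_one]
    · intro e' _ hne
      rw [Polynomial.coeff_C_mul, Polynomial.coeff_X_pow, if_neg, mul_zero]
      intro h
      exact hne (Fin.ext (by simpa using h.symm))
    · intro h
      exact absurd (Finset.mem_univ _) h
  refine Polynomial.natDegree_eq_of_le_of_coeff_ne_zero ?_ ?_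
  · refine Polynomial.natDegree_sum_le_of_forall_le _ _ fun i hi => ?_
    exact (Polynomial.natDegree_C_mul_X_pow_le _ _).trans (by have := i.2; omega)
  · rw [hFc]
    exact div_ne_zero hA hΔ

theorem FP_rec (hΔ : Δ ≠ 0) (hQ : Q ≠ 0) (hp : p 1 ≠ 0) (hq : q 1 ≠ 0) (n : ℤ) :
    Wz A Δ Q p q (n + 2) 0 / Wz A Δ Q p q (n + 2) 1 =
      (FP A Δ).eval (Wz A Δ Q p q (n + 1) 0 / Wz A Δ Q p q (n + 1) 1) -
        Q / Δ * (Wz A Δ Q p q n 0 / Wz A Δ Q p q n 1) := by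
  have h1 := Wz_rec (A := A) hΔ hQ hp hq n
  rw [← FP_eval hΔ] at h1
  refine mul_left_cancel₀ hΔ ?_
  rw [h1, mul_sub, ← mul_assoc Δ (Q / Δ), mul_div_cancel₀ _ hΔ]

theorem ratio_eq {wa wb wc we : Fin 2 → L} (ha : wa 1 ≠ 0) (hb : wb 1 ≠ 0) (hc : wc 1 ≠ 0)
    (he : we 1 ≠ 0) :
    (wa 0 / wa 1 - wb 0 / wb 1) / (wc 0 / wc 1 - we 0 / we 1) =
      (wg wa wb * (wc 1 * we 1)) / (wg wc we * (wa 1 * wb 1)) := by
  have k5 : wa 0 / wa 1 - wb 0 / wb 1 = wg wa wb / (wa 1 * wb 1) := by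
    show _ = (wa 0 * wb 1 - wa 1 * wb 0) / _
    rw [div_sub_div _ _ ha hb]
  have k6 : wc 0 / wc 1 - we 0 / we 1 = wg wc we / (wc 1 * we 1) := by
    show _ = (wc 0 * we 1 - wc 1 * we 0) / _
    rw [div_sub_div _ _ hc he]
  rw [k5, k6, div_div_div_eq, mul_comm (wa 1 * wb 1)]

theorem eq_iff_wg {wa wb : Fin 2 → L} (ha : wa 1 ≠ 0) (hb : wb 1 ≠ 0) :
    wa 0 / wa 1 = wb 0 / wb 1 ↔ wg wa wb = 0 := by
  rw [div_eq_div_iff ha hb, wg, sub_eq_zero, mul_comm (wb 0)]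

end field

end Pool.Agent.R323.HN
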