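import Pool.Agent.R323.HN.I
import Pool.Agent.R323.NF.F

/-!
# Hénon maps over the function field of a generic internal set
-/

set_option autoImplicit false

namespace Pool.Agent.R323.HN

open Pool.Agent.R323 Pool.Agent.TH450.FG Real Finset Polynomial

universe u v w

section alg

variable {K₀ : Type v} {K : Type u} [Field K₀] [CharZero K₀] [Field K] [Algebra K₀ K]

/-- **Ratios of differences are algebraic.** -/
theorem cross_algH {N r D e' : ℕ} (x : Fin N → K) (θ : K) (ι : Fin r → Fin N) (hr : 0 < r)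
    (hind : AlgebraicIndependent K₀ (fun b => x (ι b)))
    (htop : IntermediateField.adjoin K₀ (insert θ (Set.range x)) = ⊤)
    (halg : ∀ j, IsAlgebraic (IntermediateField.adjoin K₀ (Set.range fun b => x (ι b))) (x j))
    (hθ : IsAlgebraic (IntermediateField.adjoin K₀ (Set.range fun b => x (ι b))) θ)
    (F : K[X]) (hd : 2 ≤ F.natDegree) (δ : K) (hδ : δ ≠ 0) (z : ℤ → K)
    (hz : ∀ n, z (n + 2) = F.eval (z (n + 1)) - δ * z n)
    (hinj : ∀ m n, z m = z n → z (m + 1) = z (n + 1) → m = n)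
    (hrel : ∀ n, ∃ ζ : Fin (e' + 1) → K, z n = ∑ l, ζ l * θ ^ (l : ℕ) ∧
      ∀ l, ∃ c : (Fin r → Fin (D + 1)) × Fin (D + 1) → K₀, c ≠ 0 ∧
      ∑ e, algebraMap K₀ K (c e) * ((∏ b, x (ι b) ^ (e.1 b : ℕ)) * ζ l ^ (e.2 : ℕ)) = 0)
    (a b c e : ℤ) (hce : z c ≠ z e) : IsAlgebraic K₀ ((z a - z b) / (z c - z e)) := by
  classical
  set Bs : Set K := Set.range fun b => x (ι b) with hBs
  have hinj' : Function.Injective fun b => x (ι b) := hind.injective
  have hB : AlgebraicIndependent K₀ ((↑) : Bs → K) := hind.coe_range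
  have hne : Bs.Nonempty := ⟨_, ⟨⟨0, hr⟩, rfl⟩⟩
  refine Pool.Agent.Z864.UB.alg_of_all hB hne ?_
  rintro _ ⟨b₀, rfl⟩
  obtain ⟨g1, g2, -⟩ := Pool.Agent.Z864.UB.sub_data (k := K₀) (K := K) (B := Bs)
    (S := insert θ (Set.range x))
    (T := ∅) (b := x (ι b₀)) hB ⟨b₀, rfl⟩ ((Set.finite_range x).insert θ) (by
      rw [eq_top_iff, ← htop]
      exact IntermediateField.adjoin.mono _ _ _ Set.subset_union_right) (by
      rintro z hz
      rw [Pool.Agent.Z864.UB.mem_cl]
      rcases hz with rfl | ⟨j, rfl⟩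
      · exact hθ
      · exact halg j) (Set.empty_subset _)
  set kb := IntermediateField.adjoin K₀ ((Bs \ {x (ι b₀)}) ∪ ∅) with hkb
  have key : IsAlgebraic kb ((z a - z b) / (z c - z e)) := by
    refine ff kb K g1 g2 F hd δ hδ z hz hinj ?_ a b c e hce
    intro Q v
    let φ := phi kb K
    have htE : ∀ v (z : EE kb K), Q.V v (algebraMap (EE kb K) (LL kb K) z) ≤ 1 := by
      intro v z
      by_cases hz : z = 0
      · rw [hz]; simp
      · exact (Q.triv v z hz).le
    have ht : ∀ v (z : kb), Q.V v (φ (algebraMap kb K z)) ≤ 1 := by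
      intro v z
      show Q.V v (phi kb K (algebraMap kb K z)) ≤ 1
      rw [phi_alg]
      exact htE _ _
    obtain ⟨B, hB0, hB'⟩ := loc_le Q (φ (x (ι b₀))) D
    -- the bound for the coordinates
    obtain ⟨M, hM1, hM⟩ : ∃ M : ℝ, 1 ≤ M ∧ ∀ (y : LL kb K),
        Q.wt v * log (max 1 (Q.V v y)) ≤ B → Q.V v y ≤ M := by
      refine ⟨max 1 (Real.exp (B / Q.wt v)), le_max_left _ _, fun y hy => ?_⟩
      have h2 : log (max 1 (Q.V v y)) ≤ B / Q.wt v := by
        rw [le_div_iff₀ (Q.wt_pos v)]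
        linarith
      have h3 : (0 : ℝ) < max 1 (Q.V v y) := lt_of_lt_of_le one_pos (le_max_left _ _)
      calc Q.V v y ≤ max 1 (Q.V v y) := le_max_right _ _
        _ = Real.exp (log (max 1 (Q.V v y))) := (Real.exp_log h3).symm
        _ ≤ Real.exp (B / Q.wt v) := Real.exp_le_exp.2 h2
        _ ≤ _ := le_max_right _ _
    refine ⟨M * (max 1 (Q.V v (φ θ))) ^ e', fun n => ?_⟩
    obtain ⟨ζ, hζ, hζ'⟩ := hrel n
    have hMθ : (1 : ℝ) ≤ max 1 (Q.V v (φ θ)) := le_max_left _ _
    have hφz : φ (z n) = ∑ l, φ (ζ l) * φ θ ^ (l : ℕ) := by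
      rw [hζ, map_sum]
      refine Finset.sum_congr rfl fun l _ => ?_
      rw [map_mul, map_pow]
    show Q.V v (φ (z n)) ≤ _
    rw [hφz]
    refine na_sum_le (Q.na v) _ _ (by positivity) fun l _ => ?_
    rw [map_mul, map_pow]
    refine mul_le_mul ?_ ?_ (by positivity) (by positivity)
    · apply hM
      obtain ⟨cc, hc0, hc1⟩ := hζ' l
      refine hB' D (φ (ζ l)) (fun i => φ (∑ e1 : Fin r → Fin (D + 1),
        algebraMap K₀ K (cc (e1, i)) * ∏ b, x (ι b) ^ (e1 b : ℕ))) ?_ ?_ ?_ v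
      · obtain ⟨⟨e1, i⟩, hei⟩ := Function.ne_iff.1 hc0
        refine ⟨i, ?_⟩
        rw [Ne, map_eq_zero]
        refine rel_ne (fun b => x (ι b)) hind (fun e1 => cc (e1, i)) ?_
        intro h
        exact hei (congrFun h e1)
      · have h5 := congrArg φ hc1
        rw [map_zero] at h5
        rw [← h5, Fintype.sum_prod_type_right, map_sum]
        refine Finset.sum_congr rfl fun i _ => ?_
        rw [← map_pow, ← map_mul]
        congr 1
        rw [Finset.sum_mul]
        refine Finset.sum_congr rfl fun e1 _ => ?_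
        ring
      · intro v' i
        have htE' : ∀ z : kb, Q.V v' (φ (algebraMap kb K z)) ≤ 1 := ht v'
        have hM1 : (1 : ℝ) ≤ max 1 (Q.V v' (φ (x (ι b₀)))) := le_max_left _ _
        rw [map_sum]
        refine na_sum_le (Q.na v') _ _ (by positivity) fun e1 _ => ?_
        rw [map_mul, map_mul, map_prod, map_prod]
        have j1 : Q.V v' (φ (algebraMap K₀ K (cc (e1, i)))) ≤ 1 :=
          htE' (algebraMap K₀ kb (cc (e1, i)))
        have j2 : ∏ b, Q.V v' (φ (x (ι b) ^ (e1 b : ℕ))) ≤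
            (max 1 (Q.V v' (φ (x (ι b₀))))) ^ D := by
          rw [← Finset.mul_prod_erase _ _ (Finset.mem_univ b₀)]
          have j3 : ∏ b ∈ Finset.univ.erase b₀, Q.V v' (φ (x (ι b) ^ (e1 b : ℕ))) ≤ 1 := by
            refine Finset.prod_le_one (fun _ _ => (Q.V v').nonneg _) fun b hb => ?_
            rw [map_pow, map_pow]
            refine pow_le_one₀ ((Q.V v').nonneg _) ?_
            have hmem : x (ι b) ∈ kb := by
              apply IntermediateField.subset_adjoin
              left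
              refine ⟨⟨b, rfl⟩, ?_⟩
              intro h
              exact Finset.ne_of_mem_erase hb (hinj' h)
            exact htE' ⟨_, hmem⟩
          have j4 : Q.V v' (φ (x (ι b₀) ^ (e1 b₀ : ℕ))) ≤ (max 1 (Q.V v' (φ (x (ι b₀))))) ^ D := by
            rw [map_pow, map_pow]
            calc Q.V v' (φ (x (ι b₀))) ^ (e1 b₀ : ℕ) ≤
                  (max 1 (Q.V v' (φ (x (ι b₀))))) ^ (e1 b₀ : ℕ) :=
                  pow_le_pow_left₀ ((Q.V v').nonneg _) (le_max_right _ _) _
              _ ≤ _ := pow_le_pow_right₀ hM1 (by have := (e1 b₀).2; omega)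
          calc _ ≤ (max 1 (Q.V v' (φ (x (ι b₀))))) ^ D * 1 :=
                mul_le_mul j4 j3 (Finset.prod_nonneg fun _ _ => (Q.V v').nonneg _) (by positivity)
            _ = _ := mul_one _
        calc _ ≤ 1 * (max 1 (Q.V v' (φ (x (ι b₀))))) ^ D :=
              mul_le_mul j1 j2 (Finset.prod_nonneg fun _ _ => (Q.V v').nonneg _) zero_le_one
          _ = _ := one_mul _
    · calc Q.V v (φ θ) ^ (l : ℕ) ≤ (max 1 (Q.V v (φ θ))) ^ (l : ℕ) :=
            pow_le_pow_left₀ ((Q.V v).nonneg _) (le_max_right _ _) _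
        _ ≤ _ := pow_le_pow_right₀ hMθ (by have := l.2; omega)
  have h5 := Pool.Agent.Z864.UB.mem_cl.2 key
  rwa [Set.union_empty] at h5

end alg

end Pool.Agent.R323.HN
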