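import Pool.Agent.R323.HN.X
import Pool.Agent.R323.HN.W

/-!
# Hénon maps over the function field of a generic internal set
-/

set_option autoImplicit false

namespace Pool.Agent.R323.HN

open MvPolynomial Pool.Agent.Y902.GN Pool.Agent.H951R3.PB Pool.Agent.R323

section

variable {O : Type} [CommRing O] [IsDomain O] [CharZero O] {N e' : ℕ}

/-- **Ratios of differences are algebraic over the ring of constants.** -/
theorem gen_algH (J : Ideal (MvPolynomial (Option (Fin N)) O)) (hp : J.IsPrime)
    (hJ : ∀ c : O, c ≠ 0 → C c ∉ J) {r : ℕ} (hr : 0 < r) (ι : Fin r → Fin N)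
    (A : MvPolynomial (Fin N) O) (H : MvPolynomial (Option (Fin r)) O)
    (B₀ : MvPolynomial (Fin r) O) (B : Fin N → MvPolynomial (Option (Fin r)) O)
    (ind : ∀ P : MvPolynomial (Fin r) O, rename some (rename ι P) ∈ J → P = 0)
    (H0 : rename some (sb ι A H) ∈ J) (HT : rename some (sb ι A (pderiv none H)) ∉ J)
    (B00 : B₀ ≠ 0)
    (BX : ∀ i, rename some (rename ι B₀ * X i - sb ι A (B i)) ∈ J)
    (μ : Fin (e' + 1) → Fin N) (hm : mpl O μ ∈ J)
    {d : ℕ} (hd : 2 ≤ d) (gA : Fin (d + 1) → MvPolynomial (Option (Fin N)) O)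
    (gD gQ : MvPolynomial (Option (Fin N)) O) (g0 g1 : Fin 2 → MvPolynomial (Option (Fin N)) O)
    (hgA : gA (Fin.last d) ∉ J) (hgD : gD ∉ J) (hgQ : gQ ∉ J) (hg0 : g0 1 ∉ J) (hg1 : g1 1 ∉ J)
    (hwg : ∀ m n : ℤ, m ≠ n → ¬ (wg (Wz gA gD gQ g0 g1 m) (Wz gA gD gQ g0 g1 n) ∈ J ∧
      wg (Wz gA gD gQ g0 g1 (m + 1)) (Wz gA gD gQ g0 g1 (n + 1)) ∈ J)) (D : ℕ)
    (hrel : ∀ n : ℤ, ∃ (V : MvPolynomial (Fin N) O) (U : Fin (e' + 1) → MvPolynomial (Fin N) O),
      rename some V ∉ J ∧ rename some V * Wz gA gD gQ g0 g1 n 0 -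
        Wz gA gD gQ g0 g1 n 1 * lp U ∈ J ∧
      ∀ l, ∃ c : (Fin r → Fin (D + 1)) × Fin (D + 1) → O, c ≠ 0 ∧
      rename some (∑ e, C (c e) * ((∏ i, X (ι i) ^ (e.1 i : ℕ)) *
        (U l ^ (e.2 : ℕ) * V ^ (D - (e.2 : ℕ))))) ∈ J)
    (a b c e : ℤ) (hce : wg (Wz gA gD gQ g0 g1 c) (Wz gA gD gQ g0 g1 e) ∉ J) :
    ∃ p : Polynomial O, p ≠ 0 ∧ he (p.map C) p.natDegree
      ![wg (Wz gA gD gQ g0 g1 a) (Wz gA gD gQ g0 g1 b) *
          (Wz gA gD gQ g0 g1 c 1 * Wz gA gD gQ g0 g1 e 1),
        wg (Wz gA gD gQ g0 g1 c) (Wz gA gD gQ g0 g1 e) *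
          (Wz gA gD gQ g0 g1 a 1 * Wz gA gD gQ g0 g1 b 1)] ∈ J := by
  classical
  have : J.IsPrime := hp
  let Qt := MvPolynomial (Option (Fin N)) O ⧸ J
  let 𝔽 := FractionRing Qt
  let π : MvPolynomial (Option (Fin N)) O →+* 𝔽 := (algebraMap Qt 𝔽).comp (Ideal.Quotient.mk J)
  have hπ : ∀ P, π P = 0 ↔ P ∈ J := by
    intro P
    show algebraMap Qt 𝔽 (Ideal.Quotient.mk J P) = 0 ↔ _
    rw [IsFractionRing.to_map_eq_zero_iff, Ideal.Quotient.eq_zero_iff_mem]
  have hπC : ∀ c : O, algebraMap O 𝔽 c = π (C c) := fun c => rfl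
  have hinjO : Function.Injective (algebraMap O 𝔽) := by
    rw [injective_iff_map_eq_zero]
    intro c hc
    by_contra hne
    rw [hπC, hπ] at hc
    exact hJ c hne hc
  have hfs : FaithfulSMul O 𝔽 := (faithfulSMul_iff_algebraMap_injective O 𝔽).2 hinjO
  let K₀ := FractionRing O
  let _alg : Algebra K₀ 𝔽 := FractionRing.liftAlgebra O 𝔽
  have htow : IsScalarTower O K₀ 𝔽 := FractionRing.isScalarTower_liftAlgebra O 𝔽
  let x : Fin N → 𝔽 := fun j => π (X (some j))
  let Θ : 𝔽 := π (X none)
  let ρ : MvPolynomial (Fin N) O →+* 𝔽 := π.comp (rename some).toRingHom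
  have hρ : ∀ P, ρ P = π (rename some P) := fun P => rfl
  have hρC : ∀ c : O, ρ (C c) = π (C c) := by
    intro c
    rw [hρ, rename_C]
  have hρX : ∀ j, ρ (X j) = x j := by
    intro j
    rw [hρ, rename_X]
  have hρx : ∀ P, ρ P = aeval x P := by
    intro P
    induction P using MvPolynomial.induction_on with
    | C a => rw [aeval_C, hπC, hρC]
    | add p q hp hq => rw [map_add, map_add, hp, hq]
    | mul_X p i hp => rw [map_mul, map_mul, hp, aeval_X, hρX]
  have hind0 : AlgebraicIndependent O (fun b => x (ι b)) := by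
    rw [algebraicIndependent_iff]
    intro P hP
    apply ind
    rw [← hπ, ← hρ, hρx, aeval_rename]
    exact hP
  have hK₀alg : Algebra.IsAlgebraic O K₀ :=
    ⟨fun z => (IsFractionRing.isAlgebraic_iff O K₀ K₀).2 (isAlgebraic_algebraMap z)⟩
  have hind : AlgebraicIndependent K₀ (fun b => x (ι b)) := hind0.extendScalars K₀
  have hmemC : ∀ (E : IntermediateField K₀ 𝔽) (c : O), algebraMap O 𝔽 c ∈ E := by
    intro E c
    rw [IsScalarTower.algebraMap_apply O K₀ 𝔽]
    exact E.algebraMap_mem _
  have htop : IntermediateField.adjoin K₀ (insert Θ (Set.range x)) = ⊤ := by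
    rw [eq_top_iff]
    intro z _
    have hP : ∀ P, π P ∈ IntermediateField.adjoin K₀ (insert Θ (Set.range x)) := by
      intro P
      induction P using MvPolynomial.induction_on with
      | C a => rw [← hπC]; exact hmemC _ a
      | add p q hp hq => rw [map_add]; exact add_mem hp hq
      | mul_X p o hp =>
        rw [map_mul]
        refine mul_mem hp (IntermediateField.subset_adjoin _ _ ?_)
        cases o with
        | none => exact Or.inl rfl
        | some j => exact Or.inr ⟨j, rfl⟩
    obtain ⟨u, v, -, huv⟩ := IsFractionRing.div_surjective (A := Qt) z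
    obtain ⟨P, rfl⟩ := Ideal.Quotient.mk_surjective u
    obtain ⟨P', rfl⟩ := Ideal.Quotient.mk_surjective v
    rw [← huv]
    exact div_mem (hP P) (hP P')
  -- algebraicity of the coordinates
  have halg : ∀ j, IsAlgebraic (IntermediateField.adjoin K₀ (Set.range fun b => x (ι b)))
      (x j) := by
    intro j
    set E := IntermediateField.adjoin K₀ (Set.range fun b => x (ι b)) with hE
    let yE : Fin r → E := fun b => ⟨x (ι b), IntermediateField.subset_adjoin _ _ ⟨b, rfl⟩⟩
    let ψ : MvPolynomial (Option (Fin r)) O →ₐ[O] Polynomial E :=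
      aeval (fun o : Option (Fin r) => o.elim (Polynomial.X : Polynomial E)
        (fun b => Polynomial.C (yE b)))
    let θ : 𝔽 := ρ A
    have hψ : ∀ P : MvPolynomial (Option (Fin r)) O, Polynomial.aeval θ (ψ P) = ρ (sb ι A P) := by
      intro P
      induction P using MvPolynomial.induction_on with
      | C a =>
        have e1 : ψ (C a) = Polynomial.C (algebraMap O E a) := by
          show aeval _ (C a) = _
          rw [aeval_C]
          rfl
        have e2 : sb ι A (C a) = C a := by
          unfold sb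
          rw [aeval_C]
          rfl
        rw [e1, e2, Polynomial.aeval_C, hρC, ← hπC]
        rfl
      | add p q hp hq => rw [map_add, map_add, map_add, map_add, hp, hq]
      | mul_X p o hp =>
        rw [map_mul, map_mul, map_mul, map_mul, hp]
        congr 1
        cases o with
        | none =>
          have e1 : ψ (X none) = Polynomial.X := by
            show aeval _ (X none) = _
            rw [aeval_X]
            rfl
          have e2 : sb ι A (X none) = A := by
            unfold sb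
            rw [aeval_X]
            rfl
          rw [e1, e2, Polynomial.aeval_X]
        | some b =>
          have e1 : ψ (X (some b)) = Polynomial.C (yE b) := by
            show aeval _ (X (some b)) = _
            rw [aeval_X]
            rfl
          have e2 : sb ι A (X (some b)) = X (ι b) := by
            unfold sb
            rw [aeval_X]
            rfl
          rw [e1, e2, Polynomial.aeval_C, hρX]
          rfl
    have hθ : IsAlgebraic E θ := by
      refine ⟨ψ H, ?_, ?_⟩
      · intro h0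
        apply HT
        rw [← hπ, ← hρ, ← hψ, ← deriv_sub]
        have e : (aeval (fun o : Option (Fin r) => o.elim (Polynomial.X : Polynomial E)
          (fun b => Polynomial.C (yE b)))) H = ψ H := rfl
        rw [e, h0, Polynomial.derivative_zero, map_zero]
      · rw [hψ, hρ, hπ]
        exact H0
    have hB0 : ρ (rename ι B₀) ≠ 0 := by
      intro h
      exact B00 (ind _ ((hπ _).1 h))
    have hmemr : ∀ P : MvPolynomial (Fin r) O, ρ (rename ι P) ∈ E := by
      intro P
      induction P using MvPolynomial.induction_on with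
      | C a => rw [rename_C, hρC, ← hπC]; exact hmemC _ a
      | add p q hp hq => rw [map_add, map_add]; exact add_mem hp hq
      | mul_X p i hp =>
        rw [map_mul, map_mul, rename_X, hρX]
        exact mul_mem hp (IntermediateField.subset_adjoin _ _ ⟨i, rfl⟩)
    have hxj : x j = ρ (sb ι A (B j)) / ρ (rename ι B₀) := by
      rw [eq_div_iff hB0]
      have h5 := (hπ _).2 (BX j)
      rw [← hρ, map_sub, map_mul, sub_eq_zero, hρX] at h5
      rw [← h5, mul_comm]
    have hint : IsIntegral E θ := hθ.isIntegral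
    have hfa : Algebra.IsAlgebraic E (IntermediateField.adjoin E {θ}) :=
      IntermediateField.isAlgebraic_adjoin_simple hint
    have hmem1 : ρ (sb ι A (B j)) ∈ IntermediateField.adjoin E {θ} := by
      rw [← hψ]
      have h6 : ∀ q : Polynomial E, Polynomial.aeval θ q ∈ IntermediateField.adjoin E {θ} := by
        intro q
        have h7 := Polynomial.aeval_mem_adjoin_singleton (R := E) (p := q) θ
        exact IntermediateField.algebra_adjoin_le_adjoin E {θ} h7
      exact h6 _
    have hmem2 : ρ (rename ι B₀) ∈ IntermediateField.adjoin E {θ} := by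
      have h6 := IntermediateField.algebraMap_mem (IntermediateField.adjoin E {θ})
        (⟨ρ (rename ι B₀), hmemr B₀⟩ : E)
      exact h6
    have hmem : x j ∈ IntermediateField.adjoin E {θ} := by
      rw [hxj]
      exact div_mem hmem1 hmem2
    have h8 := hfa.isAlgebraic ⟨x j, hmem⟩
    exact (IntermediateField.isAlgebraic_iff).1 h8
  -- algebraicity of the algebraic number
  have halgΘ : IsAlgebraic (IntermediateField.adjoin K₀ (Set.range fun b => x (ι b))) Θ := by
    refine alg_of_monic (fun l => x (μ l)) (fun l => halg (μ l)) Θ ?_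
    have h5 := (hπ _).2 hm
    unfold mpl lp at h5
    rw [map_add, map_pow, map_sum] at h5
    rw [← h5]
    congr 1
    refine Finset.sum_congr rfl fun l _ => ?_
    rw [map_mul, map_pow, ← hρ, hρX]
  -- the map over the function field
  have hchar : CharZero K₀ := IsFractionRing.charZero O
  let W : ℤ → Fin 2 → MvPolynomial (Option (Fin N)) O := Wz gA gD gQ g0 g1
  let cA : Fin (d + 1) → 𝔽 := fun i => π (gA i)
  let w : ℤ → Fin 2 → 𝔽 := Wz cA (π gD) (π gQ) (fun i => π (g0 i)) (fun i => π (g1 i))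
  have hWw : ∀ n i, π (W n i) = w n i := fun n i =>
    congrFun (Wz_map π gA gD gQ g0 g1 n) i
  have hD0 : π gD ≠ 0 := fun h => hgD ((hπ _).1 h)
  have hQ0 : π gQ ≠ 0 := fun h => hgQ ((hπ _).1 h)
  have hA0 : π (gA (Fin.last d)) ≠ 0 := fun h => hgA ((hπ _).1 h)
  have h00 : π (g0 1) ≠ 0 := fun h => hg0 ((hπ _).1 h)
  have h10 : π (g1 1) ≠ 0 := fun h => hg1 ((hπ _).1 h)
  have hw1 : ∀ n, w n 1 ≠ 0 := Wz_ne hD0 hQ0 h00 h10
  let z : ℤ → 𝔽 := fun n => w n 0 / w n 1
  have hFd : (FP cA (π gD)).natDegree = d := FP_natDegree hD0 hA0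
  have hz : ∀ n, z (n + 2) = (FP cA (π gD)).eval (z (n + 1)) - π gQ / π gD * z n :=
    fun n => FP_rec (p := fun i => π (g0 i)) (q := fun i => π (g1 i)) hD0 hQ0 h00 h10 n
  have hzz : ∀ m n, z m = z n ↔ wg (W m) (W n) ∈ J := by
    intro m n
    rw [← hπ, wg_map]
    have e1 : (fun i => π (W m i)) = w m := funext fun i => hWw m i
    have e2 : (fun i => π (W n i)) = w n := funext fun i => hWw n i
    rw [e1, e2]
    exact eq_iff_wg (hw1 m) (hw1 n)
  have key := cross_algH (K₀ := K₀) (K := 𝔽) (D := D) (e' := e') x Θ ι hr hind htop halg halgΘ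
    (FP cA (π gD)) (by rw [hFd]; exact hd) (π gQ / π gD) (div_ne_zero hQ0 hD0) z hz
    (by
      intro m n h1 h2
      by_contra hne
      exact hwg m n hne ⟨(hzz _ _).1 h1, (hzz _ _).1 h2⟩) (by
      intro n
      obtain ⟨V, U, hV, hVU, hc⟩ := hrel n
      have hV' : ρ V ≠ 0 := fun h => hV ((hπ _).1 h)
      refine ⟨fun l => ρ (U l) / ρ V, ?_, fun l => ?_⟩
      · have h5 := (hπ _).2 hVU
        rw [map_sub, map_mul, map_mul, sub_eq_zero, ← hρ] at h5
        have h6 : π (lp U) = ∑ l, ρ (U l) * Θ ^ (l : ℕ) := by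
          unfold lp
          rw [map_sum]
          refine Finset.sum_congr rfl fun l _ => ?_
          rw [map_mul, map_pow, hρ]
        have h7 : ∑ l, ρ (U l) / ρ V * Θ ^ (l : ℕ) = (∑ l, ρ (U l) * Θ ^ (l : ℕ)) / ρ V := by
          rw [Finset.sum_div]
          refine Finset.sum_congr rfl fun l _ => ?_
          ring
        have h8 : π (Wz gA gD gQ g0 g1 n 0) = w n 0 := hWw n 0
        have h9 : π (Wz gA gD gQ g0 g1 n 1) = w n 1 := hWw n 1
        rw [h8, h9] at h5
        rw [h7, ← h6]
        show w n 0 / w n 1 = _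
        rw [div_eq_div_iff (hw1 n) hV']
        linear_combination h5
      · obtain ⟨cc, hcc, hJ'⟩ := hc l
        refine ⟨fun e => algebraMap O K₀ (cc e), ?_, ?_⟩
        · intro h5
          apply hcc
          funext e
          have h6 := congrFun h5 e
          refine (IsFractionRing.injective O K₀) ?_
          show algebraMap O K₀ (cc e) = algebraMap O K₀ 0
          rw [map_zero]
          exact h6
        · have h5 := (hπ _).2 hJ'
          rw [← hρ, map_sum] at h5
          have h6 : (ρ V) ^ D * ∑ e : (Fin r → Fin (D + 1)) × Fin (D + 1),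
              algebraMap K₀ 𝔽 (algebraMap O K₀ (cc e)) *
              ((∏ b, x (ι b) ^ (e.1 b : ℕ)) * (ρ (U l) / ρ V) ^ (e.2 : ℕ)) = 0 := by
            rw [← h5, Finset.mul_sum]
            refine Finset.sum_congr rfl fun e _ => ?_
            have hD : (ρ V) ^ D = (ρ V) ^ (e.2 : ℕ) * (ρ V) ^ (D - (e.2 : ℕ)) := by
              rw [← pow_add]
              congr 1
              have := e.2.2
              omega
            rw [hD, div_pow, ← IsScalarTower.algebraMap_apply O K₀ 𝔽, hπC, ← hρC]
            simp only [map_mul, map_prod, map_pow, hρX]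
            have h7 : (ρ V) ^ (e.2 : ℕ) ≠ 0 := pow_ne_zero _ hV'
            exact aux_div h7
          exact (mul_eq_zero.1 h6).resolve_left (pow_ne_zero _ hV')) a b c e
    (fun h => hce ((hzz _ _).1 h))
  have key2 := (IsFractionRing.isAlgebraic_iff O K₀ 𝔽).2 key
  obtain ⟨p, hp0, hp1⟩ := key2
  refine ⟨p, hp0, ?_⟩
  rw [← hπ, he_map]
  have hwgw : ∀ m n, π (wg (W m) (W n)) = wg (w m) (w n) := by
    intro m n
    rw [wg_map]
    congr 1
    · exact funext fun i => hWw m i
    · exact funext fun i => hWw n i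
  have hce' : wg (w c) (w e) ≠ 0 := by
    rw [← hwgw]
    exact fun h => hce ((hπ _).1 h)
  have hQ : π (wg (W c) (W e) * (W a 1 * W b 1)) ≠ 0 := by
    rw [map_mul, map_mul, hwgw, hWw, hWw]
    exact mul_ne_zero hce' (mul_ne_zero (hw1 a) (hw1 b))
  have h5 := he_eval (P := (p.map C).map π) (m := p.natDegree)
    (Polynomial.natDegree_map_le.trans Polynomial.natDegree_map_le)
    (fun i => π ((![wg (W a) (W b) * (W c 1 * W e 1), wg (W c) (W e) * (W a 1 * W b 1)] :
      Fin 2 → MvPolynomial (Option (Fin N)) O) i)) hQ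
  have h6 : Polynomial.eval ((z a - z b) / (z c - z e)) ((p.map C).map π) = 0 := by
    rw [Polynomial.map_map]
    have e1 : (π.comp C : O →+* 𝔽) = algebraMap O 𝔽 := by
      ext c
      rfl
    rw [e1, Polynomial.eval_map_algebraMap]
    exact hp1
  have h7 : (z a - z b) / (z c - z e) =
      π (wg (W a) (W b) * (W c 1 * W e 1)) / π (wg (W c) (W e) * (W a 1 * W b 1)) := by
    rw [map_mul, map_mul, map_mul, map_mul, hwgw, hwgw, hWw, hWw, hWw, hWw]
    exact ratio_eq (hw1 a) (hw1 b) (hw1 c) (hw1 e)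
  rw [h7] at h6
  have h8 : he ((p.map C).map π) p.natDegree
      (fun i => π ((![wg (W a) (W b) * (W c 1 * W e 1), wg (W c) (W e) * (W a 1 * W b 1)] :
      Fin 2 → MvPolynomial (Option (Fin N)) O) i)) = 0 := by
    rw [← h5]
    simp only [Matrix.cons_val_zero, Matrix.cons_val_one]
    rw [h6, zero_mul]
  exact h8

end

end Pool.Agent.R323.HN
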